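import Mathlib
import Pool.Agent.Helper27.OSX.Gh

set_option autoImplicit false

/-!
Piece X18.  If the plane curve `μ = 0` is smooth at the points of `δ = 0` then the square root of
`δ` on it is regular there: `c = g₀ / h₀`, `c² = δ`.  For each common zero `z` of `μ` and `δ` the
local ring of the curve is a discrete valuation ring, so there are forms `g`, `h` with
`g h₀ ≡ g₀ h` modulo `μ` and `h(z) ≠ 0` (the homogeneous ideal of all such `h` contains a form not
vanishing at `z`); after multiplication by forms not vanishing at the (finitely many) common zeros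
the `h`'s have the same degree, and a general linear combination of them has no common zero with
`(μ, δ)`.
-/

namespace Pool.Agent.Helper89.OS

open MvPolynomial Pool.Agent.Helper29.HP

theorem exists_gh {δ μ : P3} {d : ℕ} (hμ : μ.IsHomogeneous d) (hμi : Irreducible μ)
    (hδ : δ.IsHomogeneous 6) (hδi : Irreducible δ) (hμδ : ¬ δ ∣ μ)
    (hsp : ∃ g h : P3, ¬ μ ∣ h ∧ μ ∣ g ^ 2 - δ * h ^ 2)
    (hsm : ∀ z : Fin 3 → ℂ, z ≠ 0 → eval z μ = 0 → eval z δ = 0 → ∃ i, eval z (pderiv i μ) ≠ 0) :
    ∃ (e : ℕ) (g h : P3), g.IsHomogeneous (e + 3) ∧ h.IsHomogeneous e ∧ μ ∣ g ^ 2 - δ * h ^ 2 ∧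
      ∀ z : Fin 3 → ℂ, z ≠ 0 → eval z μ = 0 → eval z δ = 0 → eval z h ≠ 0 :=
  Helper27.OSX.Gh.exists_gh hμ hμi hδ hδi hμδ hsp hsm

end Pool.Agent.Helper89.OS
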