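import Mathlib
import Pool.Agent.Helper98.OS.X4

set_option autoImplicit false

/-!
Piece X4.  Normality of the smooth curve `δ = 0`.

`sq_mem`: on the affine smooth curve (`dh2 δ = 0`, `dedekind_of_smooth`, so integrally closed)
`q = μ t`, `q' = μ t'`, hence `(p / μ)^2 = t t'` is integral and `p ∈ (μ)`, i.e.
`dh2 p ∈ (dh2 μ, dh2 δ)`.  If no common zero of `δ` and `μ` lies on `x₀ = 0` then
`mem_of_dh2_mem` and `mem_of_X_pow_mul` (piece Six) give `p ∈ (μ, δ)`; in general change the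
coordinates as in `exists_six` (`TR.exists_lin_avoid`, `exists_lequiv`, `lsub`).

`mem_IZ`, `mem_IA`: the sets are closed under addition: `(f f')^2 = f^2 f'^2`, so `f f' ∈ (μ, δ)` by
`sq_mem`; `δ ∣ (a ⬝ A a')^2 - (a ⬝ A a) (a' ⬝ A a')` because the `2 × 2` minors of `A = adj M` are
divisible by `δ = det M`.  `mul_mem_IZ`, `dot_mem`: the same computations.
-/

namespace Pool.Agent.Helper89.OS

open MvPolynomial Pool.Agent.Helper29.HP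

theorem sq_mem {δ μ p q q' : P3} {d a b c : ℕ} (hδ : δ.IsHomogeneous 6)
    (hsm : ∀ z : Fin 3 → ℂ, z ≠ 0 → eval z δ = 0 → ∃ i, eval z (pderiv i δ) ≠ 0)
    (hμ : μ.IsHomogeneous d) (hμδ : ¬ δ ∣ μ) (hp : p.IsHomogeneous a) (hq : q.IsHomogeneous b)
    (hq' : q'.IsHomogeneous c) (h : δ ∣ p ^ 2 - q * q') (h1 : q ∈ Imd μ δ) (h2 : q' ∈ Imd μ δ) :
    p ∈ Imd μ δ :=
  Helper98.OS.sq_mem hδ hsm hμ hμδ hp h h1 h2

theorem mul_mem {δ μ f f' : P3} {d a b : ℕ} (hδ : δ.IsHomogeneous 6)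
    (hsm : ∀ z : Fin 3 → ℂ, z ≠ 0 → eval z δ = 0 → ∃ i, eval z (pderiv i δ) ≠ 0)
    (hμ : μ.IsHomogeneous d) (hμδ : ¬ δ ∣ μ) (hf : f.IsHomogeneous a) (hf' : f'.IsHomogeneous b)
    (h1 : f ^ 2 ∈ Imd μ δ) (h2 : f' ^ 2 ∈ Imd μ δ) : f * f' ∈ Imd μ δ :=
  Helper98.OS.sq_mem hδ hsm hμ hμδ (hf.mul hf') ⟨0, by ring⟩ h1 h2

theorem mem_IZ {δ μ f : P3} {d n : ℕ} (hδ : δ.IsHomogeneous 6)
    (hsm : ∀ z : Fin 3 → ℂ, z ≠ 0 → eval z δ = 0 → ∃ i, eval z (pderiv i δ) ≠ 0)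
    (hμ : μ.IsHomogeneous d) (hμδ : ¬ δ ∣ μ) :
    f ∈ IZ μ δ n ↔ f.IsHomogeneous n ∧ f ^ 2 ∈ Imd μ δ := by
  refine ⟨fun h => ?_, fun h => Submodule.subset_span h⟩
  refine Submodule.span_induction (p := fun f _ => f.IsHomogeneous n ∧ f ^ 2 ∈ Imd μ δ)
    (fun x hx => hx) ⟨isHomogeneous_zero _ _ _, ?_⟩ ?_ ?_ h
  · rw [zero_pow two_ne_zero]
    exact Ideal.zero_mem _
  · rintro x y - - ⟨hx, hx2⟩ ⟨hy, hy2⟩
    refine ⟨hx.add hy, ?_⟩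
    have h3 := mul_mem hδ hsm hμ hμδ hx hy hx2 hy2
    have e : (x + y) ^ 2 = x ^ 2 + 2 * (x * y) + y ^ 2 := by ring
    rw [e]
    exact Ideal.add_mem _ (Ideal.add_mem _ hx2 (Ideal.mul_mem_left _ _ h3)) hy2
  · rintro c x - ⟨hx, hx2⟩
    refine ⟨?_, ?_⟩
    · exact (homogeneousSubmodule (Fin 3) ℂ n).smul_mem c hx
    · rw [smul_eq_C_mul, mul_pow]
      exact Ideal.mul_mem_left _ _ hx2

theorem dot_mem {δ μ : P3} {M : Matrix (Fin 3) (Fin 3) P3} {a a' : Fin 3 → P3} {d n n' : ℕ}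
    (hδ : δ.IsHomogeneous 6)
    (hsm : ∀ z : Fin 3 → ℂ, z ≠ 0 → eval z δ = 0 → ∃ i, eval z (pderiv i δ) ≠ 0)
    (hμ : μ.IsHomogeneous d) (hμδ : ¬ δ ∣ μ) (hMs : M.IsSymm)
    (hM : ∀ i j, (M i j).IsHomogeneous 2) (hMd : M.det = δ) (ha : ∀ i, (a i).IsHomogeneous n)
    (ha' : ∀ i, (a' i).IsHomogeneous n') (h1 : a ⬝ᵥ M.adjugate.mulVec a ∈ Imd μ δ)
    (h2 : a' ⬝ᵥ M.adjugate.mulVec a' ∈ Imd μ δ) : a ⬝ᵥ M.adjugate.mulVec a' ∈ Imd μ δ := by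
  have hAs : M.adjugate.IsSymm := by
    rw [Matrix.IsSymm, Matrix.adjugate_transpose, hMs.eq]
  refine Helper98.OS.sq_mem hδ hsm hμ hμδ (Helper98.OS.hom_dot (Helper98.OS.hom_adj hM) ha ha') ?_
    h1 h2
  rw [Helper98.OS.adj_id _ hAs, Matrix.adjugate_adjugate _ (by simp), hMd]
  rw [show Fintype.card (Fin 3) - 2 = 1 from rfl, pow_one, Matrix.smul_mulVec,
    dotProduct_smul, smul_eq_mul]
  exact ⟨-(crossProduct a a' ⬝ᵥ M.mulVec (crossProduct a a')), by ring⟩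

theorem mem_IA {δ μ : P3} {M : Matrix (Fin 3) (Fin 3) P3} {a : Fin 3 → P3} {d n : ℕ}
    (hδ : δ.IsHomogeneous 6)
    (hsm : ∀ z : Fin 3 → ℂ, z ≠ 0 → eval z δ = 0 → ∃ i, eval z (pderiv i δ) ≠ 0)
    (hμ : μ.IsHomogeneous d) (hμδ : ¬ δ ∣ μ) (hMs : M.IsSymm)
    (hM : ∀ i j, (M i j).IsHomogeneous 2) (hMd : M.det = δ) :
    a ∈ IA μ δ M.adjugate n ↔
      (∀ i, (a i).IsHomogeneous n) ∧ a ⬝ᵥ M.adjugate.mulVec a ∈ Imd μ δ := by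
  have hAs : M.adjugate.IsSymm := by
    rw [Matrix.IsSymm, Matrix.adjugate_transpose, hMs.eq]
  refine ⟨fun h => ?_, fun h => Submodule.subset_span h⟩
  refine Submodule.span_induction (p := fun a _ => (∀ i, (a i).IsHomogeneous n) ∧
    a ⬝ᵥ M.adjugate.mulVec a ∈ Imd μ δ)
    (fun x hx => hx) ⟨fun i => isHomogeneous_zero _ _ _, ?_⟩ ?_ ?_ h
  · rw [zero_dotProduct]
    exact Ideal.zero_mem _
  · rintro x y - - ⟨hx, hx2⟩ ⟨hy, hy2⟩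
    refine ⟨fun i => (hx i).add (hy i), ?_⟩
    have h3 := dot_mem hδ hsm hμ hμδ hMs hM hMd hx hy hx2 hy2
    have e : (x + y) ⬝ᵥ M.adjugate.mulVec (x + y) =
        x ⬝ᵥ M.adjugate.mulVec x + 2 * (x ⬝ᵥ M.adjugate.mulVec y) +
          y ⬝ᵥ M.adjugate.mulVec y := by
      rw [Matrix.mulVec_add, add_dotProduct, dotProduct_add, dotProduct_add,
        Helper98.OS.dot_comm_symm _ hAs y x]
      ring
    rw [e]
    exact Ideal.add_mem _ (Ideal.add_mem _ hx2 (Ideal.mul_mem_left _ _ h3)) hy2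
  · rintro c x - ⟨hx, hx2⟩
    refine ⟨fun i => ?_, ?_⟩
    · exact (homogeneousSubmodule (Fin 3) ℂ n).smul_mem c (hx i)
    · rw [Matrix.mulVec_smul, smul_dotProduct, dotProduct_smul, smul_eq_C_mul, smul_eq_C_mul]
      exact Ideal.mul_mem_left _ _ (Ideal.mul_mem_left _ _ hx2)

/-- a homogeneous element of `(μ, δ)` is `μ t + δ r` with homogeneous `t`, `r` -/
theorem hom_Imd {δ μ p : P3} {d n : ℕ} (hδ : δ.IsHomogeneous 6) (hμ : μ.IsHomogeneous d)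
    (hp : p.IsHomogeneous n) (h : p ∈ Imd μ δ) :
    ∃ t r : P3, p = μ * t + δ * r ∧ (t = 0 ∨ (d ≤ n ∧ t.IsHomogeneous (n - d))) ∧
      (r = 0 ∨ (6 ≤ n ∧ r.IsHomogeneous (n - 6))) := by
  obtain ⟨t, r, h⟩ := Helper98.OS.mem_Imd.1 h
  obtain ⟨t', ht, ht'⟩ := Helper98.OS.comp_mul hμ t n
  obtain ⟨r', hr, hr'⟩ := Helper98.OS.comp_mul hδ r n
  refine ⟨t', r', ?_, ht', hr'⟩
  have h1 : homogeneousComponent n p = p := by
    rw [homogeneousComponent_of_mem hp, if_pos rfl]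
  rw [← h1, h, map_add, ht, hr]

end Pool.Agent.Helper89.OS
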