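import Mathlib

set_option autoImplicit false

/-!
Piece X17.  Base change from `ℂ` to `F = ℂ(u₀, u₁, u₂)` inside `E = K(u₀, u₁, u₂)`.

`bc_li`: a relation with coefficients in `F` can be cleared to coefficients in `ℂ[u]`; compare the
coefficients of each monomial in `u`.  The other two are formal consequences (dimension count
`dim (U_F ⊓ U'_F) = dim U_F + dim U'_F - dim (U + U')_F`).
-/

namespace Pool.Agent.Helper89.OS

open Module MvPolynomial

/-- the `F`-span of a complex subspace of `K^n`, in `E^n` -/
noncomputable def bc {K : Type*} [Field K] [Algebra ℂ K] {ι : Type*} (F E : Type*) [Field F]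
    [Field E] [Algebra K E] [Algebra F E] (U : Submodule ℂ (ι → K)) : Submodule F (ι → E) :=
  Submodule.span F ((fun v : ι → K => fun i => algebraMap K E (v i)) '' (U : Set (ι → K)))

section
variable {K : Type} [Field K] [Algebra ℂ K] {ι : Type} [Finite ι]
  [Algebra (FractionRing (MvPolynomial (Fin 3) ℂ)) (FractionRing (MvPolynomial (Fin 3) K))]
  (hcomp : ∀ f : MvPolynomial (Fin 3) ℂ,
    algebraMap (FractionRing (MvPolynomial (Fin 3) ℂ)) (FractionRing (MvPolynomial (Fin 3) K))
      (algebraMap _ _ f) = algebraMap (MvPolynomial (Fin 3) K) _ (f.map (algebraMap ℂ K)))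
include hcomp

theorem bc_li {n : ℕ} (v : Fin n → ι → K) (hv : LinearIndependent ℂ v) :
    LinearIndependent (FractionRing (MvPolynomial (Fin 3) ℂ))
      (fun j : Fin n => fun i : ι => algebraMap K (FractionRing (MvPolynomial (Fin 3) K))
        (v j i)) := by
  classical
  rw [Fintype.linearIndependent_iff]
  intro c hc
  obtain ⟨b, hb⟩ := IsLocalization.exist_integer_multiples_of_finite
    (nonZeroDivisors (MvPolynomial (Fin 3) ℂ)) c
  choose a ha using hb
  -- relations between polynomials
  have h1 : ∀ i : ι, ∑ j, (a j).map (algebraMap ℂ K) * C (v j i) = 0 := by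
    intro i
    apply IsFractionRing.injective (MvPolynomial (Fin 3) K) (FractionRing (MvPolynomial (Fin 3) K))
    rw [map_zero, map_sum]
    have h2 : ∀ j, algebraMap (MvPolynomial (Fin 3) K) (FractionRing (MvPolynomial (Fin 3) K))
        ((a j).map (algebraMap ℂ K) * C (v j i)) =
        algebraMap (FractionRing (MvPolynomial (Fin 3) ℂ)) (FractionRing (MvPolynomial (Fin 3) K))
          (algebraMap _ _ (b : MvPolynomial (Fin 3) ℂ)) *
        (c j • algebraMap K (FractionRing (MvPolynomial (Fin 3) K)) (v j i)) := by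
      intro j
      rw [map_mul, ← hcomp, ha, Algebra.smul_def, Algebra.smul_def, map_mul, mul_assoc]
      rfl
    rw [Finset.sum_congr rfl fun j _ => h2 j, ← Finset.mul_sum]
    have h3 := congrFun hc i
    simp only [Finset.sum_apply, Pi.smul_apply, Pi.zero_apply] at h3
    rw [h3, mul_zero]
  have h4 : ∀ j, a j = 0 := by
    intro j
    ext s
    have h5 : ∑ j, coeff s (a j) • v j = 0 := by
      funext i
      have := congrArg (coeff s) (h1 i)
      rw [coeff_sum, coeff_zero] at this
      simp only [mul_comm _ (C _), coeff_C_mul, coeff_map] at this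
      simp only [Finset.sum_apply, Pi.smul_apply, Pi.zero_apply, Algebra.smul_def]
      rw [← this]
      exact Finset.sum_congr rfl fun j _ => mul_comm _ _
    rw [coeff_zero]
    exact Fintype.linearIndependent_iff.1 hv (fun j => coeff s (a j)) h5 j
  intro j
  have h6 := ha j
  rw [h4 j, map_zero, Algebra.smul_def] at h6
  rcases mul_eq_zero.1 h6.symm with h7 | h7
  · exfalso
    have h8 : (b : MvPolynomial (Fin 3) ℂ) = 0 :=
      (IsFractionRing.injective (MvPolynomial (Fin 3) ℂ)
        (FractionRing (MvPolynomial (Fin 3) ℂ))) (by rw [h7, map_zero])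
    exact nonZeroDivisors.ne_zero b.2 h8
  · exact h7

theorem bc_smul (c : ℂ) (x : K) :
    algebraMap K (FractionRing (MvPolynomial (Fin 3) K)) (c • x) =
      (algebraMap (MvPolynomial (Fin 3) ℂ) (FractionRing (MvPolynomial (Fin 3) ℂ)) (C c)) •
        algebraMap K (FractionRing (MvPolynomial (Fin 3) K)) x := by
  rw [Algebra.smul_def, Algebra.smul_def, hcomp, map_C, map_mul]
  rfl

/-- the span of a basis -/
theorem bc_eq_span (U : Submodule ℂ (ι → K)) {n : ℕ} (v : Fin n → ι → K)
    (hv : U = Submodule.span ℂ (Set.range v)) :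
    bc (FractionRing (MvPolynomial (Fin 3) ℂ)) (FractionRing (MvPolynomial (Fin 3) K)) U =
      Submodule.span (FractionRing (MvPolynomial (Fin 3) ℂ)) (Set.range
        (fun j : Fin n => fun i : ι => algebraMap K (FractionRing (MvPolynomial (Fin 3) K))
        (v j i))) := by
  apply le_antisymm
  · rw [bc, Submodule.span_le]
    rintro _ ⟨u, hu, rfl⟩
    rw [hv] at hu
    induction hu using Submodule.span_induction with
    | mem x hx =>
      obtain ⟨j, rfl⟩ := hx
      exact Submodule.subset_span ⟨j, rfl⟩
    | zero =>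
      simp only [Pi.zero_apply, map_zero]
      exact Submodule.zero_mem _
    | add x y _ _ hx hy =>
      have := Submodule.add_mem _ hx hy
      have e : (fun i : ι => algebraMap K (FractionRing (MvPolynomial (Fin 3) K)) ((x + y) i)) =
          (fun i : ι => algebraMap K (FractionRing (MvPolynomial (Fin 3) K)) (x i)) +
          (fun i : ι => algebraMap K (FractionRing (MvPolynomial (Fin 3) K)) (y i)) := by
        funext i
        simp only [Pi.add_apply, map_add]
      change (fun i : ι => algebraMap K (FractionRing (MvPolynomial (Fin 3) K)) ((x + y) i)) ∈ _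
      rw [e]
      exact this
    | smul c x _ hx =>
      have := Submodule.smul_mem _ (algebraMap (MvPolynomial (Fin 3) ℂ)
        (FractionRing (MvPolynomial (Fin 3) ℂ)) (C c)) hx
      have e : (fun i : ι => algebraMap K (FractionRing (MvPolynomial (Fin 3) K)) ((c • x) i)) =
          (algebraMap (MvPolynomial (Fin 3) ℂ) (FractionRing (MvPolynomial (Fin 3) ℂ)) (C c)) •
          (fun i : ι => algebraMap K (FractionRing (MvPolynomial (Fin 3) K)) (x i)) := by
        funext i
        rw [Pi.smul_apply, Pi.smul_apply, bc_smul hcomp]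
      change (fun i : ι => algebraMap K (FractionRing (MvPolynomial (Fin 3) K)) ((c • x) i)) ∈ _
      rw [e]
      exact this
  · rw [Submodule.span_le]
    rintro _ ⟨j, rfl⟩
    exact Submodule.subset_span ⟨v j, by rw [hv]; exact Submodule.subset_span ⟨j, rfl⟩, rfl⟩

theorem exists_bas (U : Submodule ℂ (ι → K)) [FiniteDimensional ℂ U] :
    ∃ v : Fin (finrank ℂ U) → ι → K, LinearIndependent ℂ v ∧
      U = Submodule.span ℂ (Set.range v) := by
  clear hcomp
  let b := Module.finBasis ℂ U
  refine ⟨fun j => (b j : ι → K), ?_, ?_⟩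
  · exact b.linearIndependent.map' U.subtype (Submodule.ker_subtype U)
  · have h := b.span_eq
    have h2 := congrArg (Submodule.map U.subtype) h
    rw [Submodule.map_span, Submodule.map_top, Submodule.range_subtype] at h2
    refine h2.symm.trans ?_
    congr 1
    ext x
    simp

theorem bc_fin (U : Submodule ℂ (ι → K)) [FiniteDimensional ℂ U] :
    FiniteDimensional (FractionRing (MvPolynomial (Fin 3) ℂ))
      (bc (FractionRing (MvPolynomial (Fin 3) ℂ)) (FractionRing (MvPolynomial (Fin 3) K)) U) := by
  obtain ⟨v, _, hU⟩ := exists_bas hcomp U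
  rw [bc_eq_span hcomp U v hU]
  exact FiniteDimensional.span_of_finite _ (Set.finite_range _)

theorem bc_mono {U U' : Submodule ℂ (ι → K)} (h : U ≤ U') :
    bc (FractionRing (MvPolynomial (Fin 3) ℂ)) (FractionRing (MvPolynomial (Fin 3) K)) U ≤
      bc (FractionRing (MvPolynomial (Fin 3) ℂ)) (FractionRing (MvPolynomial (Fin 3) K)) U' := by
  clear hcomp
  exact Submodule.span_mono (Set.image_mono h)

theorem bc_sup (U U' : Submodule ℂ (ι → K)) :
    bc (FractionRing (MvPolynomial (Fin 3) ℂ)) (FractionRing (MvPolynomial (Fin 3) K)) (U ⊔ U') =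
      bc (FractionRing (MvPolynomial (Fin 3) ℂ)) (FractionRing (MvPolynomial (Fin 3) K)) U ⊔
      bc (FractionRing (MvPolynomial (Fin 3) ℂ)) (FractionRing (MvPolynomial (Fin 3) K)) U' := by
  apply le_antisymm
  · rw [bc, Submodule.span_le]
    rintro _ ⟨u, hu, rfl⟩
    obtain ⟨a, ha, b, hb, rfl⟩ := Submodule.mem_sup.1 hu
    have e : (fun i : ι => algebraMap K (FractionRing (MvPolynomial (Fin 3) K)) ((a + b) i)) =
        (fun i : ι => algebraMap K (FractionRing (MvPolynomial (Fin 3) K)) (a i)) +
        (fun i : ι => algebraMap K (FractionRing (MvPolynomial (Fin 3) K)) (b i)) := by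
      funext i
      simp only [Pi.add_apply, map_add]
    change (fun i : ι => algebraMap K (FractionRing (MvPolynomial (Fin 3) K)) ((a + b) i)) ∈ _
    rw [e]
    exact Submodule.add_mem_sup (Submodule.subset_span ⟨a, ha, rfl⟩)
      (Submodule.subset_span ⟨b, hb, rfl⟩)
  · exact sup_le (bc_mono hcomp le_sup_left) (bc_mono hcomp le_sup_right)

theorem bc_finrank (U : Submodule ℂ (ι → K)) [FiniteDimensional ℂ U] :
    finrank (FractionRing (MvPolynomial (Fin 3) ℂ))
      (bc (FractionRing (MvPolynomial (Fin 3) ℂ)) (FractionRing (MvPolynomial (Fin 3) K)) U) =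
      finrank ℂ U := by
  obtain ⟨v, hv, hU⟩ := exists_bas hcomp U
  rw [bc_eq_span hcomp U v hU, finrank_span_eq_card (bc_li hcomp v hv), Fintype.card_fin]

theorem bc_inf (U U' : Submodule ℂ (ι → K)) [FiniteDimensional ℂ U] [FiniteDimensional ℂ U'] :
    bc (FractionRing (MvPolynomial (Fin 3) ℂ)) (FractionRing (MvPolynomial (Fin 3) K)) (U ⊓ U') =
      bc (FractionRing (MvPolynomial (Fin 3) ℂ)) (FractionRing (MvPolynomial (Fin 3) K)) U ⊓
      bc (FractionRing (MvPolynomial (Fin 3) ℂ)) (FractionRing (MvPolynomial (Fin 3) K)) U' := by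
  have := bc_fin hcomp U
  have := bc_fin hcomp U'
  have hfi : FiniteDimensional ℂ (U ⊓ U' : Submodule ℂ (ι → K)) :=
    Submodule.finiteDimensional_inf_left _ _
  have hfs : FiniteDimensional ℂ (U ⊔ U' : Submodule ℂ (ι → K)) :=
    Submodule.finiteDimensional_sup _ _
  apply Submodule.eq_of_le_of_finrank_eq
  · exact le_inf (bc_mono hcomp inf_le_left) (bc_mono hcomp inf_le_right)
  · have h1 := Submodule.finrank_sup_add_finrank_inf_eq
      (bc (FractionRing (MvPolynomial (Fin 3) ℂ)) (FractionRing (MvPolynomial (Fin 3) K)) U)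
      (bc (FractionRing (MvPolynomial (Fin 3) ℂ)) (FractionRing (MvPolynomial (Fin 3) K)) U')
    have h2 := Submodule.finrank_sup_add_finrank_inf_eq U U'
    rw [← bc_sup hcomp, bc_finrank hcomp, bc_finrank hcomp, bc_finrank hcomp] at h1
    rw [bc_finrank hcomp]
    omega

end

end Pool.Agent.Helper89.OS
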