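import Pool.Agent.Helper89.OS.Defs

set_option autoImplicit false

/-!
Piece X8.  The quaternion algebra of a ternary form.

Identities for symmetric `M`, `A = adj M`, `δ = det M` (polynomial identities; expand with
`Matrix.adjugate_fin_three`, `Matrix.det_fin_three`, `cross_apply`, `dotProduct`, `Fin.sum_univ_three`
and `ring`).  `T`-facts over a field with `δ ≠ 0`, `ν ≠ 0`, `ν ⬝ A ν = 0`: from
`p.1 • ν + M (p.2 × ν) = 0` and `p.2 ⬝ A ν = 0`.  Isotropy: if `q n = 0` and `p n = 0` then
`(p̄ q) n = 0` etc.; or directly: apply `A`, get `p.1 A ν = δ (ν × p.2)`, choose `w` with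
`ν ⬝ A w ≠ 0`, Gram determinant of `ν, p.2, w`.  Over a field the norm form is nondegenerate on the
4-dimensional space, `T` is isotropic of dimension 2, so `T^⊥ = T`.
-/

namespace Pool.Agent.Helper89.OS

open Module

namespace X8
section
variable {R : Type*} [CommRing R]

theorem cross0 (a b : Fin 3 → R) : (crossProduct a b) 0 = a 1 * b 2 - a 2 * b 1 := by
  simp [crossProduct]
theorem cross1 (a b : Fin 3 → R) : (crossProduct a b) 1 = a 2 * b 0 - a 0 * b 2 := by
  simp [crossProduct]
theorem cross2 (a b : Fin 3 → R) : (crossProduct a b) 2 = a 0 * b 1 - a 1 * b 0 := by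
  simp [crossProduct]

theorem mulVec3 (M : Matrix (Fin 3) (Fin 3) R) (v : Fin 3 → R) (i : Fin 3) :
    M.mulVec v i = M i 0 * v 0 + M i 1 * v 1 + M i 2 * v 2 := by
  simp [Matrix.mulVec, dotProduct, Fin.sum_univ_three]

theorem dot3 (v w : Fin 3 → R) : v ⬝ᵥ w = v 0 * w 0 + v 1 * w 1 + v 2 * w 2 := by
  simp [dotProduct, Fin.sum_univ_three]

theorem adj00 (M : Matrix (Fin 3) (Fin 3) R) : M.adjugate 0 0 = M 1 1 * M 2 2 - M 1 2 * M 2 1 := by
  rw [Matrix.adjugate_fin_three]; simp
theorem adj01 (M : Matrix (Fin 3) (Fin 3) R) : M.adjugate 0 1 = M 0 2 * M 2 1 - M 0 1 * M 2 2 := by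
  rw [Matrix.adjugate_fin_three]; simp; ring
theorem adj02 (M : Matrix (Fin 3) (Fin 3) R) : M.adjugate 0 2 = M 0 1 * M 1 2 - M 0 2 * M 1 1 := by
  rw [Matrix.adjugate_fin_three]; simp
theorem adj10 (M : Matrix (Fin 3) (Fin 3) R) : M.adjugate 1 0 = M 1 2 * M 2 0 - M 1 0 * M 2 2 := by
  rw [Matrix.adjugate_fin_three]; simp; ring
theorem adj11 (M : Matrix (Fin 3) (Fin 3) R) : M.adjugate 1 1 = M 0 0 * M 2 2 - M 0 2 * M 2 0 := by
  rw [Matrix.adjugate_fin_three]; simp
theorem adj12 (M : Matrix (Fin 3) (Fin 3) R) : M.adjugate 1 2 = M 0 2 * M 1 0 - M 0 0 * M 1 2 := by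
  rw [Matrix.adjugate_fin_three]; simp; ring
theorem adj20 (M : Matrix (Fin 3) (Fin 3) R) : M.adjugate 2 0 = M 1 0 * M 2 1 - M 1 1 * M 2 0 := by
  rw [Matrix.adjugate_fin_three]; simp
theorem adj21 (M : Matrix (Fin 3) (Fin 3) R) : M.adjugate 2 1 = M 0 1 * M 2 0 - M 0 0 * M 2 1 := by
  rw [Matrix.adjugate_fin_three]; simp; ring
theorem adj22 (M : Matrix (Fin 3) (Fin 3) R) : M.adjugate 2 2 = M 0 0 * M 1 1 - M 0 1 * M 1 0 := by
  rw [Matrix.adjugate_fin_three]; simp

theorem qm_fst (M : Matrix (Fin 3) (Fin 3) R) (p q : W4 R) :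
    (qm M p q).1 = p.1 * q.1 - p.2 ⬝ᵥ M.adjugate.mulVec q.2 := rfl
theorem qm_snd (M : Matrix (Fin 3) (Fin 3) R) (p q : W4 R) (i : Fin 3) :
    (qm M p q).2 i = p.1 * q.2 i + q.1 * p.2 i + M.mulVec (crossProduct p.2 q.2) i := rfl

end
end X8

open X8

section
variable {R : Type*} [CommRing R] (M : Matrix (Fin 3) (Fin 3) R)

theorem qm_assoc (hM : M.IsSymm) (p q r : W4 R) : qm M (qm M p q) r = qm M p (qm M q r) := by
  have h10 := hM.apply 0 1
  have h20 := hM.apply 0 2
  have h21 := hM.apply 1 2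
  ext i
  · simp only [qm_fst, qm_snd, dot3, mulVec3, cross0, cross1, cross2, adj00, adj01, adj02,
      adj10, adj11, adj12, adj20, adj21, adj22, h10, h20, h21]
    ring
  · fin_cases i
    all_goals
      simp only [Fin.zero_eta, Fin.mk_one, Fin.reduceFinMk, qm_fst, qm_snd, dot3, mulVec3,
        cross0, cross1, cross2, adj00, adj01, adj02,
        adj10, adj11, adj12, adj20, adj21, adj22, h10, h20, h21]
      ring

/-- `γ_k γ_l = - M_kl + ε_klj c_j`, times `δ` -/
theorem qm_col (hM : M.IsSymm) (k l : Fin 3) :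
    qm M (0, fun i => M i k) (0, fun i => M i l) =
      (- (M.det * M k l), M.det • crossProduct (Pi.single k 1) (Pi.single l 1)) := by
  have h10 := hM.apply 0 1
  have h20 := hM.apply 0 2
  have h21 := hM.apply 1 2
  ext i
  · fin_cases k <;> fin_cases l
    all_goals
      simp only [Fin.zero_eta, Fin.mk_one, Fin.reduceFinMk, qm_fst, dot3, mulVec3,
        adj00, adj01, adj02, adj10, adj11, adj12, adj20, adj21, adj22, Matrix.det_fin_three,
        h10, h20, h21]
      ring
  · fin_cases k <;> fin_cases l <;> fin_cases i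
    all_goals
      simp only [Fin.zero_eta, Fin.mk_one, Fin.reduceFinMk, qm_snd, mulVec3,
        cross0, cross1, cross2, Matrix.det_fin_three, Pi.smul_apply, smul_eq_mul,
        h10, h20, h21]
      simp
      try ring

theorem qm_c (hM : M.IsSymm) (i j : Fin 3) :
    qm M (0, Pi.single i 1) (0, Pi.single j 1) + qm M (0, Pi.single j 1) (0, Pi.single i 1) =
      (- (2 * M.adjugate i j), 0) := by
  have hA : M.adjugate j i = M.adjugate i j := by
    have h := congrFun (congrFun (Matrix.adjugate_transpose M) i) j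
    rw [hM.eq] at h
    exact h
  refine Prod.ext ?_ ?_
  · simp only [Prod.fst_add, qm, mul_zero, zero_sub, Matrix.mulVec_single_one,
      single_one_dotProduct, Matrix.col_apply, hA]
    ring
  · simp only [Prod.snd_add, qm, zero_smul, zero_add]
    rw [← Matrix.mulVec_add, ← cross_anticomm, neg_add_cancel, Matrix.mulVec_zero]

theorem qm_one (p : W4 R) : qm M (1, 0) p = p := by
  ext i
  · simp [qm_fst]
  · simp [qm_snd]

end

/-! ### the left ideal of an isotropic vector -/

namespace X8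

section
variable {R : Type*} [CommRing R] (M : Matrix (Fin 3) (Fin 3) R)

/-- right multiplication by a vector is antiselfadjoint -/
theorem nb_rmul (hM : M.IsSymm) (p r : W4 R) (ν : Fin 3 → R) :
    nb M p (qm M r (0, ν)) = - nb M (qm M p (0, ν)) r := by
  have h10 := hM.apply 0 1
  have h20 := hM.apply 0 2
  have h21 := hM.apply 1 2
  simp only [nb, qm_fst, qm_snd, dot3, mulVec3, cross0, cross1, cross2, adj00, adj01, adj02,
      adj10, adj11, adj12, adj20, adj21, adj22, h10, h20, h21]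
  ring

/-- the scalar `p̄ q + q̄ p` is twice the polar form -/
theorem bar_mul (hM : M.IsSymm) (p q : W4 R) :
    qm M (p.1, -p.2) q + qm M (q.1, -q.2) p = (2 * nb M p q, 0) := by
  have h10 := hM.apply 0 1
  have h20 := hM.apply 0 2
  have h21 := hM.apply 1 2
  ext i
  · simp only [nb, Prod.fst_add, qm_fst, Pi.neg_apply, dot3, mulVec3, adj00, adj01, adj02,
      adj10, adj11, adj12, adj20, adj21, adj22, h10, h20, h21]
    ring
  · simp only [Prod.snd_add, Pi.add_apply, qm_snd, Pi.neg_apply, mulVec3, cross0, cross1, cross2,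
      Pi.zero_apply]
    ring

theorem qm_scalar (c : R) (p : W4 R) : qm M (c, 0) p = c • p := by
  ext i
  · simp [qm_fst]
  · simp [qm_snd]

theorem qm_zero_right (p : W4 R) : qm M p 0 = 0 := (lmul M p).map_zero

theorem qm_zero_left (p : W4 R) : qm M 0 p = 0 := (rmul M p).map_zero

/-- the square of a vector -/
theorem qm_sq (ν ω : Fin 3 → R) (hM : M.IsSymm) :
    qm M (0, ν) (0, ω) + qm M (0, ω) (0, ν) = (-(2 * (ν ⬝ᵥ M.adjugate.mulVec ω)), 0) := by
  have h10 := hM.apply 0 1
  have h20 := hM.apply 0 2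
  have h21 := hM.apply 1 2
  ext i
  · simp only [Prod.fst_add, qm_fst, dot3, mulVec3, adj00, adj01, adj02,
      adj10, adj11, adj12, adj20, adj21, adj22, h10, h20, h21]
    ring
  · simp only [Prod.snd_add, Pi.add_apply, qm_snd, mulVec3, cross0, cross1, cross2,
      Pi.zero_apply]
    ring

end

section
variable {K : Type*} [Field K] (M : Matrix (Fin 3) (Fin 3) K)

/-- the polar form is nondegenerate -/
theorem nb_nondeg (hM : M.IsSymm) (hd : M.det ≠ 0) {p : W4 K} (h : ∀ q, nb M p q = 0) :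
    p = 0 := by
  have h1 : p.1 = 0 := by
    have := h (1, 0)
    simpa [nb] using this
  have h2 : M.adjugate.mulVec p.2 = 0 := by
    funext i
    have h3 := h (0, Pi.single i 1)
    simp only [nb, mul_zero, zero_add] at h3
    rw [Matrix.dotProduct_mulVec, dotProduct_single_one] at h3
    have hA : M.adjugate.transpose = M.adjugate := by
      rw [Matrix.adjugate_transpose, hM.eq]
    rw [← hA, Matrix.mulVec_transpose]
    exact h3
  have h3 : p.2 = 0 := by
    have h4 : M.mulVec (M.adjugate.mulVec p.2) = M.det • p.2 := by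
      rw [Matrix.mulVec_mulVec, Matrix.mul_adjugate, Matrix.smul_mulVec, Matrix.one_mulVec]
    rw [h2, Matrix.mulVec_zero] at h4
    exact (smul_eq_zero.1 h4.symm).resolve_left hd
  exact Prod.ext h1 h3

end

end X8

section
variable {K : Type*} [Field K] (M : Matrix (Fin 3) (Fin 3) K) (hM : M.IsSymm) (hd : M.det ≠ 0)
  (ν : Fin 3 → K) (hν0 : ν ≠ 0) (hν : ν ⬝ᵥ M.adjugate.mulVec ν = 0) (h2 : (2 : K) ≠ 0)
include hM hd hν0 hν h2

theorem T_iso {p q : W4 K} (hp : qm M p (0, ν) = 0) (hq : qm M q (0, ν) = 0) : nb M p q = 0 := by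
  have h := congrArg (fun z => qm M z (0, ν)) (bar_mul M hM p q)
  simp only [qm_add_left, qm_assoc M hM, hp, hq, qm_zero_right, add_zero, qm_scalar] at h
  have h3 : (2 * nb M p q) • ν = 0 := (congrArg Prod.snd h).symm
  have h4 := (smul_eq_zero.1 h3).resolve_right hν0
  exact (mul_eq_zero.1 h4).resolve_left h2

omit hν0 hd in
theorem X8.n_sq : qm M (0, ν) (0, ν) = 0 := by
  have h := qm_sq M ν ν hM
  rw [hν, mul_zero, neg_zero] at h
  have h3 : (2 : K) • qm M (0, ν) (0, ν) = 0 := by rw [two_smul, h]; rfl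
  exact (smul_eq_zero.1 h3).resolve_left h2

theorem T_perp {p : W4 K} (h : ∀ q, qm M q (0, ν) = 0 → nb M p q = 0) : qm M p (0, ν) = 0 := by
  apply nb_nondeg M hM hd
  intro r
  have h1 := h (qm M r (0, ν)) (by
    rw [qm_assoc M hM, X8.n_sq M hM ν hν h2, qm_zero_right])
  rw [nb_rmul M hM] at h1
  exact neg_eq_zero.1 h1

theorem T_finrank : finrank K (LinearMap.ker (rmul M (0, ν))) = 2 := by
  -- choose `ω` with `ν ω + ω ν = 1`
  have hA : M.adjugate.mulVec ν ≠ 0 := by
    intro h0
    apply hν0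
    have h4 : M.mulVec (M.adjugate.mulVec ν) = M.det • ν := by
      rw [Matrix.mulVec_mulVec, Matrix.mul_adjugate, Matrix.smul_mulVec, Matrix.one_mulVec]
    rw [h0, Matrix.mulVec_zero] at h4
    exact (smul_eq_zero.1 h4.symm).resolve_left hd
  obtain ⟨i, hi⟩ := Function.ne_iff.1 hA
  have hi' : (M.adjugate.mulVec ν) i ≠ 0 := hi
  have hAs : M.adjugate.transpose = M.adjugate := by
    rw [Matrix.adjugate_transpose, hM.eq]
  have hc : ν ⬝ᵥ M.adjugate.mulVec (Pi.single i 1) = (M.adjugate.mulVec ν) i := by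
    rw [Matrix.dotProduct_mulVec, dotProduct_single_one, ← Matrix.mulVec_transpose, hAs]
  set c := (M.adjugate.mulVec ν) i with hcdef
  have hone : qm M (0, ν) (0, Pi.single i 1) + qm M (0, Pi.single i 1) (0, ν) = (-(2 * c), 0) := by
    rw [qm_sq M ν (Pi.single i 1) hM, hc]
  have hker : LinearMap.ker (rmul M (0, ν)) = LinearMap.range (rmul M (0, ν)) := by
    apply le_antisymm
    · intro p hp
      have hp' : qm M p (0, ν) = 0 := hp
      have h5 := congrArg (fun z => qm M p z) hone
      simp only [qm_add_right, ← qm_assoc M hM, hp', qm_zero_left, zero_add] at h5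
      have h6 : qm M p (-(2 * c), 0) = (-(2 * c)) • p := by
        ext k
        · simp [qm_fst, mul_comm]
        · simp [qm_snd]
      rw [h6] at h5
      refine ⟨(-(2 * c))⁻¹ • qm M p (0, Pi.single i 1), ?_⟩
      rw [map_smul]
      change (-(2 * c))⁻¹ • qm M (qm M p (0, Pi.single i 1)) (0, ν) = p
      rw [h5, smul_smul, inv_mul_cancel₀ (neg_ne_zero.2 (mul_ne_zero h2 hi')), one_smul]
    · rintro _ ⟨r, rfl⟩
      change qm M (qm M r (0, ν)) (0, ν) = 0
      rw [qm_assoc M hM, X8.n_sq M hM ν hν h2, qm_zero_right]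
  have h7 := LinearMap.finrank_range_add_finrank_ker (rmul M (0, ν))
  rw [← hker] at h7
  have h8 : finrank K (W4 K) = 4 := by
    rw [Module.finrank_prod, Module.finrank_self, Module.finrank_fin_fun]
  omega

end

end Pool.Agent.Helper89.OS
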