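import Mathlib
import Pool.Agent.Helper5.OS.OddLevel

set_option autoImplicit false

/-!
Piece X12.  Odd-dimensional modules give points of odd degree; Springer's theorem.

Proof.  `Y∞ = ⋃ Yf j`, `Z∞ = ⋃ Zf j`.  `Y∞ / Z∞` is finite-dimensional (`Yf j → Y∞/Z∞` has image of
dimension `≤ dim Yf j - dim Zf j = q`), and for large `j`
`q = dim (Y∞/Z∞) + dim N_j`, `N_j = (Yf j ⊓ Z∞) / Zf j`.
Case 1: `dim (Y∞/Z∞)` odd: commuting operators `A₀ = 1`, `A₁ = X1`, `A₂ = X2`, `W` on it with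
`W² + ∑ Q_ij A_i A_j = 0`.  Case 2: `dim N_j` odd for all large `j`: `X1 : N_j → N_(j+1)` is injective
by `hsat`, so bijective; on `N_j` put `A₀ = X1⁻¹ ι` (`ι` the inclusion), `A₁ = 1`, `A₂ = X1⁻¹ X2`,
`W' = X1⁻¹ W`: same relation.  In both cases a module of odd dimension over a commutative
`F`-algebra has a simple subquotient of odd dimension (induction), i.e. there is a field `E` of odd
degree over `F` and `(p, w) ∈ E^3 × E`, `p ≠ 0`, with `w² + ∑ Q_ij p_i p_j = 0`.  Springer's theorem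
(a quadratic form anisotropic over `F` stays anisotropic over extensions of odd degree; primitive
element + descent on the degree) gives a zero over `F`.
-/

namespace Pool.Agent.Helper89.OS

open Module

/-- Springer's theorem -/
theorem springer {F : Type*} [Field F] [CharZero F] {n : ℕ} (Q : Matrix (Fin n) (Fin n) F)
    (E : Type*) [Field E] [Algebra F E] [FiniteDimensional F E] (hodd : Odd (finrank F E))
    (p : Fin n → E) (hp : p ≠ 0) (h : p ⬝ᵥ (Q.map (algebraMap F E)).mulVec p = 0) :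
    ∃ q : Fin n → F, q ≠ 0 ∧ q ⬝ᵥ Q.mulVec q = 0 :=
  Pool.Agent.Helper5.OS.springer hodd Q p hp h

theorem odd_point {F : Type*} [Field F] [CharZero F] {Y : Type*} [AddCommGroup Y] [Module F Y]
    (X1 X2 W : Module.End F Y) (h12 : Commute X1 X2) (h1W : Commute X1 W) (h2W : Commute X2 W)
    (Q : Matrix (Fin 3) (Fin 3) F)
    (hrel : W * W + ∑ i, ∑ j, Q i j • ((![1, X1, X2] : Fin 3 → Module.End F Y) i *
      (![1, X1, X2] : Fin 3 → Module.End F Y) j) = 0)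
    (Yf Zf : ℤ → Submodule F Y) (hYm : Monotone Yf) (hZm : Monotone Zf) (hZY : ∀ j, Zf j ≤ Yf j)
    (hfin : ∀ j, FiniteDimensional F (Yf j))
    (hY1 : ∀ j, ∀ y ∈ Yf j, X1 y ∈ Yf (j + 1)) (hY2 : ∀ j, ∀ y ∈ Yf j, X2 y ∈ Yf (j + 1))
    (hYW : ∀ j, ∀ y ∈ Yf j, W y ∈ Yf (j + 1))
    (hZ1 : ∀ j, ∀ y ∈ Zf j, X1 y ∈ Zf (j + 1)) (hZ2 : ∀ j, ∀ y ∈ Zf j, X2 y ∈ Zf (j + 1))
    (hZW : ∀ j, ∀ y ∈ Zf j, W y ∈ Zf (j + 1))
    (hsat : ∀ i j, ∀ z ∈ Zf i, X1 z ∈ Zf (j + 1) → z ∈ Zf j)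
    (q j₁ : ℤ) (hq : Odd q)
    (hdim : ∀ j, j₁ ≤ j → (finrank F (Yf j) : ℤ) = finrank F (Zf j) + q) :
    ∃ (p : Fin 3 → F) (w : F), ¬ (p = 0 ∧ w = 0) ∧
      w ^ 2 + ∑ i, ∑ j, Q i j * (p i * p j) = 0 := by
  set ops : Fin 3 → Module.End F Y := ![1, X1, X2] with hops
  set a : Fin 4 → Module.End F Y := Fin.cons W ops with ha
  set Q4 : Matrix (Fin 4) (Fin 4) F := Pool.Agent.Helper5.OS.border 1 Q with hQ4
  have hrel4 : ∑ i, ∑ j, Q4 i j • (a i * a j) = 0 := by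
    rw [hQ4, ha, Pool.Agent.Helper5.OS.border_sum, one_smul]
    exact hrel
  have a0 : a 0 = W := rfl
  have a1 : a 1 = 1 := rfl
  have a2 : a 2 = X1 := rfl
  have a3 : a 3 = X2 := rfl
  have hcomm : ∀ i j, a i * a j = a j * a i := by
    have h12' : X1 * X2 = X2 * X1 := h12
    have h1W' : X1 * W = W * X1 := h1W
    have h2W' : X2 * W = W * X2 := h2W
    intro i j
    fin_cases i <;> fin_cases j <;>
      simp only [Fin.zero_eta, Fin.mk_one, Fin.reduceFinMk, a0, a1, a2, a3, one_mul, mul_one,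
        h12', h1W', h2W']
  -- the union of the `Zf j`
  set Zi : Submodule F Y := ⨆ j, Zf j with hZi
  have hmem : ∀ y, y ∈ Zi ↔ ∃ j, y ∈ Zf j := fun y =>
    Submodule.mem_iSup_of_directed Zf hZm.directed_le
  have hle : ∀ j, Zf j ≤ Zi := fun j => le_iSup Zf j
  have haY : ∀ i j, ∀ y ∈ Yf j, a i y ∈ Yf (j + 1) := by
    intro i j y hy
    fin_cases i
    · exact hYW j y hy
    · exact hYm (by omega) hy
    · exact hY1 j y hy
    · exact hY2 j y hy
  have haZ : ∀ i j, ∀ y ∈ Zf j, a i y ∈ Zf (j + 1) := by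
    intro i j y hy
    fin_cases i
    · exact hZW j y hy
    · exact hZm (by omega) hy
    · exact hZ1 j y hy
    · exact hZ2 j y hy
  have haI : ∀ i, ∀ y ∈ Zi, a i y ∈ Zi := by
    intro i y hy
    obtain ⟨j, hj⟩ := (hmem y).1 hy
    exact hle _ (haZ i j y hj)
  have hfI : ∀ j, FiniteDimensional F (Yf j ⊓ Zi : Submodule F Y) := by
    intro j
    have := hfin j
    exact Submodule.finiteDimensional_inf_left _ _
  have haM : ∀ i j, ∀ y ∈ (Yf j ⊓ Zi : Submodule F Y), a i y ∈ (Yf (j + 1) ⊓ Zi : Submodule F Y) :=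
    fun i j y hy => ⟨haY i j y hy.1, haI i y hy.2⟩
  have hZM : ∀ j, Zf j ≤ Yf j ⊓ Zi := fun j => le_inf (hZY j) (hle j)
  have hiA : ∀ j, ∀ y ∈ Yf j, a 1 y ∈ (Yf (j + 1) ⊓ Zi : Submodule F Y) →
      y ∈ (Yf j ⊓ Zi : Submodule F Y) := by
    intro j y hy h
    exact ⟨hy, h.2⟩
  have hiB : ∀ j, ∀ y ∈ (Yf j ⊓ Zi : Submodule F Y), a 2 y ∈ Zf (j + 1) → y ∈ Zf j := by
    intro j y hy h
    obtain ⟨i, hi⟩ := (hmem y).1 hy.2
    exact hsat i j y hi h
  have := hfin j₁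
  have := hfin (j₁ + 1)
  have := hfI j₁
  have := hfI (j₁ + 1)
  have d1 := hdim j₁ le_rfl
  have d2 := hdim (j₁ + 1) (by omega)
  have mA := Pool.Agent.Helper5.OS.finrank_le_of_filtered (Yf j₁) (Yf j₁ ⊓ Zi) (Yf (j₁ + 1))
    (Yf (j₁ + 1) ⊓ Zi) inf_le_left inf_le_left (a 1) (haY 1 j₁) (haM 1 j₁) (hiA j₁)
  have mB := Pool.Agent.Helper5.OS.finrank_le_of_filtered (Yf j₁ ⊓ Zi) (Zf j₁)
    (Yf (j₁ + 1) ⊓ Zi) (Zf (j₁ + 1)) (hZM _) (hZM _) (a 2) (haM 2 j₁) (haZ 2 j₁) (hiB j₁)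
  have lA : finrank F (Yf j₁ ⊓ Zi : Submodule F Y) ≤ finrank F (Yf j₁) :=
    Submodule.finrank_mono inf_le_left
  have lB : finrank F (Zf j₁) ≤ finrank F (Yf j₁ ⊓ Zi : Submodule F Y) :=
    Submodule.finrank_mono (hZM _)
  have main : ∃ z : Fin 4 → F, z ≠ 0 ∧ z ⬝ᵥ Q4.mulVec z = 0 := by
    obtain ⟨α, hα⟩ := Nat.exists_eq_add_of_le lA
    obtain ⟨β, hβ⟩ := Nat.exists_eq_add_of_le lB
    rcases Nat.even_or_odd α with hαe | hαo
    · have hβo : Odd β := by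
        rcases Nat.even_or_odd β with h | h
        · exfalso
          obtain ⟨s, hs⟩ := hαe
          obtain ⟨t, ht⟩ := h
          obtain ⟨u, hu⟩ := hq
          omega
        · exact h
      exact Pool.Agent.Helper5.OS.isotropic_of_filtered (fun j => (Yf j ⊓ Zi : Submodule F Y)) Zf
        hZM hfI Q4 a haM haZ hcomm hrel4 2 hiB j₁ β hβo hβ (by omega)
    · exact Pool.Agent.Helper5.OS.isotropic_of_filtered Yf
        (fun j => (Yf j ⊓ Zi : Submodule F Y)) (fun j => inf_le_left) hfin Q4 a haY haM hcomm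
        hrel4 1 hiA j₁ α hαo hα (by omega)
  obtain ⟨z, hz, hz0⟩ := main
  refine ⟨fun i => z i.succ, z 0, ?_, ?_⟩
  · rintro ⟨h1, h2⟩
    apply hz
    funext i
    refine Fin.cases h2 (fun i => ?_) i
    exact congrFun h1 i
  · have h3 := Pool.Agent.Helper5.OS.border_quad 1 Q (z 0) (fun i => z i.succ)
    have h4 : (Fin.cons (z 0) (fun i => z i.succ) : Fin 4 → F) = z := Fin.cons_self_tail z
    rw [h4, hz0, one_mul] at h3
    rw [h3]
    congr 1
    simp only [dotProduct, Matrix.mulVec, Finset.mul_sum]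
    refine Finset.sum_congr rfl fun i _ => Finset.sum_congr rfl fun j _ => ?_
    ring

end Pool.Agent.Helper89.OS
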