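import Mathlib
import Pool.Agent.Helper27.OSX.Curve

set_option autoImplicit false

/-!
Piece X3.  The ring of the curve `μ = 0`, filtered by the degree.  `ev μ` is `z ↦ (1, x, y)` modulo
`μ`, `LF μ n` the set of values of forms of degree `n` (`⊥` for `n < 0`).

Facts used: `μ(0,0,1) ≠ 0`, so `psi μ` is (up to a constant) monic of degree `d = 2m+1` in `y`, with
the coefficient of `y^i` a polynomial of degree `≤ d - i` in `x`; `ev μ f = 0 ↔ μ ∣ f` for forms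
(`dvd_of_psi_dvd`, piece Psi); `X 0` and any form `P` without common zero with `μ` on `x₀ = 0` form a
regular sequence modulo `μ` (if `P f ∈ (X 0^k, μ)` then `f ∈ (X 0^k, μ)`, compare
`Helper29/HP/St/Six.lean`, `rh_rel`, `mem_of_X_mul`, `mem_of_X_pow_mul`).
Division by `μ` (monic in `X 2`): every form of degree `n` is congruent modulo `μ` to a unique
`∑_{i < d} q_i(X 0, X 1) X 2^i` with `q_i` homogeneous of degree `n - i`; this gives the dimension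
and `lam` (the coefficient of `y^(d-1)` in the power basis).  `lam_perf`: the Gram matrix of
`(b, b') ↦ lam (b b')` in the basis `1, y, .., y^(d-1)` is anti-triangular with ones on the
anti-diagonal.  Take `b = ∑ p_i y^i` of exact filtration degree `j`, so `deg p_i = j - i` for some
`i`; by the graded perfectness there is `b'`.  (In graded terms: the pairing
`S_j × S_i → ℂ[x₀,x₁]_{i+j-d+1}` is perfect over `ℂ[x₀,x₁]`, also modulo `x₀`, where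
`S/x₀ = ℂ[x₁,x₂]/(μ(0,x₁,x₂))`.)
-/

namespace Pool.Agent.Helper89.OS

open MvPolynomial Pool.Agent.Helper29.HP Module

theorem irr_psi {μ : P3} {m : ℕ} (hc : Cur μ m) : Irreducible (psi μ) :=
  Helper27.OSX.irr_psi hc

theorem ev_eq_zero {μ : P3} {m : ℕ} (hc : Cur μ m) {f : P3} {n : ℕ} (hf : f.IsHomogeneous n) :
    ev μ f = 0 ↔ μ ∣ f :=
  Helper27.OSX.ev_eq_zero hc hf

theorem ev_X0 (μ : P3) : ev μ (X 0) = 1 :=
  Helper27.OSX.ev_X0 μ

theorem ev_mem (μ : P3) {f : P3} {n : ℕ} (hf : f.IsHomogeneous n) : ev μ f ∈ LF μ n :=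
  Helper27.OSX.ev_mem μ hf

theorem mem_LF {μ : P3} {n : ℤ} {b : KG μ} (hb : b ∈ LF μ n) :
    b = 0 ∨ ∃ (k : ℕ) (f : P3), (k : ℤ) = n ∧ f.IsHomogeneous k ∧ ev μ f = b :=
  Helper27.OSX.mem_LF hb

theorem LF_neg (μ : P3) {n : ℤ} (hn : n < 0) : LF μ n = ⊥ :=
  Helper27.OSX.LF_neg μ hn

theorem LF_mono (μ : P3) : Monotone (LF μ) :=
  Helper27.OSX.LF_mono μ

theorem LF_fin (μ : P3) (n : ℤ) : FiniteDimensional ℂ (LF μ n) :=
  Helper27.OSX.LF_fin μ n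

theorem LF_mul {μ : P3} {i j : ℤ} {a b : KG μ} (ha : a ∈ LF μ i) (hb : b ∈ LF μ j) :
    a * b ∈ LF μ (i + j) :=
  Helper27.OSX.LF_mul ha hb

theorem LF_reg {μ : P3} {m : ℕ} (hc : Cur μ m) {P : P3} {e : ℕ} (hP : P.IsHomogeneous e)
    (hcz : ∀ z : Fin 3 → ℂ, z ≠ 0 → z 0 = 0 → eval z μ = 0 → eval z P ≠ 0) {i n : ℤ} {b : KG μ}
    (hb : b ∈ LF μ i) (h : ev μ P * b ∈ LF μ (n + e)) : b ∈ LF μ n :=
  Helper27.OSX.LF_reg hc hP hcz hb h

theorem LF_sat {μ : P3} {m : ℕ} (hc : Cur μ m) {i n : ℤ} {b : KG μ}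
    (hb : b ∈ LF μ i) (h : ev μ (X 1) * b ∈ LF μ (n + 1)) : b ∈ LF μ n :=
  Helper27.OSX.LF_sat hc hb h

theorem finrank_LF {μ : P3} {m : ℕ} (hc : Cur μ m) {n : ℤ} (hn : 2 * m - 1 ≤ n) :
    (finrank ℂ (LF μ n) : ℤ) = (2 * m + 1) * (n - m + 1) :=
  Helper27.OSX.finrank_LF hc hn

theorem exists_lam {μ : P3} {m : ℕ} (hc : Cur μ m) :
    ∃ lam : KG μ →ₗ[kx] kx,
      (∀ (n : ℤ) (b : KG μ), b ∈ LF μ n → ∃ p : Polynomial ℂ,
        lam b = algebraMap (Polynomial ℂ) kx p ∧ ∀ k : ℕ, n - 2 * m < k → p.coeff k = 0) ∧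
      (∀ (j : ℤ) (b : KG μ), b ∈ LF μ j → b ∉ LF μ (j - 1) → ∀ i : ℤ, 2 * m ≤ i →
        ∃ b' ∈ LF μ i, ∃ (p : Polynomial ℂ) (k : ℕ), (k : ℤ) = i + j - 2 * m ∧
          lam (b * b') = algebraMap (Polynomial ℂ) kx p ∧ p.coeff k ≠ 0) :=
  Helper27.OSX.exists_lam hc

end Pool.Agent.Helper89.OS
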