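import Mathlib
import Pool.Agent.Helper89.OS.St.X3
import Pool.Agent.Helper29.HP.St.EvenOn
import Pool.Agent.Helper72.OS.Quat
import Pool.Agent.Helper89.OS.St.X4

namespace Pool.Agent.Helper29.HP.Six
end Pool.Agent.Helper29.HP.Six

set_option autoImplicit false

/-!
Piece X6.  First properties of the filtered lattice `VF` (general facts: `mem_IZ`, `mem_IA`,
`hom_Imd`, `ev_eq_zero`, `LF_*`).

`VF_nb`: for forms `f f' = μ t + δ r` etc.; apply `ev μ`.  `VF_reg` (regularity of `P` without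
common zero with `μ` on `x₀ = 0`): `v = (ev f, ev a)` with `f ∈ IZ`, and `P f = f₁ + μ c` up to powers
of `X 0` with `f₁` of smaller degree; by `LF_reg` `ev f = ev f'` with `f'` of the right degree, so
`X 0^k f' - f ∈ (μ)` and `X 0^(2k) f'^2 ∈ (μ, δ)`, and `X 0` is regular modulo `(μ, δ)` by `gpδ`
(`rh_rel`, `mem_of_X_pow_mul`).  Same for `a`.  `VF_sat` is the case `P = X 1` (`gp`).
-/

namespace Pool.Agent.Helper89.OS

open MvPolynomial Pool.Agent.Helper29.HP Pool.Agent.Helper29.HP.Six Module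

variable {δ μ g h : P3} {M : Matrix (Fin 3) (Fin 3) P3} {m e : ℕ}

theorem hcast {f : P3} {a b : ℕ} (h : f.IsHomogeneous a) (hab : a = b) : f.IsHomogeneous b :=
  hab ▸ h

theorem IZ_le (μ δ : P3) (n : ℕ) : IZ μ δ n ≤ homogeneousSubmodule (Fin 3) ℂ n := by
  refine Submodule.span_le.mpr ?_
  rintro f ⟨hf, -⟩
  exact hf

theorem homog_fin (n : ℕ) : FiniteDimensional ℂ (homogeneousSubmodule (Fin 3) ℂ n) := by
  infer_instance

instance IZ_fin (μ δ : P3) (n : ℕ) : FiniteDimensional ℂ (IZ μ δ n) :=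
  have := homog_fin n
  Submodule.finiteDimensional_of_le (IZ_le μ δ n)

theorem IA_le (μ δ : P3) (A : Matrix (Fin 3) (Fin 3) P3) (n : ℕ) :
    IA μ δ A n ≤ Submodule.pi Set.univ (fun _ => homogeneousSubmodule (Fin 3) ℂ n) := by
  refine Submodule.span_le.mpr ?_
  rintro f ⟨hf, -⟩
  intro i _
  exact hf i

instance IA_fin (μ δ : P3) (A : Matrix (Fin 3) (Fin 3) P3) (n : ℕ) :
    FiniteDimensional ℂ (IA μ δ A n) := by
  have := homog_fin n
  have h1 : FiniteDimensional ℂ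
      ↥(Submodule.pi (Set.univ : Set (Fin 3)) (fun _ => homogeneousSubmodule (Fin 3) ℂ n)) := by
    let φ : ↥(Submodule.pi (Set.univ : Set (Fin 3)) (fun _ => homogeneousSubmodule (Fin 3) ℂ n)) →ₗ[ℂ]
        (Fin 3 → homogeneousSubmodule (Fin 3) ℂ n) :=
      { toFun := fun x i => ⟨x.1 i, x.2 i (Set.mem_univ i)⟩
        map_add' := fun x y => rfl
        map_smul' := fun c x => rfl }
    apply FiniteDimensional.of_injective φ
    intro x y hxy
    apply Subtype.ext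
    funext i
    have h2 := congrFun hxy i
    exact congrArg Subtype.val h2
  exact Submodule.finiteDimensional_of_le (IA_le μ δ A n)

theorem Dat.not_dvd (D : Dat δ μ g h M m e) : ¬ δ ∣ μ := by
  rintro ⟨u, hu⟩
  rcases D.cur.irr.isUnit_or_isUnit hu with h1 | h1
  · rw [MvPolynomial.isUnit_iff_eq_C_of_isReduced] at h1
    obtain ⟨r, hr, hr'⟩ := h1
    have h2 : δ.IsHomogeneous 0 := by
      rw [hr']
      exact isHomogeneous_C _ _
    have h3 : δ ≠ 0 := by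
      rintro rfl
      exact D.cur.irr.ne_zero (by rw [hu, zero_mul])
    have := D.hδ.inj_right h2 h3
    omega
  · rw [MvPolynomial.isUnit_iff_eq_C_of_isReduced] at h1
    obtain ⟨r, -, hr⟩ := h1
    have h2 : μ.IsHomogeneous 6 := by
      rw [hu, hr]
      simpa using D.hδ.mul (isHomogeneous_C (Fin 3) r)
    have h3 := D.cur.hom.inj_right h2 D.cur.irr.ne_zero
    omega

theorem Dat.exists_pt (D : Dat δ μ g h M m e) :
    ∃ z : Fin 3 → ℂ, z ≠ 0 ∧ z 0 = 0 ∧ eval z μ = 0 := by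
  obtain ⟨z, hz0, hz⟩ := Helper16.exists_common_zero (σ := Fin 3) ![X 0, μ] (by
      intro i
      fin_cases i
      · simp
      · have := Helper16.eval_smul_of_hom D.cur.hom 0 (0 : Fin 3 → ℂ)
        rw [zero_smul, zero_pow (by omega), zero_mul] at this
        exact this) (by simp)
  exact ⟨z, hz0, by simpa using hz 0, by simpa using hz 1⟩

theorem Dat.ev_δ (D : Dat δ μ g h M m e) : ev μ δ ≠ 0 := by
  rw [Ne, ev_eq_zero D.cur D.hδ]
  rintro ⟨q, hq⟩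
  obtain ⟨z, hz0, hz1, hz2⟩ := D.exists_pt
  apply D.gpδ z hz0 hz1 hz2
  rw [hq, map_mul, hz2, zero_mul]

theorem Dat.ev_h (D : Dat δ μ g h M m e) : ev μ h ≠ 0 := by
  rw [Ne, ev_eq_zero D.cur D.hh]
  rintro ⟨q, hq⟩
  obtain ⟨z, hz0, hz1, hz2⟩ := D.exists_pt
  apply D.gph z hz0 hz1 hz2
  rw [hq, map_mul, hz2, zero_mul]

theorem isDomain_KG {μ : P3} {m : ℕ} (hc : Cur μ m) : IsDomain (KG μ) := by
  have : Fact (Irreducible (psi μ)) := ⟨irr_psi hc⟩
  exact (inferInstance : IsDomain (AdjoinRoot (psi μ)))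

theorem Dat.ev_gh (D : Dat δ μ g h M m e) : ev μ g ^ 2 = ev μ δ * ev μ h ^ 2 := by
  have h1 : (g ^ 2 - δ * h ^ 2).IsHomogeneous (2 * e + 6) := by
    refine IsHomogeneous.sub ?_ ?_
    · exact hcast (D.hg.pow 2) (by ring)
    · exact hcast (D.hδ.mul (D.hh.pow 2)) (by ring)
  have h2 := (ev_eq_zero D.cur h1).mpr D.hgh
  rw [map_sub, map_mul, map_pow, map_pow] at h2
  linear_combination h2

theorem Dat.ev_g (D : Dat δ μ g h M m e) : ev μ g ≠ 0 := by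
  have := isDomain_KG D.cur
  intro h0
  have h1 := D.ev_gh
  rw [h0] at h1
  have h2 : ev μ δ * ev μ h ^ 2 = 0 := by rw [← h1]; ring
  rcases mul_eq_zero.mp h2 with h3 | h3
  · exact D.ev_δ h3
  · exact D.ev_h (pow_eq_zero_iff (two_ne_zero) |>.mp h3)

theorem Dat.irr (D : Dat δ μ g h M m e) : Irreducible δ :=
  irreducible_of_smooth (by norm_num) D.hδ D.hsm

theorem Dat.evenOn (D : Dat δ μ g h M m e) : EvenOn δ μ := by
  refine evenOn_split δ μ (2 * m + 1) D.hδ D.irr D.hsm D.cur.irr D.cur.hom D.not_dvd e g h D.hg D.hh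
    (fun hd => D.ev_h ((ev_eq_zero D.cur D.hh).mpr hd)) D.hgh

theorem VF_fin (μ δ : P3) (A : Matrix (Fin 3) (Fin 3) P3) (m : ℕ) (j : ℤ) :
    FiniteDimensional ℂ (VF μ δ A m j) := by
  have h1 : VF μ δ A m j ≤ Submodule.prod ((IZ μ δ (j + m + 2).toNat).map (ev μ).toLinearMap)
      ((IA μ δ A (j + m).toNat).map ((ev μ).toLinearMap.compLeft (Fin 3))) := by
    unfold VF
    refine Submodule.prod_mono ?_ ?_
    · split_ifs
      · exact le_rfl
      · exact bot_le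
    · split_ifs
      · exact le_rfl
      · exact bot_le
  have h2 : FiniteDimensional ℂ ↥(Submodule.prod
      ((IZ μ δ (j + m + 2).toNat).map (ev μ).toLinearMap)
      ((IA μ δ A (j + m).toNat).map ((ev μ).toLinearMap.compLeft (Fin 3)))) :=
    Module.Finite.iff_fg.mpr (Submodule.FG.prod (Module.Finite.iff_fg.mp inferInstance)
      (Module.Finite.iff_fg.mp inferInstance))
  exact Submodule.finiteDimensional_of_le h1

theorem VF_bot (μ δ : P3) (A : Matrix (Fin 3) (Fin 3) P3) (m : ℕ) {j : ℤ} (hj : j < -m - 2) :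
    VF μ δ A m j = ⊥ := by
  unfold VF
  rw [if_neg (by omega), if_neg (by omega)]
  exact Submodule.prod_bot

/-- first component of `VF` -/
noncomputable def V1 (μ δ : P3) (m : ℕ) (j : ℤ) : Submodule ℂ (KG μ) :=
  if 0 ≤ j + m + 2 then (IZ μ δ (j + m + 2).toNat).map (ev μ).toLinearMap else ⊥

/-- second component of `VF` -/
noncomputable def V2 (μ δ : P3) (A : Matrix (Fin 3) (Fin 3) P3) (m : ℕ) (j : ℤ) :
    Submodule ℂ (Fin 3 → KG μ) :=
  if 0 ≤ j + m then (IA μ δ A (j + m).toNat).map ((ev μ).toLinearMap.compLeft (Fin 3)) else ⊥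

theorem VF_eq (μ δ : P3) (A : Matrix (Fin 3) (Fin 3) P3) (m : ℕ) (j : ℤ) :
    VF μ δ A m j = (V1 μ δ m j).prod (V2 μ δ A m j) := rfl

theorem mem_V1 (D : Dat δ μ g h M m e) {j : ℤ} {b : KG μ} :
    b ∈ V1 μ δ m j ↔ b = 0 ∨ ∃ (n : ℕ) (f : P3), (n : ℤ) = j + m + 2 ∧ f.IsHomogeneous n ∧
      f ^ 2 ∈ Imd μ δ ∧ ev μ f = b := by
  unfold V1
  constructor
  · intro hb
    split_ifs at hb with h0
    · obtain ⟨f, hf, rfl⟩ := hb
      right
      obtain ⟨h1, h2⟩ := (mem_IZ D.hδ D.hsm D.cur.hom D.not_dvd).mp hf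
      exact ⟨_, f, by omega, h1, h2, rfl⟩
    · left
      exact (Submodule.mem_bot ℂ).mp hb
  · rintro (rfl | ⟨n, f, hn, h1, h2, rfl⟩)
    · exact zero_mem _
    · rw [if_pos (by omega)]
      have hn' : n = (j + m + 2).toNat := by omega
      refine ⟨f, ?_, rfl⟩
      rw [← hn']
      exact (mem_IZ D.hδ D.hsm D.cur.hom D.not_dvd).mpr ⟨h1, h2⟩

theorem mem_V2 (D : Dat δ μ g h M m e) {j : ℤ} {b : Fin 3 → KG μ} :
    b ∈ V2 μ δ M.adjugate m j ↔ b = 0 ∨ ∃ (n : ℕ) (a : Fin 3 → P3), (n : ℤ) = j + m ∧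
      (∀ i, (a i).IsHomogeneous n) ∧ a ⬝ᵥ M.adjugate.mulVec a ∈ Imd μ δ ∧
      ∀ i, ev μ (a i) = b i := by
  unfold V2
  constructor
  · intro hb
    split_ifs at hb with h0
    · obtain ⟨f, hf, rfl⟩ := hb
      right
      obtain ⟨h1, h2⟩ := (mem_IA D.hδ D.hsm D.cur.hom D.not_dvd D.hMs D.hM D.hMd).mp hf
      exact ⟨_, f, by omega, h1, h2, fun i => rfl⟩
    · left
      exact (Submodule.mem_bot ℂ).mp hb
  · rintro (rfl | ⟨n, f, hn, h1, h2, h3⟩)
    · exact zero_mem _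
    · rw [if_pos (by omega)]
      have hn' : n = (j + m).toNat := by omega
      refine ⟨f, ?_, funext h3⟩
      rw [← hn']
      exact (mem_IA D.hδ D.hsm D.cur.hom D.not_dvd D.hMs D.hM D.hMd).mpr ⟨h1, h2⟩

theorem mem_LF_vec {μ : P3} {n : ℤ} {b : Fin 3 → KG μ} (hb : ∀ i, b i ∈ LF μ n) :
    b = 0 ∨ ∃ (k : ℕ) (f : Fin 3 → P3), (k : ℤ) = n ∧ (∀ i, (f i).IsHomogeneous k) ∧
      ∀ i, ev μ (f i) = b i := by
  by_cases h0 : b = 0
  · exact Or.inl h0
  right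
  obtain ⟨i₀, hi₀⟩ := Function.ne_iff.mp h0
  rcases mem_LF (hb i₀) with h1 | ⟨k, f₀, hk, -, -⟩
  · exact absurd h1 hi₀
  have h2 : ∀ i, ∃ f : P3, f.IsHomogeneous k ∧ ev μ f = b i := by
    intro i
    rcases mem_LF (hb i) with h1 | ⟨k', f, hk', hf, hf'⟩
    · exact ⟨0, isHomogeneous_zero _ _ _, by rw [map_zero, h1]⟩
    · have : k' = k := by omega
      subst this
      exact ⟨f, hf, hf'⟩
  choose f hf hf' using h2
  exact ⟨k, f, hk, hf, hf'⟩

theorem V1_smul (D : Dat δ μ g h M m e) {i j : ℤ} {b : KG μ} (hb : b ∈ LF μ i)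
    {v : KG μ} (hv : v ∈ V1 μ δ m j) : b * v ∈ V1 μ δ m (i + j) := by
  rcases mem_LF hb with rfl | ⟨k, f, hk, hf, rfl⟩
  · rw [zero_mul]; exact zero_mem _
  rcases (mem_V1 D).mp hv with rfl | ⟨n, f', hn, h1, h2, rfl⟩
  · rw [mul_zero]; exact zero_mem _
  refine (mem_V1 D).mpr (Or.inr ⟨k + n, f * f', by push_cast; omega, hf.mul h1, ?_, map_mul _ _ _⟩)
  rw [mul_pow]
  exact Ideal.mul_mem_left _ _ h2

theorem V2_smul (D : Dat δ μ g h M m e) {i j : ℤ} {b : KG μ} (hb : b ∈ LF μ i)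
    {v : Fin 3 → KG μ} (hv : v ∈ V2 μ δ M.adjugate m j) : b • v ∈ V2 μ δ M.adjugate m (i + j) := by
  rcases mem_LF hb with rfl | ⟨k, f, hk, hf, rfl⟩
  · rw [zero_smul]; exact zero_mem _
  rcases (mem_V2 D).mp hv with rfl | ⟨n, a, hn, h1, h2, h3⟩
  · rw [smul_zero]; exact zero_mem _
  refine (mem_V2 D).mpr (Or.inr ⟨k + n, f • a, by push_cast; omega, fun i => hf.mul (h1 i), ?_,
    fun i => ?_⟩)
  · rw [Matrix.mulVec_smul, smul_dotProduct, dotProduct_smul, smul_eq_mul, smul_eq_mul]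
    exact Ideal.mul_mem_left _ _ (Ideal.mul_mem_left _ _ h2)
  · rw [Pi.smul_apply, Pi.smul_apply, smul_eq_mul, map_mul, h3 i, smul_eq_mul]

theorem VF_smul (D : Dat δ μ g h M m e) {i j : ℤ} {b : KG μ} (hb : b ∈ LF μ i)
    {v : W4 (KG μ)} (hv : v ∈ VF μ δ M.adjugate m j) : b • v ∈ VF μ δ M.adjugate m (i + j) := by
  rw [VF_eq] at hv ⊢
  obtain ⟨h1, h2⟩ := hv
  exact ⟨V1_smul D hb h1, V2_smul D hb h2⟩

theorem one_mem_LF (μ : P3) {n : ℤ} (hn : 0 ≤ n) : (1 : KG μ) ∈ LF μ n := by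
  have h1 : ev μ (X 0 ^ n.toNat) ∈ LF μ n.toNat :=
    ev_mem μ (isHomogeneous_X_pow (R := ℂ) (0 : Fin 3) n.toNat)
  rw [map_pow, ev_X0, one_pow] at h1
  rwa [Int.toNat_of_nonneg hn] at h1

theorem VF_mono (D : Dat δ μ g h M m e) : Monotone (VF μ δ M.adjugate m) := by
  intro i j hij v hv
  have h1 := VF_smul D (one_mem_LF μ (show 0 ≤ j - i by omega)) hv
  rw [one_smul] at h1
  rwa [sub_add_cancel] at h1

theorem VF_LF (D : Dat δ μ g h M m e) {j : ℤ} {v : W4 (KG μ)}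
    (hv : v ∈ VF μ δ M.adjugate m j) :
    v.1 ∈ LF μ (j + m + 2) ∧ ∀ i, v.2 i ∈ LF μ (j + m) := by
  obtain ⟨h1, h2⟩ := hv
  constructor
  · rcases (mem_V1 D).mp h1 with h0 | ⟨n, f', hn, h1, h2, h3⟩
    · rw [h0]; exact zero_mem _
    · rw [← h3, ← hn]
      exact ev_mem μ h1
  · intro i
    rcases (mem_V2 D).mp h2 with h0 | ⟨n, a, hn, h1, h2, h3⟩
    · rw [h0]; exact zero_mem _
    · rw [← h3 i, ← hn]
      exact ev_mem μ (h1 i)

theorem delta_mem (μ δ : P3) : δ ∈ Imd μ δ := Ideal.subset_span (by simp)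

theorem mu_mem (μ δ : P3) : μ ∈ Imd μ δ := Ideal.subset_span (by simp)

theorem VF_fst (D : Dat δ μ g h M m e) {j : ℤ} {c : KG μ} (hc : c ∈ LF μ (j + m - 4)) :
    (ev μ δ * c, 0) ∈ VF μ δ M.adjugate m j := by
  refine ⟨?_, zero_mem _⟩
  rcases mem_LF hc with rfl | ⟨k, f, hk, hf, rfl⟩
  · change ev μ δ * 0 ∈ V1 μ δ m j
    rw [mul_zero]; exact zero_mem _
  refine (mem_V1 D).mpr (Or.inr ⟨6 + k, δ * f, by push_cast; omega, D.hδ.mul hf, ?_,
    map_mul _ _ _⟩)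
  rw [pow_two, mul_assoc]
  exact Ideal.mul_mem_right _ _ (delta_mem μ δ)

theorem MG_mulVec (μ : P3) (M : Matrix (Fin 3) (Fin 3) P3) (f : Fin 3 → P3) :
    (MG μ M).mulVec (fun i => ev μ (f i)) = fun i => ev μ (M.mulVec f i) := by
  funext i
  simp only [MG, Matrix.mulVec, dotProduct, Matrix.map_apply, map_sum, map_mul]

theorem MG_adj (μ : P3) (M : Matrix (Fin 3) (Fin 3) P3) :
    (MG μ M).adjugate = MG μ M.adjugate := by
  have := (ev μ : P3 →+* KG μ).map_adjugate M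
  exact this.symm

theorem MG_det (μ : P3) (M : Matrix (Fin 3) (Fin 3) P3) :
    (MG μ M).det = ev μ M.det := by
  have := (ev μ : P3 →+* KG μ).map_det M
  exact this.symm

theorem MG_dot (μ : P3) (M : Matrix (Fin 3) (Fin 3) P3) (f f' : Fin 3 → P3) :
    (fun i => ev μ (f i)) ⬝ᵥ (MG μ M).mulVec (fun i => ev μ (f' i)) =
      ev μ (f ⬝ᵥ M.mulVec f') := by
  rw [MG_mulVec]
  simp only [dotProduct, map_sum, map_mul]

theorem VF_snd (D : Dat δ μ g h M m e) {j : ℤ} {b : Fin 3 → KG μ}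
    (hb : ∀ i, b i ∈ LF μ (j + m - 2)) :
    ((0 : KG μ), (MG μ M).mulVec b) ∈ VF μ δ M.adjugate m j := by
  refine ⟨zero_mem _, ?_⟩
  rcases mem_LF_vec hb with rfl | ⟨k, f, hk, hf, hfb⟩
  · change (MG μ M).mulVec 0 ∈ V2 μ δ M.adjugate m j
    rw [Matrix.mulVec_zero]; exact zero_mem _
  refine (mem_V2 D).mpr (Or.inr ⟨2 + k, M.mulVec f, by push_cast; omega, fun i => ?_, ?_,
    fun i => ?_⟩)
  · exact IsHomogeneous.sum _ _ _ fun l _ => (D.hM i l).mul (hf l)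
  · have h1 : M.adjugate.mulVec (M.mulVec f) = δ • f := by
      rw [Matrix.mulVec_mulVec, Matrix.adjugate_mul, D.hMd, Matrix.smul_mulVec, Matrix.one_mulVec]
    rw [h1, dotProduct_smul, smul_eq_mul]
    exact Ideal.mul_mem_right _ _ (delta_mem μ δ)
  · have h1 := congrFun (MG_mulVec μ M f) i
    have h2 : (fun i => ev μ (f i)) = b := funext hfb
    rw [h2] at h1
    exact h1.symm

/-- a form in `(μ, δ)` is `δ` times an element of the right degree on the curve -/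
theorem ev_Imd (D : Dat δ μ g h M m e) {p : P3} {n : ℕ} (hp : p.IsHomogeneous n)
    (h1 : p ∈ Imd μ δ) : ∃ r ∈ LF μ ((n : ℤ) - 6), ev μ δ * r = ev μ p := by
  obtain ⟨t, r, hpr, -, hr⟩ := hom_Imd D.hδ D.cur.hom hp h1
  refine ⟨ev μ r, ?_, ?_⟩
  · rcases hr with rfl | ⟨h6, hr⟩
    · rw [map_zero]; exact zero_mem _
    · have := ev_mem μ hr
      convert this using 2
      omega
  · have h2 : ev μ μ = 0 := (ev_eq_zero D.cur D.cur.hom).mpr dvd_rfl
    rw [hpr, map_add, map_mul, map_mul, h2, zero_mul, zero_add]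

theorem adj_hom3 {M : Matrix (Fin 3) (Fin 3) P3} (hM : ∀ i j, (M i j).IsHomogeneous 2)
    (i j : Fin 3) : (M.adjugate i j).IsHomogeneous 4 := by
  have h1 : ∀ a b c d, (M a b * M c d).IsHomogeneous 4 := fun a b c d => (hM a b).mul (hM c d)
  fin_cases i <;> fin_cases j
  · change (M.adjugate 0 0).IsHomogeneous 4
    rw [Helper72.OS.adj00]; exact (h1 _ _ _ _).sub (h1 _ _ _ _)
  · change (M.adjugate 0 1).IsHomogeneous 4
    rw [Helper72.OS.adj01]; exact (h1 _ _ _ _).sub (h1 _ _ _ _)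
  · change (M.adjugate 0 2).IsHomogeneous 4
    rw [Helper72.OS.adj02]; exact (h1 _ _ _ _).sub (h1 _ _ _ _)
  · change (M.adjugate 1 0).IsHomogeneous 4
    rw [Helper72.OS.adj10]; exact (h1 _ _ _ _).sub (h1 _ _ _ _)
  · change (M.adjugate 1 1).IsHomogeneous 4
    rw [Helper72.OS.adj11]; exact (h1 _ _ _ _).sub (h1 _ _ _ _)
  · change (M.adjugate 1 2).IsHomogeneous 4
    rw [Helper72.OS.adj12]; exact (h1 _ _ _ _).sub (h1 _ _ _ _)
  · change (M.adjugate 2 0).IsHomogeneous 4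
    rw [Helper72.OS.adj20]; exact (h1 _ _ _ _).sub (h1 _ _ _ _)
  · change (M.adjugate 2 1).IsHomogeneous 4
    rw [Helper72.OS.adj21]; exact (h1 _ _ _ _).sub (h1 _ _ _ _)
  · change (M.adjugate 2 2).IsHomogeneous 4
    rw [Helper72.OS.adj22]; exact (h1 _ _ _ _).sub (h1 _ _ _ _)

theorem VF_nb (D : Dat δ μ g h M m e) {i j : ℤ} {v w : W4 (KG μ)}
    (hv : v ∈ VF μ δ M.adjugate m i) (hw : w ∈ VF μ δ M.adjugate m j) :
    ∃ r ∈ LF μ (i + j + 2 * m - 2), ev μ δ * r = nb (MG μ M) v w := by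
  obtain ⟨hv1, hv2⟩ := hv
  obtain ⟨hw1, hw2⟩ := hw
  have e1 : ∃ r ∈ LF μ (i + j + 2 * m - 2), ev μ δ * r = v.1 * w.1 := by
    rcases (mem_V1 D).mp hv1 with h0 | ⟨n, f, hn, h1, h2, h3⟩
    · exact ⟨0, zero_mem _, by rw [h0]; ring⟩
    rcases (mem_V1 D).mp hw1 with h0 | ⟨n', f', hn', h1', h2', h3'⟩
    · exact ⟨0, zero_mem _, by rw [h0]; ring⟩
    obtain ⟨r, hr, hr'⟩ := ev_Imd D (h1.mul h1')
      (mul_mem D.hδ D.hsm D.cur.hom D.not_dvd h1 h1' h2 h2')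
    refine ⟨r, ?_, ?_⟩
    · convert hr using 2
      push_cast
      omega
    · rw [hr', map_mul, h3, h3']
  have e2 : ∃ r ∈ LF μ (i + j + 2 * m - 2),
      ev μ δ * r = v.2 ⬝ᵥ (MG μ M).adjugate.mulVec w.2 := by
    rcases (mem_V2 D).mp hv2 with h0 | ⟨n, f, hn, h1, h2, h3⟩
    · exact ⟨0, zero_mem _, by rw [h0, zero_dotProduct]; ring⟩
    rcases (mem_V2 D).mp hw2 with h0 | ⟨n', f', hn', h1', h2', h3'⟩
    · exact ⟨0, zero_mem _, by rw [h0, Matrix.mulVec_zero, dotProduct_zero]; ring⟩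
    have hhom : (f ⬝ᵥ M.adjugate.mulVec f').IsHomogeneous (n + (4 + n')) := by
      refine IsHomogeneous.sum _ _ _ fun l _ => (h1 l).mul ?_
      exact IsHomogeneous.sum _ _ _ fun l' _ => (adj_hom3 D.hM l l').mul (h1' l')
    obtain ⟨r, hr, hr'⟩ := ev_Imd D hhom
      (dot_mem D.hδ D.hsm D.cur.hom D.not_dvd D.hMs D.hM D.hMd h1 h1' h2 h2')
    refine ⟨r, ?_, ?_⟩
    · convert hr using 2
      push_cast
      omega
    · rw [hr', ← MG_dot, MG_adj]
      have a1 : (fun i => ev μ (f i)) = v.2 := funext h3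
      have a2 : (fun i => ev μ (f' i)) = w.2 := funext h3'
      rw [a1, a2]
  obtain ⟨r1, hr1, hr1'⟩ := e1
  obtain ⟨r2, hr2, hr2'⟩ := e2
  refine ⟨r1 + r2, add_mem hr1 hr2, ?_⟩
  rw [mul_add, hr1', hr2']
  rfl

/-- `X 0` is regular modulo `(μ, δ)` -/
theorem Dat.of_X_pow_mul (D : Dat δ μ g h M m e) {N : ℕ} {p : P3}
    (hp : X 0 ^ N * p ∈ Imd μ δ) : p ∈ Imd μ δ := by
  have h0 : ¬ X 0 ∣ μ := by
    rintro ⟨q, hq⟩
    obtain ⟨z, hz0, hz1, hz2⟩ : ∃ z : Fin 3 → ℂ, z ≠ 0 ∧ z 0 = 0 ∧ eval z μ ≠ 0 :=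
      ⟨![0, 0, 1], fun h => by simpa using congrFun h 2, rfl, D.cur.gp⟩
    apply hz2
    rw [hq, map_mul, eval_X, hz1, zero_mul]
  exact mem_of_X_pow_mul (fun hh => h0 (rh_eq_zero hh)) (rh_rel D.cur.hom h0 D.gpδ) N hp

theorem V1_of_LF (D : Dat δ μ g h M m e) {i n : ℤ} {v : KG μ}
    (hv : v ∈ V1 μ δ m i) (h1 : v ∈ LF μ (n + m + 2)) (hni : n ≤ i) : v ∈ V1 μ δ m n := by
  rcases (mem_V1 D).mp hv with h0 | ⟨k, f, hk, hf, hf2, rfl⟩
  · rw [h0]; exact zero_mem _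
  rcases mem_LF h1 with h0 | ⟨l, f', hl, hf', hff⟩
  · rw [h0]; exact zero_mem _
  refine (mem_V1 D).mpr (Or.inr ⟨l, f', hl, hf', ?_, hff⟩)
  have hle : l ≤ k := by omega
  have h2 : (X 0 ^ (k - l) * f' - f).IsHomogeneous k :=
    (hcast (b := k) ((isHomogeneous_X_pow (R := ℂ) (0 : Fin 3) (k - l)).mul hf') (by omega)).sub hf
  have h3 : μ ∣ X 0 ^ (k - l) * f' - f := by
    rw [← ev_eq_zero D.cur h2, map_sub, map_mul, map_pow, ev_X0, one_pow, one_mul, hff, sub_self]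
  apply D.of_X_pow_mul (N := 2 * (k - l))
  obtain ⟨q, hq⟩ := h3
  have h4 : X 0 ^ (2 * (k - l)) * f' ^ 2 =
      f ^ 2 + μ * (q * (X 0 ^ (k - l) * f' + f)) := by
    have : X 0 ^ (2 * (k - l)) * f' ^ 2 = (X 0 ^ (k - l) * f') ^ 2 := by
      rw [mul_pow, ← pow_mul, mul_comm 2]
    rw [this]
    linear_combination (X 0 ^ (k - l) * f' + f) * hq
  rw [h4]
  exact add_mem hf2 (Ideal.mul_mem_right _ _ (mu_mem μ δ))

theorem V2_of_LF (D : Dat δ μ g h M m e) {i n : ℤ} {v : Fin 3 → KG μ}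
    (hv : v ∈ V2 μ δ M.adjugate m i) (h1 : ∀ k, v k ∈ LF μ (n + m)) (hni : n ≤ i) :
    v ∈ V2 μ δ M.adjugate m n := by
  rcases (mem_V2 D).mp hv with h0 | ⟨k, f, hk, hf, hf2, hfv⟩
  · rw [h0]; exact zero_mem _
  rcases mem_LF_vec h1 with h0 | ⟨l, f', hl, hf', hff⟩
  · rw [h0]; exact zero_mem _
  refine (mem_V2 D).mpr (Or.inr ⟨l, f', hl, hf', ?_, hff⟩)
  have hle : l ≤ k := by omega
  have h2 : ∀ s, (X 0 ^ (k - l) * f' s - f s).IsHomogeneous k := fun s =>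
    (hcast ((isHomogeneous_X_pow (R := ℂ) (0 : Fin 3) (k - l)).mul (hf' s)) (by omega)).sub (hf s)
  have h3 : ∀ s, ∃ q, X 0 ^ (k - l) * f' s - f s = μ * q := by
    intro s
    have : μ ∣ X 0 ^ (k - l) * f' s - f s := by
      rw [← ev_eq_zero D.cur (h2 s), map_sub, map_mul, map_pow, ev_X0, one_pow, one_mul, hff, hfv,
        sub_self]
    exact this
  choose q hq using h3
  apply D.of_X_pow_mul (N := 2 * (k - l))
  have e1 : (X 0 ^ (k - l) : P3) • f' = f + μ • q := by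
    funext s
    simp only [Pi.smul_apply, Pi.add_apply, smul_eq_mul]
    linear_combination hq s
  have h4 : X 0 ^ (2 * (k - l)) * (f' ⬝ᵥ M.adjugate.mulVec f') =
      ((X 0 ^ (k - l) : P3) • f') ⬝ᵥ M.adjugate.mulVec ((X 0 ^ (k - l) : P3) • f') := by
    rw [Matrix.mulVec_smul, smul_dotProduct, dotProduct_smul, smul_eq_mul, smul_eq_mul, ← mul_assoc,
      ← pow_add]
    congr 2
    ring
  rw [h4, e1, Matrix.mulVec_add, add_dotProduct, dotProduct_add, Matrix.mulVec_smul,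
    dotProduct_smul, add_assoc]
  refine add_mem hf2 (add_mem ?_ ?_)
  · rw [smul_eq_mul]
    exact Ideal.mul_mem_right _ _ (mu_mem μ δ)
  · rw [smul_dotProduct, smul_eq_mul]
    exact Ideal.mul_mem_right _ _ (mu_mem μ δ)

theorem VF_of_LF (D : Dat δ μ g h M m e) {i n : ℤ} {v : W4 (KG μ)}
    (hv : v ∈ VF μ δ M.adjugate m i) (h1 : v.1 ∈ LF μ (n + m + 2))
    (h2 : ∀ k, v.2 k ∈ LF μ (n + m)) : v ∈ VF μ δ M.adjugate m n := by
  rcases le_total n i with hni | hni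
  · exact ⟨V1_of_LF D hv.1 h1 hni, V2_of_LF D hv.2 h2 hni⟩
  · exact VF_mono D hni hv

/-- from `VF_of_LF` and `LF_reg` -/
theorem VF_reg (D : Dat δ μ g h M m e) {P : P3} {k : ℕ} (hP : P.IsHomogeneous k)
    (hcz : ∀ z : Fin 3 → ℂ, z ≠ 0 → z 0 = 0 → eval z μ = 0 → eval z P ≠ 0) {i n : ℤ}
    {v : W4 (KG μ)} (hv : v ∈ VF μ δ M.adjugate m i)
    (h : ev μ P • v ∈ VF μ δ M.adjugate m (n + k)) : v ∈ VF μ δ M.adjugate m n := by
  obtain ⟨h1, h2⟩ := VF_LF D hv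
  obtain ⟨h3, h4⟩ := VF_LF D h
  refine VF_of_LF D hv ?_ fun s => ?_
  · refine LF_reg D.cur hP hcz h1 ?_
    have e1 : n + m + 2 + k = n + k + m + 2 := by ring
    rw [e1]
    exact h3
  · refine LF_reg D.cur hP hcz (h2 s) ?_
    have e1 : n + m + k = n + k + m := by ring
    rw [e1]
    exact h4 s

end Pool.Agent.Helper89.OS
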