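import Pool.Agent.Helper89.OS.St.X1

set_option autoImplicit false

/-!
Piece X2.  The filtered parity lemma (unimodular lattices on the projective line with values in
the canonical bundle).

Proof.  `N ≫ k ≫ 0`.  `E = Fil (N+k) / Fil (N-k)` with the form `b(v,w) = (β v w).coeff (2N-1)`; it is
well defined by `hβd` (degree at most `2N-2` if one argument lies in `Fil (N-k)`) and nondegenerate by
`hβp` (if `v ∈ Fil j`, `v ∉ Fil (j-1)`, `N-k < j ≤ N+k`, take `i = 2N+1-j`).  Lagrangians: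
`U₀ = x^N Fil k` (isotropic since `β (x^N a) (x^N b) = X^(2N) β a b`; `x^N` is injective into `E`
because `x^N a ∈ Fil (N-k)` gives `a ∈ Fil (-k) = ⊥`), `U₁ = Fil N`, `U₂ = T ⊓ Fil (N+k)` (images in
`E`).  `dim E = 4 r k` by `hV`.  `U₀` isotropic gives `dim Fil k ≤ 2 r k`, so with `hV'`
`dim Fil j = 2 r j` for large `j`, hence (by `hV`) for all `j ≥ j₁`; `dim U₁ = 2 r k`,
`dim U₂ = 2 r k` by `hT`.  Intersections: `U₀ ⊓ U₁ ≅ Fil 0` (`x^N a ∈ Fil N` iff `a ∈ Fil 0`);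
`U₁ ⊓ U₂ ≅ (T ⊓ Fil N) / (T ⊓ Fil (N-k))`, dimension `r k`; `U₀ ⊓ U₂ ≅ T ⊓ Fil k`, dimension
`r k + τ`: if `x^N a = t + c` with `t ∈ T`, `c ∈ Fil (N-k)`, then for `t' ∈ T ⊓ Fil j₂`
`X^N β a t' = β c t'` has degree `≤ N - k + j₂ - 2 < N`, so `β a t' = 0` and `a ∈ T` by `hTp`.  Now
`lag3`.
-/

namespace Pool.Agent.Helper89.OS

open Module

theorem fr_amb {V : Type*} [AddCommGroup V] [Module ℂ V] {E R C : Submodule ℂ V}
    [FiniteDimensional ℂ E] (hC1 : R ⊓ C = ⊥) (hC2 : R ⊔ C = E)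
    (S : Submodule ℂ V) (hRS : R ≤ S) (hSE : S ≤ E) :
    finrank ℂ S = finrank ℂ R + finrank ℂ (S.comap C.subtype) := by
  have hCE : C ≤ E := hC2 ▸ le_sup_right
  have hRE : R ≤ E := hC2 ▸ le_sup_left
  have : FiniteDimensional ℂ C := Submodule.finiteDimensional_of_le hCE
  have : FiniteDimensional ℂ R := Submodule.finiteDimensional_of_le hRE
  have h1 : finrank ℂ (S.comap C.subtype) = finrank ℂ ↥(C ⊓ S) := by
    rw [← Submodule.map_comap_subtype]
    exact LinearEquiv.finrank_eq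
      (Submodule.equivMapOfInjective C.subtype C.injective_subtype (S.comap C.subtype))
  have h2 : R ⊔ (C ⊓ S) = S := by
    rw [← sup_inf_assoc_of_le C hRS, hC2, inf_eq_right]
    exact hSE
  have : FiniteDimensional ℂ ↥(C ⊓ S) := Submodule.finiteDimensional_of_le inf_le_left
  have h3 := Submodule.finrank_sup_add_finrank_inf_eq R (C ⊓ S)
  have h4 : R ⊓ (C ⊓ S) = ⊥ := by rw [← inf_assoc, hC1, bot_inf_eq]
  rw [h2, h4, finrank_bot] at h3
  rw [h1]
  omega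

theorem compl_amb {V : Type*} [AddCommGroup V] [Module ℂ V] {E R : Submodule ℂ V}
    (hRE : R ≤ E) : ∃ C : Submodule ℂ V, R ⊓ C = ⊥ ∧ R ⊔ C = E := by
  obtain ⟨C', hC'⟩ := Submodule.exists_isCompl R
  refine ⟨C' ⊓ E, ?_, ?_⟩
  · rw [← inf_assoc, hC'.inf_eq_bot, bot_inf_eq]
  · rw [← sup_inf_assoc_of_le C' hRE, hC'.sup_eq_top, top_inf_eq]

theorem lag3_amb {V : Type*} [AddCommGroup V] [Module ℂ V] (b : V →ₗ[ℂ] V →ₗ[ℂ] ℂ)
    (hsym : ∀ x y, b x y = b y x) (E R : Submodule ℂ V) [FiniteDimensional ℂ E]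
    (hRE : R ≤ E) (hR : ∀ x ∈ R, ∀ y ∈ E, b x y = 0)
    (hnd : ∀ x ∈ E, (∀ y ∈ E, b x y = 0) → x ∈ R)
    (U : Fin 3 → Submodule ℂ V) (hUE : ∀ i, U i ≤ E) (hRU : ∀ i, R ≤ U i)
    (hU : ∀ i, ∀ x ∈ U i, ∀ y ∈ U i, b x y = 0)
    (hd : ∀ i, 2 * finrank ℂ (U i) = finrank ℂ E + finrank ℂ R) :
    (finrank ℂ ↥(U 0 ⊓ U 1) + finrank ℂ ↥(U 1 ⊓ U 2) + finrank ℂ ↥(U 0 ⊓ U 2) +
      finrank ℂ (U 0)) % 2 = 0 := by
  obtain ⟨C, hC1, hC2⟩ := compl_amb hRE
  have hCE : C ≤ E := hC2 ▸ le_sup_right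
  have : FiniteDimensional ℂ C := Submodule.finiteDimensional_of_le hCE
  have fr := fr_amb hC1 hC2
  have hC : finrank ℂ E = finrank ℂ R + finrank ℂ C := by
    have h1 := fr E hRE le_rfl
    have h2 : E.comap C.subtype = ⊤ := by
      rw [eq_top_iff]; intro c _; exact hCE c.2
    rw [h2, finrank_top] at h1
    exact h1
  have key := lag3 (b.domRestrict₁₂ C C) (fun x y => hsym x y)
    (fun x hx => by
      have h1 : (x : V) ∈ R := by
        apply hnd x (hCE x.2)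
        intro y hy
        rw [← hC2] at hy
        obtain ⟨p, hp, q, hq, rfl⟩ := Submodule.mem_sup.mp hy
        have h2 : b (x : V) q = 0 := hx ⟨q, hq⟩
        rw [map_add, h2, hsym, hR p hp x (hCE x.2), add_zero]
      have h2 : (x : V) ∈ R ⊓ C := ⟨h1, x.2⟩
      rw [hC1, Submodule.mem_bot] at h2
      exact Subtype.ext h2)
    (fun i => (U i).comap C.subtype)
    (fun i x hx y hy => hU i x hx y hy)
    (fun i => by
      have h1 := fr (U i) (hRU i) (hUE i)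
      have h2 := hd i
      omega)
  have f01 := fr (U 0 ⊓ U 1) (le_inf (hRU 0) (hRU 1)) (inf_le_left.trans (hUE 0))
  have f12 := fr (U 1 ⊓ U 2) (le_inf (hRU 1) (hRU 2)) (inf_le_left.trans (hUE 1))
  have f02 := fr (U 0 ⊓ U 2) (le_inf (hRU 0) (hRU 2)) (inf_le_left.trans (hUE 0))
  have f0 := fr (U 0) (hRU 0) (hUE 0)
  rw [Submodule.comap_inf] at f01 f12 f02
  omega

theorem iso_amb {V : Type*} [AddCommGroup V] [Module ℂ V] (b : V →ₗ[ℂ] V →ₗ[ℂ] ℂ)
    (hsym : ∀ x y, b x y = b y x) (E R : Submodule ℂ V) [FiniteDimensional ℂ E]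
    (hRE : R ≤ E) (hR : ∀ x ∈ R, ∀ y ∈ E, b x y = 0)
    (hnd : ∀ x ∈ E, (∀ y ∈ E, b x y = 0) → x ∈ R)
    (S : Submodule ℂ V) (hSE : S ≤ E) (hRS : R ≤ S)
    (hS : ∀ x ∈ S, ∀ y ∈ S, b x y = 0) :
    2 * finrank ℂ S ≤ finrank ℂ E + finrank ℂ R := by
  obtain ⟨C, hC1, hC2⟩ := compl_amb hRE
  have hCE : C ≤ E := hC2 ▸ le_sup_right
  have : FiniteDimensional ℂ C := Submodule.finiteDimensional_of_le hCE
  have fr := fr_amb hC1 hC2
  have hC : finrank ℂ E = finrank ℂ R + finrank ℂ C := by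
    have h1 := fr E hRE le_rfl
    have h2 : E.comap C.subtype = ⊤ := by
      rw [eq_top_iff]; intro c _; exact hCE c.2
    rw [h2, finrank_top] at h1
    exact h1
  have h1 := fr S hRS hSE
  let B : LinearMap.BilinForm ℂ C := b.domRestrict₁₂ C C
  have hB : B.Nondegenerate := by
    have h0 : ∀ x : C, (∀ y : C, B x y = 0) → x = 0 := by
      intro x hx
      have h1 : (x : V) ∈ R := by
        apply hnd x (hCE x.2)
        intro y hy
        rw [← hC2] at hy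
        obtain ⟨p, hp, q, hq, rfl⟩ := Submodule.mem_sup.mp hy
        have h2 : b (x : V) q = 0 := hx ⟨q, hq⟩
        rw [map_add, h2, hsym, hR p hp x (hCE x.2), add_zero]
      have h2 : (x : V) ∈ R ⊓ C := ⟨h1, x.2⟩
      rw [hC1, Submodule.mem_bot] at h2
      exact Subtype.ext h2
    refine ⟨fun x hx => h0 x hx, fun x hx => h0 x fun y => ?_⟩
    have : b (y : V) x = 0 := hx y
    change b (x : V) y = 0
    rw [hsym]; exact this
  have h2 := LinearMap.BilinForm.finrank_orthogonal hB (S.comap C.subtype)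
  have h3 : S.comap C.subtype ≤ B.orthogonal (S.comap C.subtype) := by
    intro x hx y hy
    exact hS y hy x hx
  have h4 := Submodule.finrank_mono h3
  have h5 : finrank ℂ (S.comap C.subtype) ≤ finrank ℂ C := Submodule.finrank_le _
  omega

/-- version with `hβx` only on the filtered part -/
theorem filt_parity' {V : Type*} [AddCommGroup V] [Module ℂ V] (x : V →ₗ[ℂ] V)
    (Fil : ℤ → Submodule ℂ V) (hmono : Monotone Fil) (hfin : ∀ j, FiniteDimensional ℂ (Fil j))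
    (hx0 : Function.Injective x)
    (hxF : ∀ j, ∀ v ∈ Fil j, x v ∈ Fil (j + 1))
    (hxs : ∀ i j v, v ∈ Fil i → x v ∈ Fil (j + 1) → v ∈ Fil j)
    (j₀ : ℤ) (hbot : Fil j₀ = ⊥)
    (β : V →ₗ[ℂ] V →ₗ[ℂ] Polynomial ℂ) (hsym : ∀ v w, β v w = β w v)
    (hβx : ∀ i j, ∀ v ∈ Fil i, ∀ w ∈ Fil j, β (x v) w = Polynomial.X * β v w)
    (hβd : ∀ i j, ∀ v ∈ Fil i, ∀ w ∈ Fil j, ∀ n : ℕ, i + j - 2 < n → (β v w).coeff n = 0)
    (i₀ : ℤ) (hβp : ∀ j, ∀ v ∈ Fil j, v ∉ Fil (j - 1) → ∀ i, i₀ ≤ i →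
      ∃ w ∈ Fil i, ∃ n : ℕ, (n : ℤ) = i + j - 2 ∧ (β v w).coeff n ≠ 0)
    (T : Submodule ℂ V) (hTx : ∀ v ∈ T, x v ∈ T) (hTT : ∀ v ∈ T, ∀ w ∈ T, β v w = 0)
    (j₂ : ℤ) (hTp : ∀ i, ∀ v ∈ Fil i, (∀ t ∈ T ⊓ Fil j₂, β v t = 0) → v ∈ T)
    (r τ j₁ : ℤ) (hV : ∀ j, j₁ ≤ j → (finrank ℂ (Fil (j + 1)) : ℤ) = finrank ℂ (Fil j) + 2 * r)
    (hV' : ∀ j, j₁ ≤ j → 2 * r * j ≤ finrank ℂ (Fil j))
    (hT : ∀ j, j₁ ≤ j → (finrank ℂ ↥(T ⊓ Fil j) : ℤ) = r * j + τ) :
    (finrank ℂ (Fil 0) : ℤ) % 2 = τ % 2 := by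
  classical
  obtain ⟨k, hk1, hk2, hk3, hk4⟩ : ∃ k : ℕ, j₁ ≤ k ∧ -j₀ ≤ k ∧ j₂ ≤ k ∧ (1 : ℤ) ≤ k :=
    ⟨j₁.toNat + (-j₀).toNat + j₂.toNat + 1, by omega, by omega, by omega, by omega⟩
  obtain ⟨N, hN1, hN2, hN3⟩ : ∃ N : ℕ, j₁ ≤ (N : ℤ) - k ∧ i₀ ≤ (N : ℤ) + 1 - k ∧ (1 : ℤ) ≤ N :=
    ⟨j₁.toNat + i₀.toNat + k + 1, by omega, by omega, by omega⟩
  -- powers of `x`
  have hxF' : ∀ (n : ℕ) (j : ℤ), ∀ v ∈ Fil j, (x ^ n) v ∈ Fil (j + n) := by
    intro n
    induction n with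
    | zero => intro j v hv; simpa using hv
    | succ n ih =>
      intro j v hv
      rw [pow_succ', Module.End.mul_apply]
      have := hxF _ _ (ih j v hv)
      rwa [show j + ((n + 1 : ℕ) : ℤ) = j + n + 1 by push_cast; ring]
  have hxs' : ∀ (n : ℕ) (i j : ℤ), ∀ v ∈ Fil i, (x ^ n) v ∈ Fil (j + n) → v ∈ Fil j := by
    intro n
    induction n with
    | zero => intro i j v hv h; simpa using h
    | succ n ih =>
      intro i j v hv h
      rw [pow_succ', Module.End.mul_apply,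
        show j + ((n + 1 : ℕ) : ℤ) = j + n + 1 by push_cast; ring] at h
      exact ih i j v hv (hxs _ _ _ (hxF' n i v hv) h)
  have hinj : ∀ n : ℕ, Function.Injective (x ^ n) := by
    intro n
    induction n with
    | zero => intro a b h; simpa using h
    | succ n ih =>
      intro a b h
      rw [pow_succ', Module.End.mul_apply, Module.End.mul_apply] at h
      exact ih (hx0 h)
  have hβn : ∀ (n : ℕ) (i j : ℤ), ∀ v ∈ Fil i, ∀ w ∈ Fil j,
      β ((x ^ n) v) w = Polynomial.X ^ n * β v w := by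
    intro n
    induction n with
    | zero => intro i j v _ w _; simp
    | succ n ih =>
      intro i j v hv w hw
      rw [pow_succ', Module.End.mul_apply, hβx (i + n) j _ (hxF' n i v hv) w hw,
        ih i j v hv w hw, pow_succ']
      ring
  have hTn : ∀ (n : ℕ), ∀ v ∈ T, (x ^ n) v ∈ T := by
    intro n
    induction n with
    | zero => intro v hv; simpa using hv
    | succ n ih =>
      intro v hv
      rw [pow_succ', Module.End.mul_apply]
      exact hTx _ (ih v hv)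
  -- dimensions
  have hF : ∀ (j : ℤ) (n : ℕ), j₁ ≤ j →
      (finrank ℂ (Fil (j + n)) : ℤ) = finrank ℂ (Fil j) + 2 * r * n := by
    intro j n hj
    induction n with
    | zero => rw [Nat.cast_zero, add_zero, mul_zero, add_zero]
    | succ n ih =>
      rw [show j + ((n + 1 : ℕ) : ℤ) = j + n + 1 by push_cast; ring, hV _ (by omega), ih]
      push_cast; ring
  set b : V →ₗ[ℂ] V →ₗ[ℂ] ℂ := β.compr₂ (Polynomial.lcoeff ℂ (2 * N - 1)) with hb
  have hbv : ∀ v w, b v w = (β v w).coeff (2 * N - 1) := fun v w => rfl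
  have hbs : ∀ v w, b v w = b w v := by intro v w; rw [hbv, hbv, hsym]
  have hb0 : ∀ i j : ℤ, i + j ≤ 2 * N → ∀ v ∈ Fil i, ∀ w ∈ Fil j, b v w = 0 := by
    intro i j hij v hv w hw
    rw [hbv]
    apply hβd i j v hv w hw
    omega
  set E : Submodule ℂ V := Fil (N + k) with hE
  set R : Submodule ℂ V := Fil (N - k) with hRdef
  have hRE : R ≤ E := hmono (by omega)
  have hR : ∀ v ∈ R, ∀ w ∈ E, b v w = 0 := hb0 _ _ (by omega)
  have hnd : ∀ v ∈ E, (∀ w ∈ E, b v w = 0) → v ∈ R := by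
    intro v hv h
    by_contra hvR
    obtain ⟨j, hj, hjm⟩ := Int.exists_least_of_bdd (P := fun z => v ∈ Fil z)
      ⟨N - k, fun z hz => by
        by_contra hlt
        exact hvR (hmono (by omega : z ≤ N - k) hz)⟩ ⟨N + k, hv⟩
    have hj1 : (N : ℤ) - k < j := by
      by_contra hlt
      exact hvR (hmono (by omega : j ≤ N - k) hj)
    have hj2 : j ≤ N + k := hjm _ hv
    have hj3 : v ∉ Fil (j - 1) := fun h => by have := hjm _ h; omega
    obtain ⟨w, hw, n, hn, hne⟩ := hβp j v hj hj3 (2 * N + 1 - j) (by omega)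
    apply hne
    have h1 : n = 2 * N - 1 := by omega
    rw [h1]
    exact h w (hmono (by omega) hw)
  set U : Fin 3 → Submodule ℂ V :=
    ![(Fil k).map (x ^ N) ⊔ R, Fil N, (T ⊓ Fil (N + k)) ⊔ R] with hU
  have hU0 : U 0 = (Fil k).map (x ^ N) ⊔ R := rfl
  have hU1 : U 1 = Fil N := rfl
  have hU2 : U 2 = (T ⊓ Fil (N + k)) ⊔ R := rfl
  have hmapE : ∀ j : ℤ, j ≤ k → (Fil j).map (x ^ N) ≤ Fil (j + N) := by
    rintro j hj _ ⟨a, ha, rfl⟩
    exact hxF' N j a ha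
  have hUE : ∀ i, U i ≤ E := by
    intro i
    fin_cases i
    · change U 0 ≤ E
      rw [hU0]
      exact sup_le ((hmapE k le_rfl).trans (hmono (by omega))) hRE
    · change U 1 ≤ E
      rw [hU1]
      exact hmono (by omega)
    · change U 2 ≤ E
      rw [hU2]
      exact sup_le inf_le_right hRE
  have hRU : ∀ i, R ≤ U i := by
    intro i
    fin_cases i
    · change R ≤ U 0
      rw [hU0]
      exact le_sup_right
    · change R ≤ U 1
      rw [hU1]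
      exact hmono (by omega)
    · change R ≤ U 2
      rw [hU2]
      exact le_sup_right
  have hsupiso : ∀ P : Submodule ℂ V, P ≤ E → (∀ v ∈ P, ∀ w ∈ P, b v w = 0) →
      ∀ v ∈ P ⊔ R, ∀ w ∈ P ⊔ R, b v w = 0 := by
    intro P hP hPP v hv w hw
    obtain ⟨p, hp, q, hq, rfl⟩ := Submodule.mem_sup.mp hv
    obtain ⟨p', hp', q', hq', rfl⟩ := Submodule.mem_sup.mp hw
    have h1 := hPP p hp p' hp'
    have h2 := hR q hq (p' + q') (E.add_mem (hP hp') (hRE hq'))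
    have h3 := hR q' hq' p (hP hp)
    rw [map_add b, LinearMap.add_apply, h2, map_add, h1, hbs p q', h3]
    simp
  have hiso : ∀ i, ∀ v ∈ U i, ∀ w ∈ U i, b v w = 0 := by
    intro i
    fin_cases i
    · change ∀ v ∈ U 0, ∀ w ∈ U 0, b v w = 0
      rw [hU0]
      apply hsupiso _ ((hmapE k le_rfl).trans (hmono (by omega)))
      rintro _ ⟨a, ha, rfl⟩ _ ⟨c, hc, rfl⟩
      rw [hbv, hβn N k (k + N) a ha _ (hxF' N k c hc), hsym, hβn N k k c hc a ha,
        ← mul_assoc, ← pow_add, Polynomial.coeff_X_pow_mul', if_neg (by omega)]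
    · change ∀ v ∈ U 1, ∀ w ∈ U 1, b v w = 0
      rw [hU1]
      exact hb0 _ _ (by omega)
    · change ∀ v ∈ U 2, ∀ w ∈ U 2, b v w = 0
      rw [hU2]
      apply hsupiso _ inf_le_right
      intro v hv w hw
      rw [hbv, hTT v hv.1 w hw.1, Polynomial.coeff_zero]
  -- the dimensions
  have hfr : ∀ j : ℤ, j ≤ k → finrank ℂ ↥((Fil j).map (x ^ N) ⊔ R) =
      finrank ℂ (Fil j) + finrank ℂ R := by
    intro j hj
    have h1 := Submodule.finrank_sup_add_finrank_inf_eq ((Fil j).map (x ^ N)) R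
    have h2 : (Fil j).map (x ^ N) ⊓ R = ⊥ := by
      rw [eq_bot_iff]
      rintro _ ⟨⟨a, ha, rfl⟩, h⟩
      have h3 : a ∈ Fil (-k) := hxs' N j (-k) a ha (by rw [neg_add_eq_sub]; exact h)
      have h4 : a ∈ Fil j₀ := hmono (by omega) h3
      rw [hbot, Submodule.mem_bot] at h4
      rw [h4, map_zero]
      exact Submodule.zero_mem _
    have h3 : finrank ℂ ↥((Fil j).map (x ^ N)) = finrank ℂ (Fil j) :=
      (LinearEquiv.finrank_eq (Submodule.equivMapOfInjective (x ^ N) (hinj N) (Fil j))).symm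
    rw [h2, finrank_bot, h3] at h1
    omega
  have hTr : ∀ j : ℤ, (N : ℤ) - k ≤ j → finrank ℂ ↥((T ⊓ Fil j) ⊔ R) + finrank ℂ ↥(T ⊓ R) =
      finrank ℂ ↥(T ⊓ Fil j) + finrank ℂ R := by
    intro j hj
    have : FiniteDimensional ℂ ↥(T ⊓ Fil j) := Submodule.finiteDimensional_of_le inf_le_right
    have h1 := Submodule.finrank_sup_add_finrank_inf_eq (T ⊓ Fil j) R
    have h2 : (T ⊓ Fil j) ⊓ R = T ⊓ R := by
      rw [inf_assoc]
      congr 1
      exact inf_eq_right.mpr (hmono hj)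
    rw [h2] at h1
    exact h1
  have e0 := hfr k le_rfl
  have e2 := hTr (N + k) (by omega)
  have f1 := hF (N - k) k hN1
  have f2 := hF (N - k) (2 * k) hN1
  rw [show (N : ℤ) - k + (k : ℕ) = N by ring] at f1
  rw [show (N : ℤ) - k + ((2 * k : ℕ) : ℤ) = N + k by push_cast; ring] at f2
  have g1 := hT (N - k) hN1
  have g2 := hT (N + k) (by omega)
  have g3 := hT N (by omega)
  have g4 := hT k hk1
  have hle := iso_amb b hbs E R hRE hR hnd (U 0) (hUE 0) (hRU 0) (hiso 0)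
  rw [hU0, e0] at hle
  have hge := hV' k hk1
  have hk : (finrank ℂ (Fil k) : ℤ) = 2 * r * k := by
    apply le_antisymm _ hge
    push_cast at f2
    have : (2 : ℤ) * (finrank ℂ (Fil k) + finrank ℂ R) ≤ finrank ℂ E + finrank ℂ R := by
      exact_mod_cast hle
    rw [hE, hRdef] at this
    linarith
  have hd : ∀ i, 2 * finrank ℂ (U i) = finrank ℂ E + finrank ℂ R := by
    intro i
    fin_cases i
    · change 2 * finrank ℂ (U 0) = _
      rw [hU0, e0]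
      zify
      rw [hk, hE, hRdef, f2]
      push_cast; ring
    · change 2 * finrank ℂ (U 1) = _
      rw [hU1]
      zify
      rw [f1, hE, hRdef, f2]
      push_cast; ring
    · change 2 * finrank ℂ (U 2) = _
      rw [hU2]
      zify
      zify at e2
      push_cast at f2
      rw [hRdef] at e2 ⊢
      rw [hE]
      linear_combination 2 * e2 + 2 * g2 - 2 * g1 - f2
  have key := lag3_amb b hbs E R hRE hR hnd U hUE hRU hiso hd
  have i01 : U 0 ⊓ U 1 = (Fil 0).map (x ^ N) ⊔ R := by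
    rw [hU0, hU1]
    apply le_antisymm
    · rintro v ⟨hv, hv1⟩
      obtain ⟨_, ⟨a, ha, rfl⟩, c, hc, rfl⟩ := Submodule.mem_sup.mp hv
      have h1 : (x ^ N) a ∈ Fil (0 + N) := by
        rw [zero_add]
        have : (x ^ N) a = ((x ^ N) a + c) - c := by abel
        rw [this]
        exact (Fil N).sub_mem hv1 (hmono (by omega) hc)
      exact Submodule.add_mem_sup ⟨a, hxs' N k 0 a ha h1, rfl⟩ hc
    · apply sup_le
      · rintro _ ⟨a, ha, rfl⟩
        refine ⟨Submodule.mem_sup_left ⟨a, hmono (by omega) ha, rfl⟩, ?_⟩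
        have := hxF' N 0 a ha
        rwa [zero_add] at this
      · exact le_inf le_sup_right (hmono (by omega))
  have i12 : U 1 ⊓ U 2 = (T ⊓ Fil N) ⊔ R := by
    rw [hU1, hU2]
    apply le_antisymm
    · rintro v ⟨hv1, hv⟩
      obtain ⟨t, ht, c, hc, rfl⟩ := Submodule.mem_sup.mp hv
      refine Submodule.add_mem_sup ⟨ht.1, ?_⟩ hc
      have : t = (t + c) - c := by abel
      rw [this]
      exact (Fil N).sub_mem hv1 (hmono (by omega) hc)
    · apply sup_le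
      · rintro t ⟨ht, ht'⟩
        exact ⟨ht', Submodule.mem_sup_left ⟨ht, hmono (by omega) ht'⟩⟩
      · exact le_inf (hmono (by omega)) le_sup_right
  have i02 : U 0 ⊓ U 2 = (T ⊓ Fil k).map (x ^ N) ⊔ R := by
    rw [hU0, hU2]
    apply le_antisymm
    · rintro v ⟨hv, hv2⟩
      obtain ⟨_, ⟨a, ha, rfl⟩, c, hc, rfl⟩ := Submodule.mem_sup.mp hv
      obtain ⟨t, ht, c', hc', htc⟩ := Submodule.mem_sup.mp hv2
      refine Submodule.add_mem_sup ⟨a, ⟨hTp k a ha ?_, ha⟩, rfl⟩ hc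
      intro t' ht'
      have h1 : (x ^ N) a = t + (c' - c) := by
        rw [← add_sub_assoc, htc]; abel
      have h2 : Polynomial.X ^ N * β a t' = β (c' - c) t' := by
        rw [← hβn N k j₂ a ha t' ht'.2, h1, map_add, LinearMap.add_apply,
          hTT t ht.1 t' ht'.1, zero_add]
      ext n
      have h3 : (β (c' - c) t').coeff (n + N) = 0 := by
        apply hβd (N - k) j₂ (c' - c) (R.sub_mem hc' hc) t' ht'.2
        push_cast
        omega
      rw [← h2, Polynomial.coeff_X_pow_mul] at h3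
      simpa using h3
    · apply sup_le
      · rintro _ ⟨a, ⟨haT, ha⟩, rfl⟩
        refine ⟨Submodule.mem_sup_left ⟨a, ha, rfl⟩, Submodule.mem_sup_left ⟨hTn N a haT, ?_⟩⟩
        have := hxF' N k a ha
        rwa [add_comm] at this
      · exact le_inf le_sup_right le_sup_right
  have hTk : finrank ℂ ↥((T ⊓ Fil k).map (x ^ N) ⊔ R) =
      finrank ℂ ↥(T ⊓ Fil k) + finrank ℂ R := by
    have : FiniteDimensional ℂ ↥(T ⊓ Fil k) := Submodule.finiteDimensional_of_le inf_le_right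
    have h1 := Submodule.finrank_sup_add_finrank_inf_eq ((T ⊓ Fil k).map (x ^ N)) R
    have h2 : (T ⊓ Fil k).map (x ^ N) ⊓ R = ⊥ := by
      rw [eq_bot_iff]
      rintro _ ⟨⟨a, ha, rfl⟩, h⟩
      have h3 : a ∈ Fil (-k) := hxs' N k (-k) a ha.2 (by rw [neg_add_eq_sub]; exact h)
      have h4 : a ∈ Fil j₀ := hmono (by omega) h3
      rw [hbot, Submodule.mem_bot] at h4
      rw [h4, map_zero]
      exact Submodule.zero_mem _
    have h3 : finrank ℂ ↥((T ⊓ Fil k).map (x ^ N)) = finrank ℂ ↥(T ⊓ Fil k) :=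
      (LinearEquiv.finrank_eq (Submodule.equivMapOfInjective (x ^ N) (hinj N) (T ⊓ Fil k))).symm
    rw [h2, finrank_bot, h3] at h1
    omega
  have e3 := hfr 0 (by omega)
  have e4 := hTr N (by omega)
  rw [i01, i12, i02, hU0, e0, e3, hTk] at key
  zify at key e4
  rw [hk, g4] at key
  rw [g3, g1] at e4
  have e5 : (finrank ℂ ↥((T ⊓ Fil N) ⊔ R) : ℤ) = r * k + finrank ℂ R := by linarith
  rw [e5] at key
  have e6 : (finrank ℂ (Fil 0) : ℤ) + finrank ℂ R + (r * k + finrank ℂ R) +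
      (r * k + τ + finrank ℂ R) + (2 * r * k + finrank ℂ R) =
      2 * (2 * (r * k) + 2 * finrank ℂ R) + (finrank ℂ (Fil 0) + τ) := by ring
  rw [e6] at key
  omega

theorem filt_parity {V : Type*} [AddCommGroup V] [Module ℂ V] (x : V →ₗ[ℂ] V)
    (Fil : ℤ → Submodule ℂ V) (hmono : Monotone Fil) (hfin : ∀ j, FiniteDimensional ℂ (Fil j))
    (hx0 : Function.Injective x)
    (hxF : ∀ j, ∀ v ∈ Fil j, x v ∈ Fil (j + 1))
    (hxs : ∀ i j v, v ∈ Fil i → x v ∈ Fil (j + 1) → v ∈ Fil j)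
    (j₀ : ℤ) (hbot : Fil j₀ = ⊥)
    (β : V →ₗ[ℂ] V →ₗ[ℂ] Polynomial ℂ) (hsym : ∀ v w, β v w = β w v)
    (hβx : ∀ v w, β (x v) w = Polynomial.X * β v w)
    (hβd : ∀ i j, ∀ v ∈ Fil i, ∀ w ∈ Fil j, ∀ n : ℕ, i + j - 2 < n → (β v w).coeff n = 0)
    (i₀ : ℤ) (hβp : ∀ j, ∀ v ∈ Fil j, v ∉ Fil (j - 1) → ∀ i, i₀ ≤ i →
      ∃ w ∈ Fil i, ∃ n : ℕ, (n : ℤ) = i + j - 2 ∧ (β v w).coeff n ≠ 0)
    (T : Submodule ℂ V) (hTx : ∀ v ∈ T, x v ∈ T) (hTT : ∀ v ∈ T, ∀ w ∈ T, β v w = 0)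
    (j₂ : ℤ) (hTp : ∀ i, ∀ v ∈ Fil i, (∀ t ∈ T ⊓ Fil j₂, β v t = 0) → v ∈ T)
    (r τ j₁ : ℤ) (hV : ∀ j, j₁ ≤ j → (finrank ℂ (Fil (j + 1)) : ℤ) = finrank ℂ (Fil j) + 2 * r)
    (hV' : ∀ j, j₁ ≤ j → 2 * r * j ≤ finrank ℂ (Fil j))
    (hT : ∀ j, j₁ ≤ j → (finrank ℂ ↥(T ⊓ Fil j) : ℤ) = r * j + τ) :
    (finrank ℂ (Fil 0) : ℤ) % 2 = τ % 2 := by
  exact filt_parity' x Fil hmono hfin hx0 hxF hxs j₀ hbot β hsym (fun _ _ v _ w _ => hβx v w)
    hβd i₀ hβp T hTx hTT j₂ hTp r τ j₁ hV hV' hT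

end Pool.Agent.Helper89.OS
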