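import Mathlib
import Pool.Agent.Helper82.OS.Core

set_option autoImplicit false

/-!
Piece X14.  Dixon's construction for the two-torsion class `θ ⊗ τ_E`.

`δ = c.disc`, `c₃ = (adj N)_33`, `H = μ c₃` of degree `2m+4`, `EvenOn δ H`.  As in `exists_six`
(pieces Six, with the same dimension count: codimension `≤ 6 (2m+4) / 2` in degree `m+4`) there are
three forms `s_i` of degree `m+4`, independent modulo `δ`, and quartics `A_ij` with
`s_i s_j ≡ H A_ij`.  The `2 × 2` minors of `A` are divisible by `δ`: `adj A = δ M`, `M` quadratic.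
* `det A ≠ 0`: `det A = κ δ²`, `A M = κ δ`, `det M = κ' δ`; scale: this is the second alternative.
* `det A = 0`, `M ≠ 0`: `adj M = 0`, so `M = ρ v v^T`, `A v = 0`; `v` constant contradicts independence, so
  `ρ` constant, `v` a vector of linear forms; choose `j, k` with `v_j, v_k` not proportional, `i` the
  third index: `A_ii A_jj - A_ij² = ρ δ v_k²`, `A_ii A_kk - A_ik² = ρ δ v_j²` show `A_ii ≠ 0` and that `δ` is a
  square modulo every prime factor of `A_ii`; `s_i² ≡ (μ A_ii) c₃`: the class of `N` is split by the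
  splitting form `μ A_ii`, so `N` is isotropic over `ℂ(x,y)` (`iso_of_two_sections`, as in
  `ve_section`) and `Rat4` (`rat4_of_iso`).
* `M = 0`: `A = ρ v v^T`.  `v` constant: impossible; `v` quadratic (`ρ` constant): `s_i² ≡ ρ μ c₃ v_i²`, `N`
  isotropic as before; `v` linear, `ρ` quadratic: `s_i v_j ≡ s_j v_i`, Koszul gives `σ` of degree
  `m+3` with `s_i ≡ σ v_i`, `σ² ≡ H ρ`.  If `ρ = κ l²`: `H` is a square modulo `δ` up to squares, isotropic.
  `ρ` squarefree (a contact conic): the cubics `B` with `B² ∈ (ρ, δ)` form a space of dimension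
  `≥ 10 - 6 = 4 > 3`, so there is one with `B² = ρ C + c δ`, `c ≠ 0` constant: `δ` is a square modulo the
  prime factors of `ρ`; `iso_of_two_sections` with `G = ρ`.
(helper29, note 1263, U1, gives a uniform treatment of all degenerate cases by the quadrics
`r_c = c^T M₀ c`.)
-/

namespace Pool.Agent.Helper89.OS

open MvPolynomial Pool.Agent.Helper29.HP Pool.Agent.Helper16 Pool.Agent.Helper89.VE

theorem exists_verra {c : Cub (I6 → ℂ)} (hP : c.Iso P0)
    (hsm : ∀ z : Fin 3 → ℂ, z ≠ 0 → eval z c.disc = 0 → ∃ i, eval z (pderiv i c.disc) ≠ 0)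
    (μ : P3) (m : ℕ) (hμ : μ.IsHomogeneous (2 * m + 1)) (hμδ : ¬ c.disc ∣ μ)
    (hsp : ∀ π : P3, Irreducible π → π ∣ μ → ∃ g h : P3, ¬ π ∣ h ∧ π ∣ g ^ 2 - c.disc * h ^ 2) :
    c.Rat4 ∨ ∃ (a : Cof) (s : Fin 3 → P3), a.Symm ∧ (MX a).det = c.disc ∧
      (∀ i, (s i).IsHomogeneous (m + 4)) ∧
      ∀ i j, c.disc ∣ s i * s j -
        μ * (c.Nm (X : Fin 3 → P3)).adjugate 3 3 * (MX a).adjugate i j := by
  have hδh : c.disc.IsHomogeneous 6 := c.disc_hom
  have hirr : Irreducible c.disc := irreducible_of_smooth (by norm_num) hδh hsm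
  have hμ0 : μ ≠ 0 := fun h => hμδ (h ▸ dvd_zero _)
  have h33 := adj33_not_dvd hirr
  obtain ⟨n, hn, h33h⟩ := c.adj_hom 3 3
  have hw : wt 3 = 0 := rfl
  rw [hw] at hn
  have hn' : n = 3 := by omega
  subst hn'
  have hμe : EvenOn c.disc μ := evenOn_of_factors hμ0 (by
    intro π hπ hd
    obtain ⟨g, h, h1, h2⟩ := hsp π hπ hd
    obtain ⟨m', hm⟩ := hd
    obtain ⟨e, b, he, -, -⟩ := hom_factor (hm ▸ hμ) (hm ▸ hμ0)
    obtain ⟨d, g', h', hg', hh', h1', h2'⟩ := hom_sq3 he hπ hδh h1 h2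
    exact evenOn_split c.disc π e hδh hirr hsm hπ he
      (fun hd => hμδ (hm ▸ hd.mul_right _)) d g' h' hg' hh' h1' h2')
  have hadj : EvenOn c.disc ((c.Nm (X : Fin 3 → P3)).adjugate 3 3) :=
    evenOn_adj (c.Nm (X : Fin 3 → P3)) (c.Nm_symm _) hsm 3
  have hhe : EvenOn c.disc (μ * (c.Nm (X : Fin 3 → P3)).adjugate 3 3) := evenOn_mul hμe hadj
  have hhh : (μ * (c.Nm (X : Fin 3 → P3)).adjugate 3 3).IsHomogeneous (2 * m + 4) := by
    have h1 : (μ * (c.Nm (X : Fin 3 → P3)).adjugate 3 3).IsHomogeneous (2 * m + 1 + 3) :=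
      hμ.mul h33h
    exact h1
  have hhδ : ¬ c.disc ∣ μ * (c.Nm (X : Fin 3 → P3)).adjugate 3 3 := by
    intro h
    rcases hirr.prime.dvd_or_dvd h with h | h
    · exact hμδ h
    · exact h33 h
  rcases Pool.Agent.Helper82.OS.core c.disc (μ * (c.Nm (X : Fin 3 → P3)).adjugate 3 3) m hδh hsm
    hhh hhδ hhe with ⟨s, G, G1, G2, d, hG, hd, hdG, hs⟩ | ⟨s, G, G1, G2, d, hG, hd, hG0, hdG, hs⟩ |
    ⟨M, s, hM, hM2, hMd, hs, hsM⟩
  · left
    obtain ⟨y, hy, hy0⟩ := Pool.Agent.Helper82.HP.iso_of_two_sections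
      (N := c.Nm (X : Fin 3 → P3)) (c.Nm_symm _) hδh hirr 3 h33h h33 hμ hμδ hsp hG hd hdG hs
    exact rat4_of_iso hP y hy hy0
  · left
    obtain ⟨y, hy, hy0⟩ := Pool.Agent.Helper82.OS.iso_of_two_sections0
      (N := c.Nm (X : Fin 3 → P3)) (c.Nm_symm _) hδh hirr 3 h33h h33 hμ hμδ hsp hG hd hG0 hdG hs
    exact rat4_of_iso hP y hy hy0
  · right
    obtain ⟨a, ha, haM⟩ := Pool.Agent.Helper82.OS.exists_cof M hM hM2
    refine ⟨a, s, ha, by rw [haM]; exact hMd, hs, fun i j => ?_⟩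
    rw [haM]
    exact hsM i j

end Pool.Agent.Helper89.OS
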