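import Mathlib
import Pool.Agent.Helper98.OS.X4

set_option autoImplicit false

/-!
Piece X5.  The conditions imposed by half of the divisor of `μ` on `δ = 0`: at most `3 d`.

Proof as in `exists_six_affine` (piece Six): after a change of coordinates no common zero of `δ`
and `μ` lies on `x₀ = 0`; `exists_sq_ideal` gives an ideal `b ∋ dh2 δ` of `P2` with
`b^2 ⊆ (dh2 δ, dh2 μ)` and `2 dim (P2 / b) ≤ dim P2 / (dh2 δ, dh2 μ) ≤ 6 d`; forms `f` of degree `n`
with `dh2 f ∈ b` have `f^2 ∈ (μ, δ)`.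
-/

namespace Pool.Agent.Helper89.OS

open MvPolynomial Pool.Agent.Helper29.HP Module

theorem codim_IZ {δ μ : P3} {d : ℕ} (hδ : δ.IsHomogeneous 6)
    (hsm : ∀ z : Fin 3 → ℂ, z ≠ 0 → eval z δ = 0 → ∃ i, eval z (pderiv i δ) ≠ 0)
    (hμ : μ.IsHomogeneous d) (hμδ : ¬ δ ∣ μ) (hev : EvenOn δ μ) (n : ℕ) :
    (n + 2).choose 2 ≤ finrank ℂ (IZ μ δ n) + 3 * d := by
  classical
  obtain ⟨a, b, hab⟩ := Helper98.OS.exists_chg hδ hsm hμ hμδ
  have hδa : (Six.lsub a δ).IsHomogeneous 6 := Six.lsub_hom a hδ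
  have hμa : (Six.lsub a μ).IsHomogeneous d := Six.lsub_hom a hμ
  have hirr : Irreducible (Six.lsub a δ) := irreducible_of_smooth (by norm_num) hδa hab.hsm
  have h0 : ¬ X 0 ∣ Six.lsub a δ := Six.not_X_dvd hirr hδa
  have hf : Irreducible (dh2 (Six.lsub a δ)) := irreducible_dh2 hδa hirr h0
  have hfg : ¬ dh2 (Six.lsub a δ) ∣ dh2 (Six.lsub a μ) :=
    fun hd => hab.hnd (dvd_of_dh2_dvd hδa hμa hirr h0 hd)
  have hrel : IsRelPrime (dh2 (Six.lsub a δ)) (dh2 (Six.lsub a μ)) :=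
    hf.isRelPrime_iff_not_dvd.mpr hfg
  obtain ⟨hfin, hdim⟩ := bezout_dim (dh2 (Six.lsub a δ)) (dh2 (Six.lsub a μ)) 6 d
    (Six.totalDegree_dh2_le hδa) (Six.totalDegree_dh2_le hμa) hrel
  obtain ⟨I, hfb, hb2, hbfin, hbdim⟩ := exists_sq_ideal (dh2 (Six.lsub a δ))
    (dh2 (Six.lsub a μ)) hf (smooth_dh2 hδa hab.hsm) hfg
    (by
      intro P hP
      rw [Six.eval_dh2', Six.eval_lsub] at hP
      obtain ⟨α, β, σ, hα, hβ, hd⟩ := hev (a (Fin.cons 1 P)) (by
        intro h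
        have := congrFun (hab.ha0 _ h) 0
        simp at this) hP
      refine ⟨dh2 (Six.lsub a α), dh2 (Six.lsub a β), dh2 (Six.lsub a σ),
        by rwa [Six.eval_dh2', Six.eval_lsub], by rwa [Six.eval_dh2', Six.eval_lsub], ?_⟩
      have := map_dvd dh2 (map_dvd (Six.lsub a) hd)
      rwa [map_sub, map_mul, map_mul, map_pow, map_sub, map_mul, map_mul, map_pow] at this) hfin
  have hI : finrank ℂ (P2 ⧸ I) ≤ 3 * d := by omega
  let L : homogeneousSubmodule (Fin 3) ℂ n →ₗ[ℂ] P2 ⧸ I :=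
    (Ideal.Quotient.mkₐ ℂ I).toLinearMap ∘ₗ dh2.toLinearMap ∘ₗ
      (homogeneousSubmodule (Fin 3) ℂ n).subtype
  have hL : ∀ x : homogeneousSubmodule (Fin 3) ℂ n,
      x ∈ LinearMap.ker L ↔ dh2 (x : P3) ∈ I := by
    intro x
    rw [LinearMap.mem_ker]
    exact Ideal.Quotient.eq_zero_iff_mem
  have h1 := LinearMap.finrank_range_add_finrank_ker L
  have h2 : finrank ℂ (LinearMap.range L) ≤ 3 * d := (Submodule.finrank_le _).trans hI
  have h4 : finrank ℂ (homogeneousSubmodule (Fin 3) ℂ n) = (n + 2).choose 2 :=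
    Helper16.finrank_hom3 _
  have hIZle : IZ μ δ n ≤ homogeneousSubmodule (Fin 3) ℂ n := by
    rw [IZ, Submodule.span_le]
    intro f hf
    exact hf.1
  have hIZfin : FiniteDimensional ℂ (IZ μ δ n) := Submodule.finiteDimensional_of_le hIZle
  let Φ : LinearMap.ker L →ₗ[ℂ] IZ μ δ n :=
    LinearMap.codRestrict (IZ μ δ n)
      ((Six.lsub b).toLinearMap ∘ₗ (homogeneousSubmodule (Fin 3) ℂ n).subtype ∘ₗ
        (LinearMap.ker L).subtype) (by
      rintro ⟨x, hx⟩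
      have hx1 : dh2 (x : P3) ∈ I := (hL x).1 hx
      have hxh : (x : P3).IsHomogeneous n := x.2
      change Six.lsub b (x : P3) ∈ IZ μ δ n
      refine Submodule.subset_span ⟨Six.lsub_hom b hxh, ?_⟩
      have h5 : (x : P3) ^ 2 ∈ Imd (Six.lsub a μ) (Six.lsub a δ) := by
        refine Helper98.OS.mem_of_dh2 hδa hab.hsm hμa hab.hinf (hxh.pow 2) ?_
        rw [map_pow, pow_two]
        exact hb2 _ hx1 _ hx1
      have h6 := Helper98.OS.map_Imd (Six.lsub b) h5
      rwa [hab.hba, hab.hba, map_pow] at h6)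
  have hΦ : Function.Injective Φ := by
    intro x y hxy
    have h7 : Six.lsub b ((x : homogeneousSubmodule (Fin 3) ℂ n) : P3) =
        Six.lsub b ((y : homogeneousSubmodule (Fin 3) ℂ n) : P3) := congrArg Subtype.val hxy
    have h8 := congrArg (Six.lsub a) h7
    rw [hab.hab, hab.hab] at h8
    exact Subtype.ext (Subtype.ext h8)
  have h9 := LinearMap.finrank_le_finrank_of_injective hΦ
  omega

end Pool.Agent.Helper89.OS
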