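import Mathlib
import Pool.Agent.Helper89.OS.St.X6
import Pool.Agent.Helper29.OS.DetNU
import Pool.Agent.Helper29.HP.Main
import Pool.Agent.Helper89.OS.St.X5

namespace Pool.Agent.Helper29.HP.Six
end Pool.Agent.Helper29.HP.Six

set_option autoImplicit false

/-!
Piece X6c.  Dimensions of `VF`.

`codim_IA`: choose a constant vector `c` with `c ⬝ A(z) c ≠ 0` at the (finitely many) common zeros
`z` of `μ` and `δ` (`A(z)` is symmetric of rank one there: `A(z) = 0` would make `δ` singular).  Then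
`a ∈ IA_n ↔ c ⬝ A a ∈ IZ_(n+4)`: `δ ∣ (c ⬝ A a)^2 - (c ⬝ A c)(a ⬝ A a)`, and `c ⬝ A c` is regular modulo
`(μ, δ)` (three forms without common zero; if one wants to avoid it: apply `sq_mem`-like reasoning on
the affine smooth curve, where `c ⬝ A c` is a unit modulo `μ`).  So the codimension of `IA_n` in
triples of forms of degree `n` is at most that of `IZ_(n+4)`, i.e. `≤ 3 (2m+1)`.

`VF_dims`: `P_j = LF (j+m+2) × (LF (j+m))^3` contains `VF j` with codimension `κ_j ≤ 6 (2m+1)`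
(the kernel `μ R` of `ev` lies in `IZ`, `IA`), and `κ_j` is nondecreasing because
`P_j ⊓ VF (j+1) = VF j` (`VF_of_LF`); so it is eventually constant.  Now `finrank_LF`.
-/

namespace Pool.Agent.Helper89.OS

open MvPolynomial Pool.Agent.Helper29.HP Pool.Agent.Helper29.HP.Six Module

variable {δ μ g h : P3} {M : Matrix (Fin 3) (Fin 3) P3} {m e : ℕ}

namespace X6c

theorem finite_zeros {f h : P2} (hfin : FiniteDimensional ℂ (P2 ⧸ Ideal.span {f, h})) :
    {P : Fin 2 → ℂ | eval P f = 0 ∧ eval P h = 0}.Finite := by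
  let R := P2 ⧸ Ideal.span {f, h}
  have hint : ∀ i : Fin 2, IsIntegral ℂ (Ideal.Quotient.mk (Ideal.span {f, h}) (X i) : R) :=
    fun i => Algebra.IsIntegral.isIntegral _
  have h1 : ∀ (P : Fin 2 → ℂ), eval P f = 0 → eval P h = 0 → ∀ i,
      P i ∈ (minpoly ℂ (Ideal.Quotient.mk (Ideal.span {f, h}) (X i) : R)).rootSet ℂ := by
    intro P hf hh i
    let φ : R →ₐ[ℂ] ℂ := Ideal.Quotient.liftₐ (Ideal.span {f, h}) (aeval P) (by
      intro a ha
      have h2 : Ideal.span {f, h} ≤ RingHom.ker (aeval P : P2 →ₐ[ℂ] ℂ) := by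
        rw [Ideal.span_le]
        intro x hx
        rcases hx with rfl | rfl
        · exact hf
        · exact hh
      exact h2 ha)
    rw [Polynomial.mem_rootSet]
    refine ⟨minpoly.ne_zero (hint i), ?_⟩
    have h3 : φ (Ideal.Quotient.mk (Ideal.span {f, h}) (X i)) = P i := by
      change aeval P (X i) = P i
      exact aeval_X _ _
    rw [← h3, Polynomial.aeval_algHom_apply, minpoly.aeval, map_zero]
  refine Set.Finite.subset (Set.Finite.pi' (fun i : Fin 2 =>
    (minpoly ℂ (Ideal.Quotient.mk (Ideal.span {f, h}) (X i) : R)).rootSet_finite ℂ)) ?_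
  rintro P ⟨hf, hh⟩ i
  exact h1 P hf hh i

theorem exists_vec (S : Finset (Fin 2 → ℂ)) (A : (Fin 2 → ℂ) → Matrix (Fin 3) (Fin 3) ℂ)
    (hA : ∀ z ∈ S, ∃ i, A z i i ≠ 0) :
    ∃ c : Fin 3 → ℂ, ∀ z ∈ S, c ⬝ᵥ (A z).mulVec c ≠ 0 := by
  let q : (Fin 2 → ℂ) → P3 := fun z => ∑ i, ∑ j, C (A z i j) * (X i * X j)
  have hq : ∀ z c, eval c (q z) = c ⬝ᵥ (A z).mulVec c := by
    intro z c
    simp only [q, map_sum, map_mul, eval_C, eval_X, dotProduct, Matrix.mulVec, Finset.mul_sum]
    refine Finset.sum_congr rfl fun i _ => Finset.sum_congr rfl fun j _ => by ring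
  have hne : ∀ z ∈ S, q z ≠ 0 := by
    intro z hz h0
    obtain ⟨i, hi⟩ := hA z hz
    apply hi
    have h1 := hq z (Pi.single i 1)
    rw [h0, map_zero] at h1
    have h2 : (Pi.single i 1 : Fin 3 → ℂ) ⬝ᵥ (A z).mulVec (Pi.single i 1) = A z i i := by
      rw [Matrix.mulVec_single_one, single_one_dotProduct]
      rfl
    rw [← h2, ← h1]
  have hprod : ∏ z ∈ S, q z ≠ 0 := Finset.prod_ne_zero_iff.mpr hne
  obtain ⟨c, hc⟩ : ∃ c, eval c (∏ z ∈ S, q z) ≠ 0 := by
    by_contra hcon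
    push Not at hcon
    apply hprod
    apply MvPolynomial.funext
    intro c
    rw [hcon c, map_zero]
  refine ⟨c, fun z hz => ?_⟩
  rw [← hq]
  rw [map_prod] at hc
  exact Finset.prod_ne_zero_iff.mp hc z hz

theorem span_top {f h q : P2}
    (hno : ∀ P, eval P f = 0 → eval P h = 0 → eval P q ≠ 0) :
    ∃ a b c : P2, a * f + b * h + c * q = 1 := by
  have htop : Ideal.span {f, h, q} = (⊤ : Ideal P2) := by
    have h1 : zeroLocus ℂ (Ideal.span {f, h, q} : Ideal P2) = ∅ := by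
      rw [Set.eq_empty_iff_forall_notMem]
      intro P hP
      rw [mem_zeroLocus_iff] at hP
      have a1 := hP f (Ideal.subset_span (by simp))
      have a2 := hP h (Ideal.subset_span (by simp))
      have a3 := hP q (Ideal.subset_span (by simp))
      exact hno P a1 a2 a3
    have h2 : (1 : P2) ∈ (Ideal.span {f, h, q} : Ideal P2).radical := by
      rw [← vanishingIdeal_zeroLocus_eq_radical (K := ℂ), h1, mem_vanishingIdeal_iff]
      intro x hx
      exact absurd hx (Set.notMem_empty x)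
    rw [Ideal.mem_radical_iff] at h2
    obtain ⟨n, hn⟩ := h2
    rw [one_pow] at hn
    exact (Ideal.eq_top_iff_one _).mpr hn
  have h1 : (1 : P2) ∈ Ideal.span {f, h, q} := by rw [htop]; exact Submodule.mem_top
  rw [Ideal.mem_span_insert] at h1
  obtain ⟨a, z, hz, h2⟩ := h1
  rw [Ideal.mem_span_pair] at hz
  obtain ⟨b, c, hbc⟩ := hz
  exact ⟨a, b, c, by rw [h2, ← hbc]; ring⟩

theorem gram {R : Type*} [CommRing R] (M : Matrix (Fin 3) (Fin 3) R) (hM : M.IsSymm)
    (v a : Fin 3 → R) : (v ⬝ᵥ M.adjugate.mulVec a) ^ 2 =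
      (v ⬝ᵥ M.adjugate.mulVec v) * (a ⬝ᵥ M.adjugate.mulVec a) -
        M.det * (crossProduct v a ⬝ᵥ M.mulVec (crossProduct v a)) := by
  have h10 : M 1 0 = M 0 1 := hM.apply 0 1
  have h20 : M 2 0 = M 0 2 := hM.apply 0 2
  have h21 : M 2 1 = M 1 2 := hM.apply 1 2
  simp only [Helper72.OS.dot3, Helper72.OS.mulVec3, Helper72.OS.cross0, Helper72.OS.cross1,
    Helper72.OS.cross2, Helper72.OS.adj00, Helper72.OS.adj01, Helper72.OS.adj02,
    Helper72.OS.adj10, Helper72.OS.adj11, Helper72.OS.adj12, Helper72.OS.adj20,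
    Helper72.OS.adj21, Helper72.OS.adj22, Matrix.det_fin_three, h10, h20, h21]
  ring

end X6c

open X6c in
theorem codim_IA (D : Dat δ μ g h M m e) (n : ℕ) :
    3 * (n + 2).choose 2 ≤ finrank ℂ (IA μ δ M.adjugate n) + 3 * (2 * m + 1) := by
  classical
  have hirr := D.irr
  have h0 : ¬ X 0 ∣ δ := not_X_dvd hirr D.hδ
  have hf : Irreducible (dh2 δ) := irreducible_dh2 D.hδ hirr h0
  have hfg : ¬ dh2 δ ∣ dh2 μ := fun hd => D.not_dvd (dvd_of_dh2_dvd D.hδ D.cur.hom hirr h0 hd)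
  have hrel : IsRelPrime (dh2 δ) (dh2 μ) := hf.isRelPrime_iff_not_dvd.mpr hfg
  obtain ⟨hfin, hdim⟩ := bezout_dim (dh2 δ) (dh2 μ) 6 (2 * m + 1) (Six.totalDegree_dh2_le D.hδ)
    (Six.totalDegree_dh2_le D.cur.hom) hrel
  have hne1 : ∀ P : Fin 2 → ℂ, (Fin.cons 1 P : Fin 3 → ℂ) ≠ 0 := by
    intro P h
    have := congrFun h 0
    simp at this
  obtain ⟨b, hfb, hb2, hbfin, hbdim⟩ := exists_sq_ideal (dh2 δ) (dh2 μ) hf
    (smooth_dh2 D.hδ D.hsm) hfg
    (by
      intro P hP
      rw [eval_dh2'] at hP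
      obtain ⟨α, β, σ, hα, hβ, hd⟩ := D.evenOn (Fin.cons 1 P) (hne1 P) hP
      refine ⟨dh2 α, dh2 β, dh2 σ, by rwa [eval_dh2'], by rwa [eval_dh2'], ?_⟩
      have := map_dvd dh2 hd
      rwa [map_sub, map_mul, map_mul, map_pow] at this) hfin
  -- a good vector
  have hSf := finite_zeros hfin
  obtain ⟨c, hc⟩ := exists_vec hSf.toFinset
    (fun P => M.adjugate.map (eval (Fin.cons 1 P : Fin 3 → ℂ))) (by
      intro P hP
      rw [Set.Finite.mem_toFinset] at hP
      obtain ⟨hP1, hP2⟩ := hP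
      rw [eval_dh2'] at hP1 hP2
      by_contra hcon
      push Not at hcon
      simp only [Matrix.map_apply] at hcon
      obtain ⟨i, hi⟩ := D.hsm _ (hne1 P) hP1
      apply hi
      have hA : ∀ i j, eval (Fin.cons 1 P : Fin 3 → ℂ) (M.adjugate i j) = 0 := by
        intro i j
        have h1 := det_dvd_adj M i i j j
        have hs : M.adjugate j i = M.adjugate i j := by
          have h2 : M.adjugate.transpose = M.adjugate := by
            rw [Matrix.adjugate_transpose, D.hMs]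
          exact (congrFun (congrFun h2 i) j)
        rw [D.hMd, hs] at h1
        obtain ⟨q, hq⟩ := h1
        have h2 := congrArg (eval (Fin.cons 1 P : Fin 3 → ℂ)) hq
        rw [map_sub, map_mul, map_mul, map_mul, hcon i, hP1] at h2
        have h3 : eval (Fin.cons 1 P : Fin 3 → ℂ) (M.adjugate i j) ^ 2 = 0 := by
          linear_combination -h2
        exact pow_eq_zero_iff (two_ne_zero) |>.mp h3
      rw [← D.hMd, Helper29.OS.pderiv_det3]
      simp only [map_sum, map_mul, hA, zero_mul, Finset.sum_const_zero])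
  -- the unit
  set v : Fin 3 → P3 := fun i => C (c i) with hv
  obtain ⟨u1, u2, u3, hu⟩ := span_top (f := dh2 δ) (h := dh2 μ)
    (q := dh2 (v ⬝ᵥ M.adjugate.mulVec v)) (by
      intro P hP1 hP2
      have h1 := hc P (by
        rw [Set.Finite.mem_toFinset]
        exact ⟨hP1, hP2⟩)
      rw [eval_dh2']
      convert h1 using 1
      simp only [hv, dotProduct, Matrix.mulVec, map_sum, map_mul, eval_C, Matrix.map_apply])
  -- the linear map
  let L : (Fin 3 → P3) →ₗ[ℂ] P3 :=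
    { toFun := fun a => v ⬝ᵥ M.adjugate.mulVec a
      map_add' := fun a a' => by rw [Matrix.mulVec_add, dotProduct_add]
      map_smul' := fun t a => by
        rw [Matrix.mulVec_smul, dotProduct_smul, RingHom.id_apply] }
  let ι : (Fin 3 → homogeneousSubmodule (Fin 3) ℂ n) →ₗ[ℂ] (Fin 3 → P3) :=
    (homogeneousSubmodule (Fin 3) ℂ n).subtype.compLeft (Fin 3)
  let φ : (Fin 3 → homogeneousSubmodule (Fin 3) ℂ n) →ₗ[ℂ] (P2 ⧸ b) :=
    (b.restrictScalars ℂ).mkQ ∘ₗ dh2.toLinearMap ∘ₗ L ∘ₗ ι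
  have hker : (LinearMap.ker φ).map ι ≤ IA μ δ M.adjugate n := by
    rintro _ ⟨a, ha, rfl⟩
    have hab : dh2 (v ⬝ᵥ M.adjugate.mulVec (ι a)) ∈ b := by
      have h1 : φ a = 0 := ha
      exact (Submodule.Quotient.mk_eq_zero (b.restrictScalars ℂ)).mp h1
    have hah : ∀ i, (ι a i).IsHomogeneous n := fun i => (a i).2
    rw [mem_IA D.hδ D.hsm D.cur.hom D.not_dvd D.hMs D.hM D.hMd]
    refine ⟨hah, ?_⟩
    set p := ι a ⬝ᵥ M.adjugate.mulVec (ι a) with hp
    have hhom : p.IsHomogeneous (n + (4 + n)) := by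
      refine IsHomogeneous.sum _ _ _ fun l _ => (hah l).mul ?_
      exact IsHomogeneous.sum _ _ _ fun l' _ => (adj_hom3 D.hM l l').mul (hah l')
    have h1 := gram M D.hMs v (ι a)
    rw [D.hMd] at h1
    have h2 := congrArg dh2 h1
    rw [map_pow, map_sub, map_mul, map_mul] at h2
    have h3 := hb2 _ hab _ hab
    rw [← pow_two, h2] at h3
    have h4 : dh2 p ∈ Ideal.span {dh2 δ, dh2 μ} := by
      have hf' : dh2 δ ∈ (Ideal.span {dh2 δ, dh2 μ} : Ideal P2) := Ideal.subset_span (by simp)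
      have hh' : dh2 μ ∈ (Ideal.span {dh2 δ, dh2 μ} : Ideal P2) := Ideal.subset_span (by simp)
      have h5 : dh2 p = (u1 * dh2 p + u3 * dh2 (crossProduct v (ι a) ⬝ᵥ
          M.mulVec (crossProduct v (ι a)))) * dh2 δ + (u2 * dh2 p) * dh2 μ +
          u3 * (dh2 (v ⬝ᵥ M.adjugate.mulVec v) * dh2 p - dh2 δ * dh2 (crossProduct v (ι a) ⬝ᵥ
          M.mulVec (crossProduct v (ι a)))) := by
        linear_combination (-dh2 p) * hu
      rw [h5]
      exact add_mem (add_mem (Ideal.mul_mem_left _ _ hf') (Ideal.mul_mem_left _ _ hh'))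
        (Ideal.mul_mem_left _ _ h3)
    obtain ⟨N, hN⟩ := mem_of_dh2_mem D.hδ D.cur.hom hhom h4
    rw [Set.pair_comm] at hN
    exact D.of_X_pow_mul hN
  have hι : Function.Injective ι := by
    intro x y hxy
    funext i
    exact Subtype.ext (congrFun hxy i)
  have e1 : finrank ℂ (LinearMap.ker φ) ≤ finrank ℂ (IA μ δ M.adjugate n) := by
    rw [(Submodule.equivMapOfInjective ι hι (LinearMap.ker φ)).finrank_eq]
    exact Submodule.finrank_mono hker
  have e2 := LinearMap.finrank_range_add_finrank_ker φ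
  have e3 : finrank ℂ (Fin 3 → homogeneousSubmodule (Fin 3) ℂ n) = 3 * (n + 2).choose 2 := by
    rw [finrank_pi_fintype, Finset.sum_const, Helper16.finrank_hom3]
    simp
  have e4 : finrank ℂ (LinearMap.range φ) ≤ finrank ℂ (P2 ⧸ b) := Submodule.finrank_le _
  rw [e3] at e2
  omega

namespace X6c

theorem map_ker {E F : Type*} [AddCommGroup E] [Module ℂ E] [AddCommGroup F] [Module ℂ F]
    (φ : E →ₗ[ℂ] F) (A : Submodule ℂ E) [FiniteDimensional ℂ A] :
    finrank ℂ (A.map φ) + finrank ℂ ↥(A ⊓ LinearMap.ker φ) = finrank ℂ A := by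
  have h1 := LinearMap.finrank_range_add_finrank_ker (φ.domRestrict A)
  have h2 : LinearMap.range (φ.domRestrict A) = A.map φ := by
    rw [LinearMap.domRestrict, LinearMap.range_comp, Submodule.range_subtype]
  have h3 : (LinearMap.ker (φ.domRestrict A)).map A.subtype = A ⊓ LinearMap.ker φ := by
    rw [LinearMap.ker_domRestrict, Submodule.map_comap_subtype]
  rw [h2] at h1
  rw [← h3, ← (Submodule.equivMapOfInjective A.subtype A.injective_subtype
    (LinearMap.ker (φ.domRestrict A))).finrank_eq]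
  exact h1

theorem map_codim {E F : Type*} [AddCommGroup E] [Module ℂ E] [AddCommGroup F] [Module ℂ F]
    (φ : E →ₗ[ℂ] F) (A B : Submodule ℂ E) (hAB : A ≤ B) [FiniteDimensional ℂ A]
    [FiniteDimensional ℂ B] :
    finrank ℂ (B.map φ) + finrank ℂ A ≤ finrank ℂ (A.map φ) + finrank ℂ B := by
  have h1 := map_ker φ A
  have h2 := map_ker φ B
  have h3 : finrank ℂ ↥(A ⊓ LinearMap.ker φ) ≤ finrank ℂ ↥(B ⊓ LinearMap.ker φ) := by
    have : FiniteDimensional ℂ ↥(B ⊓ LinearMap.ker φ) :=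
      Submodule.finiteDimensional_of_le inf_le_left
    exact Submodule.finrank_mono (inf_le_inf_right _ hAB)
  omega

theorem eventually_const (f : ℤ → ℤ) (B : ℤ) (h0 : ∀ j, f j ≤ f (j + 1)) (hB : ∀ j, f j ≤ B) :
    ∃ j₁ : ℤ, ∀ j, j₁ ≤ j → f j = f j₁ := by
  classical
  have hmono : Monotone f := monotone_int_of_le_succ h0
  have hex : ∃ n : ℕ, ∃ j : ℤ, B - f j = n :=
    ⟨(B - f 0).toNat, 0, (Int.toNat_of_nonneg (by have := hB 0; omega)).symm⟩
  obtain ⟨j₁, hj₁⟩ := Nat.find_spec hex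
  refine ⟨j₁, fun j hj => ?_⟩
  have h1 := hmono hj
  have h2 : ¬ (B - f j).toNat < Nat.find hex := fun h =>
    Nat.find_min hex h ⟨j, (Int.toNat_of_nonneg (by have := hB j; omega)).symm⟩
  have h3 := hB j
  omega

end X6c

/-- ambient filtered space -/
noncomputable def PF (μ : P3) (m : ℕ) (j : ℤ) : Submodule ℂ (W4 (KG μ)) :=
  (LF μ (j + m + 2)).prod (Submodule.pi Set.univ (fun _ => LF μ (j + m)))

theorem finrank_prod' {E F : Type*} [AddCommGroup E] [Module ℂ E] [AddCommGroup F] [Module ℂ F]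
    (A : Submodule ℂ E) (B : Submodule ℂ F) [FiniteDimensional ℂ A] [FiniteDimensional ℂ B] :
    finrank ℂ (A.prod B) = finrank ℂ A + finrank ℂ B := by
  have e : (A.prod B) ≃ₗ[ℂ] (A × B) :=
    { toFun := fun x => (⟨x.1.1, x.2.1⟩, ⟨x.1.2, x.2.2⟩)
      invFun := fun x => ⟨(x.1.1, x.2.1), ⟨x.1.2, x.2.2⟩⟩
      map_add' := fun x y => rfl
      map_smul' := fun c x => rfl
      left_inv := fun x => rfl
      right_inv := fun x => rfl }
  rw [e.finrank_eq, Module.finrank_prod]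

theorem finrank_pi' {E : Type*} [AddCommGroup E] [Module ℂ E]
    (A : Submodule ℂ E) [FiniteDimensional ℂ A] :
    finrank ℂ (Submodule.pi (Set.univ : Set (Fin 3)) (fun _ => A)) = 3 * finrank ℂ A := by
  have e : (Submodule.pi (Set.univ : Set (Fin 3)) (fun _ => A)) ≃ₗ[ℂ] (Fin 3 → A) :=
    { toFun := fun x i => ⟨x.1 i, x.2 i (Set.mem_univ i)⟩
      invFun := fun x => ⟨fun i => (x i).1, fun i _ => (x i).2⟩
      map_add' := fun x y => rfl
      map_smul' := fun c x => rfl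
      left_inv := fun x => rfl
      right_inv := fun x => rfl }
  rw [e.finrank_eq, finrank_pi_fintype, Finset.sum_const]
  simp

theorem pi_fin {E : Type*} [AddCommGroup E] [Module ℂ E]
    (A : Submodule ℂ E) [FiniteDimensional ℂ A] :
    FiniteDimensional ℂ ↥(Submodule.pi (Set.univ : Set (Fin 3)) (fun _ => A)) := by
  let φ : ↥(Submodule.pi (Set.univ : Set (Fin 3)) (fun _ => A)) →ₗ[ℂ] (Fin 3 → A) :=
    { toFun := fun x i => ⟨x.1 i, x.2 i (Set.mem_univ i)⟩
      map_add' := fun x y => rfl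
      map_smul' := fun c x => rfl }
  apply FiniteDimensional.of_injective φ
  intro x y hxy
  apply Subtype.ext
  funext i
  have h2 := congrFun hxy i
  exact congrArg Subtype.val h2

theorem PF_fin (μ : P3) (m : ℕ) (j : ℤ) : FiniteDimensional ℂ (PF μ m j) := by
  have h1 := LF_fin μ (j + m + 2)
  have h2 := LF_fin μ (j + m)
  refine Module.Finite.iff_fg.mpr (Submodule.FG.prod (Module.Finite.iff_fg.mp h1) ?_)
  exact Module.Finite.iff_fg.mp (pi_fin _)

theorem finrank_PF {μ : P3} {m : ℕ} (hc : Cur μ m) {j : ℤ} (hj : m ≤ j) :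
    (finrank ℂ (PF μ m j) : ℤ) = (2 * m + 1) * (4 * j + 6) := by
  have h1 := LF_fin μ (j + m + 2)
  have h2 := LF_fin μ (j + m)
  have h2' := pi_fin (LF μ (j + m))
  rw [PF, finrank_prod', finrank_pi']
  have h3 := finrank_LF hc (n := j + m + 2) (by omega)
  have h4 := finrank_LF hc (n := j + m) (by omega)
  push_cast
  rw [h3, h4]
  ring

theorem VF_le_PF (D : Dat δ μ g h M m e) (j : ℤ) : VF μ δ M.adjugate m j ≤ PF μ m j := by
  intro v hv
  obtain ⟨h1, h2⟩ := VF_LF D hv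
  exact ⟨h1, fun i _ => h2 i⟩

theorem PF_mono (μ : P3) (m : ℕ) : Monotone (PF μ m) := by
  intro i j hij v hv
  obtain ⟨h1, h2⟩ := hv
  exact ⟨LF_mono μ (by omega) h1, fun k hk => LF_mono μ (by omega) (h2 k hk)⟩

theorem PF_inf (D : Dat δ μ g h M m e) (j : ℤ) :
    PF μ m j ⊓ VF μ δ M.adjugate m (j + 1) = VF μ δ M.adjugate m j := by
  apply le_antisymm
  · rintro v ⟨h1, h2⟩
    exact VF_of_LF D h2 h1.1 (fun k => h1.2 k (Set.mem_univ k))
  · exact le_inf (VF_le_PF D j) (VF_mono D (by omega))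

theorem V1_fin (μ δ : P3) (m : ℕ) (j : ℤ) : FiniteDimensional ℂ (V1 μ δ m j) := by
  have h1 : V1 μ δ m j ≤ (IZ μ δ (j + m + 2).toNat).map (ev μ).toLinearMap := by
    unfold V1
    split_ifs
    · exact le_rfl
    · exact bot_le
  exact Submodule.finiteDimensional_of_le h1

theorem V2_fin (μ δ : P3) (A : Matrix (Fin 3) (Fin 3) P3) (m : ℕ) (j : ℤ) :
    FiniteDimensional ℂ (V2 μ δ A m j) := by
  have h1 : V2 μ δ A m j ≤
      (IA μ δ A (j + m).toNat).map ((ev μ).toLinearMap.compLeft (Fin 3)) := by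
    unfold V2
    split_ifs
    · exact le_rfl
    · exact bot_le
  exact Submodule.finiteDimensional_of_le h1

theorem V1_codim (D : Dat δ μ g h M m e) (j : ℤ) :
    finrank ℂ (LF μ (j + m + 2)) ≤ finrank ℂ (V1 μ δ m j) + 3 * (2 * m + 1) := by
  by_cases h0 : 0 ≤ j + m + 2
  · have h1 := codim_IZ D.hδ D.hsm D.cur.hom D.not_dvd D.evenOn (j + m + 2).toNat
    have := homog_fin (j + m + 2).toNat
    have h2 := X6c.map_codim (ev μ).toLinearMap _ _ (IZ_le μ δ (j + m + 2).toNat)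
    rw [Helper16.finrank_hom3] at h2
    have h8 : V1 μ δ m j = (IZ μ δ (j + m + 2).toNat).map (ev μ).toLinearMap := by
      unfold V1
      rw [if_pos h0]
    have h9 : LF μ (j + m + 2) =
        (homogeneousSubmodule (Fin 3) ℂ (j + m + 2).toNat).map (ev μ).toLinearMap := by
      unfold LF
      rw [if_pos h0]
    rw [h8, h9]
    omega
  · rw [LF_neg μ (by omega), finrank_bot]
    omega

theorem V2_codim (D : Dat δ μ g h M m e) (j : ℤ) :
    3 * finrank ℂ (LF μ (j + m)) ≤ finrank ℂ (V2 μ δ M.adjugate m j) + 3 * (2 * m + 1) := by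
  by_cases h0 : 0 ≤ j + m
  · have h1 := codim_IA D (j + m).toNat
    have hfin := homog_fin (j + m).toNat
    have hfin2 := pi_fin (homogeneousSubmodule (Fin 3) ℂ (j + m).toNat)
    have h2 := X6c.map_codim ((ev μ).toLinearMap.compLeft (Fin 3)) _ _
      (IA_le μ δ M.adjugate (j + m).toNat)
    have h3 := Helper16.finrank_hom3 (j + m).toNat
    have h4 := finrank_pi' (homogeneousSubmodule (Fin 3) ℂ (j + m).toNat)
    have h5 : (Submodule.pi (Set.univ : Set (Fin 3))
        (fun _ => homogeneousSubmodule (Fin 3) ℂ (j + m).toNat)).map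
          ((ev μ).toLinearMap.compLeft (Fin 3)) =
        Submodule.pi (Set.univ : Set (Fin 3)) (fun _ => LF μ (j + m)) := by
      ext v
      simp only [LF, if_pos h0]
      constructor
      · rintro ⟨a, ha, rfl⟩ i hi
        exact ⟨a i, ha i hi, rfl⟩
      · intro hv
        have h6 : ∀ i, ∃ a ∈ homogeneousSubmodule (Fin 3) ℂ (j + m).toNat, ev μ a = v i :=
          fun i => hv i (Set.mem_univ i)
        choose a ha ha' using h6
        exact ⟨a, fun i _ => ha i, funext ha'⟩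
    have h6 := LF_fin μ (j + m)
    have h7 := finrank_pi' (LF μ (j + m))
    rw [h5, h7, h4, h3] at h2
    have h8 : V2 μ δ M.adjugate m j =
        (IA μ δ M.adjugate (j + m).toNat).map ((ev μ).toLinearMap.compLeft (Fin 3)) := by
      unfold V2
      rw [if_pos h0]
    rw [h8]
    omega
  · rw [LF_neg μ (by omega), finrank_bot]
    omega

theorem VF_codim (D : Dat δ μ g h M m e) (j : ℤ) :
    finrank ℂ (PF μ m j) ≤ finrank ℂ (VF μ δ M.adjugate m j) + 6 * (2 * m + 1) := by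
  have h1 := V1_codim D j
  have h2 := V2_codim D j
  have h3 := V1_fin μ δ m j
  have h4 := V2_fin μ δ M.adjugate m j
  have h5 := LF_fin μ (j + m + 2)
  have h6 := LF_fin μ (j + m)
  have h6' := pi_fin (LF μ (j + m))
  rw [VF_eq, PF, finrank_prod', finrank_prod', finrank_pi']
  omega

theorem VF_dims (D : Dat δ μ g h M m e) : ∃ j₁ : ℤ, ∀ j, j₁ ≤ j →
    (finrank ℂ (VF μ δ M.adjugate m (j + 1)) : ℤ) =
      finrank ℂ (VF μ δ M.adjugate m j) + 2 * (2 * (2 * m + 1)) ∧
    2 * (2 * (2 * m + 1)) * j ≤ (finrank ℂ (VF μ δ M.adjugate m j) : ℤ) := by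
  obtain ⟨j₁, hj₁⟩ := X6c.eventually_const
    (fun j => (finrank ℂ (PF μ m j) : ℤ) - finrank ℂ (VF μ δ M.adjugate m j))
    (6 * (2 * m + 1)) (by
      intro j
      have a1 := PF_fin μ m j
      have a2 := PF_fin μ m (j + 1)
      have a3 := VF_fin μ δ M.adjugate m (j + 1)
      have h1 := Submodule.finrank_sup_add_finrank_inf_eq (PF μ m j) (VF μ δ M.adjugate m (j + 1))
      rw [PF_inf D j] at h1
      have h2 : finrank ℂ ↥(PF μ m j ⊔ VF μ δ M.adjugate m (j + 1)) ≤ finrank ℂ (PF μ m (j + 1)) :=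
        Submodule.finrank_mono (sup_le (PF_mono μ m (by omega)) (VF_le_PF D (j + 1)))
      omega) (by
      intro j
      have := VF_codim D j
      omega)
  refine ⟨max j₁ m, fun j hj => ?_⟩
  have h1 := hj₁ j (le_trans (le_max_left _ _) hj)
  have h2 := hj₁ (j + 1) (le_trans (le_trans (le_max_left _ _) hj) (by omega))
  have h3 := finrank_PF D.cur (le_trans (le_max_right _ _) hj)
  have h4 := finrank_PF D.cur (j := j + 1) (le_trans (le_trans (le_max_right _ _) hj) (by omega))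
  have h5 := VF_codim D j
  rw [h3] at h1
  rw [h4] at h2
  constructor
  · linear_combination h1 - h2
  · have h6 : (finrank ℂ (PF μ m j) : ℤ) ≤
        finrank ℂ (VF μ δ M.adjugate m j) + 6 * (2 * m + 1) := by exact_mod_cast h5
    rw [h3] at h6
    linarith

/-- multiples of `μ` of degree `m + 2` are `μ` times forms of degree `1 - m` -/
theorem IZ_ker (D : Dat δ μ g h M m e) :
    finrank ℂ ↥(IZ μ δ (m + 2) ⊓ LinearMap.ker (ev μ).toLinearMap) = (3 - m).choose 2 := by
  have hμ0 := D.cur.irr.ne_zero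
  rcases Nat.lt_or_ge m 2 with hm | hm
  · let φ : homogeneousSubmodule (Fin 3) ℂ (1 - m) →ₗ[ℂ] P3 :=
      (LinearMap.mulLeft ℂ μ) ∘ₗ (homogeneousSubmodule (Fin 3) ℂ (1 - m)).subtype
    have hφ : Function.Injective φ := by
      intro x y hxy
      exact Subtype.ext (mul_left_cancel₀ hμ0 hxy)
    have hr : LinearMap.range φ = IZ μ δ (m + 2) ⊓ LinearMap.ker (ev μ).toLinearMap := by
      ext f
      constructor
      · rintro ⟨x, rfl⟩
        have hx : (x : P3).IsHomogeneous (1 - m) := x.2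
        have h1 : (μ * (x : P3)).IsHomogeneous (m + 2) := hcast (D.cur.hom.mul hx) (by omega)
        refine ⟨(mem_IZ D.hδ D.hsm D.cur.hom D.not_dvd).mpr ⟨h1, ?_⟩, ?_⟩
        · have : (μ * (x : P3)) ^ 2 = μ * (μ * (x : P3) ^ 2) := by ring
          change (μ * (x : P3)) ^ 2 ∈ Imd μ δ
          rw [this]
          exact Ideal.mul_mem_right _ _ (mu_mem μ δ)
        · exact (ev_eq_zero D.cur h1).mpr (dvd_mul_right _ _)
      · rintro ⟨h1, h2⟩
        obtain ⟨h3, -⟩ := (mem_IZ D.hδ D.hsm D.cur.hom D.not_dvd).mp h1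
        have h4 : μ ∣ f := (ev_eq_zero D.cur h3).mp h2
        obtain ⟨q, hq⟩ := h4
        by_cases hf : f = 0
        · exact ⟨0, by rw [hf, map_zero]⟩
        obtain ⟨a, b, ha, hb, hab⟩ := Helper16.hom_factor (p := μ) (q := q) (by rw [← hq]; exact h3)
          (by rw [← hq]; exact hf)
        have ha1 : a = 2 * m + 1 := ha.inj_right D.cur.hom hμ0
        have hb1 : b = 1 - m := by omega
        exact ⟨⟨q, by rw [← hb1]; exact hb⟩, hq.symm⟩
    rw [← hr, LinearMap.finrank_range_of_inj hφ, Helper16.finrank_hom3]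
    congr 1
    omega
  · have h0 : IZ μ δ (m + 2) ⊓ LinearMap.ker (ev μ).toLinearMap = ⊥ := by
      rw [eq_bot_iff]
      rintro f ⟨h1, h2⟩
      obtain ⟨h3, -⟩ := (mem_IZ D.hδ D.hsm D.cur.hom D.not_dvd).mp h1
      have h4 : μ ∣ f := (ev_eq_zero D.cur h3).mp h2
      rw [Submodule.mem_bot]
      exact eq_zero_of_dvd_lt D.cur.hom hμ0 h3 (by omega) h4
    rw [h0, finrank_bot]
    have : 3 - m < 2 := by omega
    exact (Nat.choose_eq_zero_of_lt this).symm

theorem IA_ker (D : Dat δ μ g h M m e) :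
    IA μ δ M.adjugate m ⊓ LinearMap.ker ((ev μ).toLinearMap.compLeft (Fin 3)) = ⊥ := by
  rw [eq_bot_iff]
  rintro f ⟨h1, h2⟩
  obtain ⟨h3, -⟩ := (mem_IA D.hδ D.hsm D.cur.hom D.not_dvd D.hMs D.hM D.hMd).mp h1
  rw [Submodule.mem_bot]
  funext i
  have h4 : μ ∣ f i := (ev_eq_zero D.cur (h3 i)).mp (congrFun h2 i)
  exact eq_zero_of_dvd_lt D.cur.hom D.cur.irr.ne_zero (h3 i) (by omega) h4

theorem VF_zero (D : Dat δ μ g h M m e) :
    finrank ℂ (VF μ δ M.adjugate m 0) + (3 - m).choose 2 =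
      finrank ℂ (IZ μ δ (m + 2)) + finrank ℂ (IA μ δ M.adjugate m) := by
  have h1 := V1_fin μ δ m 0
  have h2 := V2_fin μ δ M.adjugate m 0
  have e1 : V1 μ δ m 0 = (IZ μ δ (m + 2)).map (ev μ).toLinearMap := by
    unfold V1
    rw [if_pos (by omega)]
    have : (0 + (m : ℤ) + 2).toNat = m + 2 := by omega
    rw [this]
  have e2 : V2 μ δ M.adjugate m 0 =
      (IA μ δ M.adjugate m).map ((ev μ).toLinearMap.compLeft (Fin 3)) := by
    unfold V2
    rw [if_pos (by omega)]
    have : (0 + (m : ℤ)).toNat = m := by omega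
    rw [this]
  have h3 := X6c.map_ker (ev μ).toLinearMap (IZ μ δ (m + 2))
  have h4 := X6c.map_ker ((ev μ).toLinearMap.compLeft (Fin 3)) (IA μ δ M.adjugate m)
  rw [IZ_ker D, ← e1] at h3
  rw [IA_ker D, finrank_bot, ← e2] at h4
  rw [VF_eq, finrank_prod']
  omega

end Pool.Agent.Helper89.OS
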