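import Mathlib
import Pool.Agent.Helper89.OS.St.X6c
import Pool.Agent.Helper64.OS.Qf
import Pool.Agent.Helper64.OS.Par

set_option autoImplicit false

/-!
Piece X10.  The filtered lattice `T` and the parity theorem for it.  `K = KG μ` is a field.
`TF j = VF j ⊓ TK`, `TK` a 2-dimensional `K`-subspace of `K^4` (`T_finrank`), totally isotropic and
equal to its orthogonal for `nb` (`T_iso`, `T_perp`).

`TF_growth`: `t_j = dim TF (j+1) - dim TF j` is nondecreasing for all `j` (multiplication by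
`x = ev (X 1)` induces an injection `TF j / TF (j-1) → TF (j+1) / TF j` by `VF_reg` with `P = X 1`, since
`μ(0,0,1) ≠ 0`) and at most `4 (2m+1)` for large `j` (`VF_dims` and the same for `VF / TF`; or simply
because `TF (j+1)/TF j → VF (j+1)/VF j` is injective), so eventually constant, `= t`.  Two
`K`-independent elements `v₁, v₂` of `TF c` (exist: `TK` is the `K`-span of elements of `⋃ TF j`, because
every element of `K^4` is `b⁻¹ v` with `b ∈ ⋃ LF`, `v ∈ ⋃ VF`, by `VF_fst`, `VF_snd`) give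
`dim TF j ≥ 2 dim LF (j-c) ≥ 2 (2m+1) j - const`, so `t ≥ 2 (2m+1)`; two elements of `VF c`
independent modulo `TK` give `dim VF j - dim TF j ≥ 2 (2m+1) j - const`, so `t ≤ 2 (2m+1)`.

`TF_parity`: `filt_parity` with `V = ⋃ VF j` (a subspace of `W4 K`), `x` multiplication by
`ev μ (X 1)`, `β v w = lam (nb v w / δ)` (`VF_nb`, `exists_lam`; `i + j + 2m - 2 - 2m = i + j - 2`),
`hβp`: if `v ∈ VF j`, `v ∉ VF (j-1)` then by `VF_of_LF` some component is not in the smaller `LF`;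
pair with `(δ c, 0)` (`nb/δ = v.1 c`) or `(0, M b)` (`nb/δ = v.2 ⬝ b`).  `hTp`: take `j₂` such that
`TF j₂` spans `TK` over `K`; `β v t = 0` for all `t ∈ TF j₂`.. (to get `nb v t = 0` use `β v (b t) = 0` for
`b ∈ LF`, all in `TF j₃` for a suitable larger `j₃`: choose `j₂` so large that `TF j₂` contains `b t`
for `t` in a `K`-basis of `TK` and `b ∈ LF (2m)`; by the second property of `lam` an element `c ≠ 0` of
`⋃ LF` has `lam (c b) ≠ 0` for some `b ∈ LF (2m)`).  `r = 2 (2m+1)`.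
-/

namespace Pool.Agent.Helper89.OS

open MvPolynomial Pool.Agent.Helper29.HP Module Pool.Agent.Helper64.OS

variable {δ μ g h : P3} {M : Matrix (Fin 3) (Fin 3) P3} {m e : ℕ}

theorem TF_growth (D : Dat δ μ g h M m e) [Fact (Irreducible (psi μ))] (ν : Fin 3 → KG μ)
    (hν0 : ν ≠ 0) (hν : ν ⬝ᵥ (MG μ M).adjugate.mulVec ν = 0) :
    ∃ τ j₁ : ℤ, ∀ j, j₁ ≤ j → (finrank ℂ (TF μ δ M m ν j) : ℤ) = 2 * (2 * m + 1) * j + τ := by
  obtain ⟨c, v, w, hvT, hvc, hwc, hv, hw, -⟩ := TK_vecs D ν hν0 hν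
  obtain ⟨j₁, hj₁⟩ := VF_dims D
  have key := @growth_gen (KG μ) (W4 (KG μ)) AdjoinRoot.instField _ _ _ _ _ (TK μ M ν)
    (ev μ (X 1)) ev_X1_ne (LF μ) (LF_fin μ) (VF μ δ M.adjugate m) (VF_fin μ δ M.adjugate m)
    (VF_mono D) (fun i j b v hb hv => VF_smul D hb hv) (ev_mem μ (isHomogeneous_X _ _))
    (fun i n v hv hxv => VF_reg D (isHomogeneous_X _ _) (hcz_X1 D.cur) hv hxv)
    (2 * m + 1) (1 - m) (2 * m - 1) j₁
    (fun n hn => by rw [finrank_LF D.cur hn]; ring)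
    (fun j hj => by rw [(hj₁ j hj).1]; ring)
    c v w hvT hvc hwc hv hw
  exact key

theorem TF_parity (D : Dat δ μ g h M m e) [Fact (Irreducible (psi μ))] (ν : Fin 3 → KG μ)
    (hν0 : ν ≠ 0) (hν : ν ⬝ᵥ (MG μ M).adjugate.mulVec ν = 0) (τ j₁ : ℤ)
    (hτ : ∀ j, j₁ ≤ j → (finrank ℂ (TF μ δ M m ν j) : ℤ) = 2 * (2 * m + 1) * j + τ) :
    (finrank ℂ (VF μ δ M.adjugate m 0) : ℤ) % 2 = τ % 2 := by
  obtain ⟨c, v, w, hvT, hvc, -, -, -, hspan⟩ := TK_vecs D ν hν0 hν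
  obtain ⟨j₂, hj₂⟩ := VF_dims D
  obtain ⟨lam, hl1, hl2⟩ := exists_lam D.cur
  have key := @parity_gen (KG μ) (W4 (KG μ)) kx AdjoinRoot.instField _ _ _ _ _ _ _ _ _
    (IsFractionRing.injective (Polynomial ℂ) kx) (TK μ M ν)
    (ev μ (X 1)) ev_X1_ne (LF μ) (VF μ δ M.adjugate m) (VF_fin μ δ M.adjugate m)
    (VF_mono D) (fun i j b v hb hv => VF_smul D hb hv) (ev_mem μ (isHomogeneous_X _ _))
    (fun i n v hv hxv => VF_reg D (isHomogeneous_X _ _) (hcz_X1 D.cur) hv hxv)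
    (-m - 3) (VF_bot μ δ M.adjugate m (by omega))
    (qf μ δ M) qf_add qf_smul (qf_symm D.hMs) (lam.restrictScalars ℂ)
    (fun z => by
      rw [LinearMap.restrictScalars_apply, LinearMap.restrictScalars_apply, ev_X1,
        ← Algebra.smul_def, map_smul, smul_eq_mul])
    m hl1 (fun n b hb hb0 => lam_ne lam hl2 n b hb hb0) (qf_mem D) (m + 4)
    (fun j v hv hv' i hi => qf_pair D lam hl2 j v hv hv' i hi)
    (qf_iso D ν hν0 hν) (qf_perp D ν hν0 hν) c v hvT hvc hspan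
    (2 * (2 * m + 1)) τ (max j₁ j₂)
    (fun j hj => (hj₂ j ((le_max_right _ _).trans hj)).1)
    (fun j hj => (hj₂ j ((le_max_right _ _).trans hj)).2)
    (fun j hj => hτ j ((le_max_left _ _).trans hj))
  exact key

end Pool.Agent.Helper89.OS
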