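import Pool.Agent.Helper72.OS.Even

set_option autoImplicit false

/-!
Piece X11.  Finite-dimensional modules over the Clifford algebra of a nondegenerate ternary form
(with commuting operators as coefficients) have even dimension.

Proof by strong induction on `dim H`.  Take a minimal nonzero subspace stable under all `a i j` and
`c i`.  On it each `a i j` is a scalar (an eigenspace is stable under everything since the `a`'s
commute with the `a`'s and the `c`'s), with `det ≠ 0`, so the symmetric complex matrix `(a i j)` is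
nondegenerate: choose `x, y ∈ ℂ^3` with `x ⬝ a x ≠ 0`, `y ⬝ a y ≠ 0`, `x ⬝ a y = 0`; `U = ∑ x_i c_i`,
`U' = ∑ y_i c_i` satisfy `U^2 = - x ⬝ a x`, `U U' = - U' U`, both invertible; `det U = det (U' U U'⁻¹) =
det (-U) = (-1)^n det U`, so `n` is even.  Pass to the quotient.
-/

namespace Pool.Agent.Helper89.OS

open Module

theorem even_of_clifford {H : Type*} [AddCommGroup H] [Module ℂ H] [FiniteDimensional ℂ H]
    (c : Fin 3 → Module.End ℂ H) (a : Fin 3 → Fin 3 → Module.End ℂ H)
    (hsym : ∀ i j, a i j = a j i) (haa : ∀ i j k l, Commute (a i j) (a k l))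
    (hac : ∀ i j k, Commute (a i j) (c k))
    (hcc : ∀ i j, c i * c j + c j * c i = -((2 : ℂ) • a i j))
    (hdet : IsUnit (a 0 0 * (a 1 1 * a 2 2 - a 1 2 * a 1 2) -
      a 0 1 * (a 0 1 * a 2 2 - a 1 2 * a 0 2) + a 0 2 * (a 0 1 * a 1 2 - a 1 1 * a 0 2))) :
    Even (finrank ℂ H) := by
  classical
  set T : Set (Module.End ℂ H) := Set.range (fun p : Fin 3 × Fin 3 => a p.1 p.2) with hT
  have hcomm : ∀ x ∈ T, ∀ y ∈ T, x * y = y * x := by
    rintro _ ⟨p, rfl⟩ _ ⟨q, rfl⟩
    exact haa p.1 p.2 q.1 q.2
  let _ : CommRing (Algebra.adjoin ℂ T) := Algebra.adjoinCommRingOfComm ℂ hcomm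
  let S := Algebra.adjoin ℂ T
  have hmem : ∀ i j, a i j ∈ S := fun i j => Algebra.subset_adjoin ⟨(i, j), rfl⟩
  let A : Matrix (Fin 3) (Fin 3) S := fun i j => ⟨a i j, hmem i j⟩
  have hA : A.IsSymm := by
    apply Matrix.IsSymm.ext
    intro i j
    apply Subtype.ext
    exact hsym j i
  -- everything in `S` commutes with the `c`
  have hSc : ∀ s ∈ S, ∀ k, Commute s (c k) := by
    intro s hs k
    induction hs using Algebra.adjoin_induction with
    | mem x hx =>
      obtain ⟨p, rfl⟩ := hx
      exact hac p.1 p.2 k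
    | algebraMap r => exact Algebra.commutes r (c k)
    | add x y _ _ hx hy => exact hx.add_left hy
    | mul x y _ _ hx hy => exact hx.mul_left hy
  let γ : (Fin 3 → ℂ) → (H →ₗ[S] H) := fun u =>
    { toFun := fun x => ∑ k, u k • c k x
      map_add' := fun x y => by simp [Finset.sum_add_distrib]
      map_smul' := fun s x => by
        simp only [RingHom.id_apply, Finset.smul_sum]
        apply Finset.sum_congr rfl
        intro k _
        have h1 : c k (s.1 x) = s.1 (c k x) := (LinearMap.congr_fun (hSc s.1 s.2 k) x).symm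
        change u k • c k (s.1 x) = s.1 (u k • c k x)
        rw [h1, map_smul] }
  have hact : ∀ (s : S) (x : H), s • x = s.1 x := fun s x => rfl
  refine Pool.Agent.Helper72.OS.even_finrank A hA _ γ ?_ ?_ rfl
  · intro u v x
    have hs : ((2 * (Pool.Agent.Helper72.OS.cst (R := S) u ⬝ᵥ
        A.mulVec (Pool.Agent.Helper72.OS.cst v)) : S) : Module.End ℂ H) =
        ∑ k, ∑ l, (2 * (u k * v l)) • a k l := by
      have h1 : (2 * (Pool.Agent.Helper72.OS.cst (R := S) u ⬝ᵥ
          A.mulVec (Pool.Agent.Helper72.OS.cst v)) : S) =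
          ∑ k, ∑ l, (2 * (u k * v l)) • A k l := by
        simp only [dotProduct, Matrix.mulVec, Pool.Agent.Helper72.OS.cst, Finset.mul_sum]
        apply Finset.sum_congr rfl
        intro k _
        apply Finset.sum_congr rfl
        intro l _
        rw [Algebra.smul_def, map_mul, map_mul, map_ofNat]
        ring
      rw [h1]
      simp only [AddSubmonoidClass.coe_finsetSum]
      rfl
    rw [hact, hs]
    change (∑ k, u k • c k (∑ l, v l • c l x)) + (∑ k, v k • c k (∑ l, u l • c l x)) = _
    have h2 : (∑ k, v k • c k (∑ l, u l • c l x)) = ∑ k, ∑ l, (u k * v l) • c l (c k x) := by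
      rw [Finset.sum_comm]
      apply Finset.sum_congr rfl
      intro k _
      rw [map_sum, Finset.smul_sum]
      apply Finset.sum_congr rfl
      intro l _
      rw [map_smul, smul_smul, mul_comm]
    have h3 : (∑ k, u k • c k (∑ l, v l • c l x)) = ∑ k, ∑ l, (u k * v l) • c k (c l x) := by
      apply Finset.sum_congr rfl
      intro k _
      rw [map_sum, Finset.smul_sum]
      apply Finset.sum_congr rfl
      intro l _
      rw [map_smul, smul_smul]
    rw [h2, h3, ← Finset.sum_add_distrib]
    simp only [LinearMap.sum_apply, ← Finset.sum_neg_distrib, ← Finset.sum_add_distrib]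
    apply Finset.sum_congr rfl
    intro k _
    apply Finset.sum_congr rfl
    intro l _
    have h4 := LinearMap.congr_fun (hcc k l) x
    simp only [LinearMap.add_apply, Module.End.mul_apply, LinearMap.neg_apply,
      LinearMap.smul_apply] at h4
    rw [← smul_add, h4, smul_neg, LinearMap.smul_apply, smul_smul]
    congr 2
    ring
  · intro x hx
    rw [hact] at hx
    have h1 : (A.det : S) = A 0 0 * (A 1 1 * A 2 2 - A 1 2 * A 1 2) -
      A 0 1 * (A 0 1 * A 2 2 - A 1 2 * A 0 2) + A 0 2 * (A 0 1 * A 1 2 - A 1 1 * A 0 2) := by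
      rw [Matrix.det_fin_three, hA.apply 0 1, hA.apply 0 2, hA.apply 1 2]
      ring
    have h2 : ((A.det : S) : Module.End ℂ H) = a 0 0 * (a 1 1 * a 2 2 - a 1 2 * a 1 2) -
      a 0 1 * (a 0 1 * a 2 2 - a 1 2 * a 0 2) + a 0 2 * (a 0 1 * a 1 2 - a 1 1 * a 0 2) := by
      rw [h1]
      rfl
    rw [h2] at hx
    obtain ⟨w, hw⟩ := hdet
    have h3 := congrArg (fun y => (↑w⁻¹ : Module.End ℂ H) y) hx
    rw [← hw] at h3
    simp only [map_zero] at h3
    rw [← Module.End.mul_apply, Units.inv_mul, Module.End.one_apply] at h3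
    exact h3

end Pool.Agent.Helper89.OS
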