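import Pool.Agent.Helper89.OS.St.X6b
import Pool.Agent.Helper89.OS.St.X10
import Pool.Agent.Helper89.OS.St.X11

set_option autoImplicit false

/-!
Piece X10b.  The stable lattice `TS j = TF j + ∑_k γ_k TF (j-1)`, `γ_k = t c_k'`,
`c_k' = (0, M e_k) ·`, `t = h / g` (so `t² δ = 1`, as `g² = δ h²` in `KG μ`).

`γ_k γ_l = t² (0, M e_k)(0, M e_l) = - M_kl + ε_klj c_j` (`qm_col`, `qm_assoc`, `qm_one`) maps `TF j` to
`TF (j+2)` (`VF_c`, and `TK` is a left ideal by `qm_assoc`).  Hence `TS_gam`.  `TS_h`: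
`h γ_k v = (h²/g) c_k' v = (g/δ) c_k' v ∈ VF (j+e+1)` by `VF_g`.

`TS_parity`: `H = (⋃ TS j) / (⋃ TF j)`.  `TS j ⊓ ⋃ TF i = TF j` (`h v ∈ TF (j+e)` by `TS_h`, then `VF_reg`
with `P = h`, `gph`), and `dim TS j ≤ dim TF (j+e)`, so `H` is finite-dimensional and
`dim TS j = dim TF j + dim H` for large `j`.  `H` is a module over `B = ⋃ LF`; it carries
`c_i = lmul (0, e_i)`: `TF j → TF (j+2)` (`VF_c`), `γ_k TF (j-1) → TS (j+2)` (with `c_i = γ_a γ_b + M_ab` for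
`(a,b,i)` cyclic: `c_i γ_k v = γ_a (γ_b γ_k v) + M_ab γ_k v`).  `c_i c_j + c_j c_i = - 2 A_ij` (`qm_c`),
`det A = δ²`, and `δ` is invertible on `H`, because `h H = 0` and `X 0^n ∈ (μ, δ, h)` for some `n`
(`hh0`, Nullstellensatz, homogeneous), so `b δ + b' h = 1` in `KG μ` with `b, b' ∈ ⋃ LF`.  Now
`even_of_clifford`.
-/

namespace Pool.Agent.Helper89.OS

open MvPolynomial Pool.Agent.Helper29.HP Module

variable {δ μ g h : P3} {M : Matrix (Fin 3) (Fin 3) P3} {m e : ℕ}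

namespace X10b

section abs

variable {W : Type*} [AddCommGroup W] [Module ℂ W] (U T : Submodule ℂ W)

/-- the operators which preserve both subspaces -/
def Stab : Subalgebra ℂ (Module.End ℂ W) where
  carrier := {φ | (∀ v ∈ U, φ v ∈ U) ∧ ∀ v ∈ T, φ v ∈ T}
  mul_mem' := fun {a b} ha hb => ⟨fun v hv => ha.1 _ (hb.1 v hv), fun v hv => ha.2 _ (hb.2 v hv)⟩
  add_mem' := fun {a b} ha hb => ⟨fun v hv => Submodule.add_mem _ (ha.1 v hv) (hb.1 v hv),
    fun v hv => Submodule.add_mem _ (ha.2 v hv) (hb.2 v hv)⟩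
  algebraMap_mem' := fun r => ⟨fun v hv => Submodule.smul_mem _ r hv,
    fun v hv => Submodule.smul_mem _ r hv⟩

/-- the quotient -/
abbrev QQ : Type _ := ↥U ⧸ T.submoduleOf U

/-- the action on the quotient -/
def op : Stab U T →ₐ[ℂ] Module.End ℂ (QQ U T) :=
  AlgHom.ofLinearMap
    { toFun := fun φ => Submodule.mapQ _ _ (φ.1.restrict φ.2.1) (fun v hv => φ.2.2 _ hv)
      map_add' := fun a b => Submodule.linearMap_qext _ (LinearMap.ext fun v => rfl)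
      map_smul' := fun a b => Submodule.linearMap_qext _ (LinearMap.ext fun v => rfl) }
    (Submodule.linearMap_qext _ (LinearMap.ext fun v => rfl))
    (fun a b => Submodule.linearMap_qext _ (LinearMap.ext fun v => rfl))

theorem op_comm {x y : Stab U T} (h : ∀ v, x.1 (y.1 v) = y.1 (x.1 v)) :
    Commute (op U T x) (op U T y) := by
  have h1 : Commute x y := Subtype.ext (LinearMap.ext h)
  exact h1.map (op U T)

theorem op_cc {x y z : Stab U T} (h : ∀ v, x.1 (y.1 v) + y.1 (x.1 v) = -((2 : ℂ) • z.1 v)) :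
    op U T x * op U T y + op U T y * op U T x = -((2 : ℂ) • op U T z) := by
  have h1 : x * y + y * x = -((2 : ℂ) • z) := Subtype.ext (LinearMap.ext h)
  rw [← map_mul, ← map_mul, ← map_add, h1, map_neg, map_smul]

theorem op_zero {x : Stab U T} (h : ∀ v ∈ U, x.1 v ∈ T) : op U T x = 0 := by
  refine Submodule.linearMap_qext _ (LinearMap.ext fun v => ?_)
  exact (Submodule.Quotient.mk_eq_zero _).mpr (h v.1 v.2)

theorem op_one {x : Stab U T} (h : ∀ v, x.1 v = v) : op U T x = 1 := by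
  have h1 : x = 1 := Subtype.ext (LinearMap.ext h)
  rw [h1, map_one]

end abs

theorem MG_symm (D : Dat δ μ g h M m e) : (MG μ M).IsSymm := by
  apply Matrix.IsSymm.ext
  intro i j
  simp only [MG, Matrix.map_apply]
  rw [D.hMs.apply]

theorem MG_det (D : Dat δ μ g h M m e) : (MG μ M).det = ev μ δ := by
  rw [← D.hMd]
  exact ((ev μ).map_det M).symm

theorem MG_adj : (MG μ M).adjugate = MG μ M.adjugate :=
  ((ev μ).map_adjugate M).symm

theorem ev_self : ev μ μ = 0 := by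
  simp only [ev, AlgHom.comp_apply]
  exact AdjoinRoot.mk_self

theorem ev_rel (D : Dat δ μ g h M m e) : ev μ g ^ 2 = ev μ δ * ev μ h ^ 2 := by
  obtain ⟨c, hc⟩ := D.hgh
  have h1 := congrArg (ev μ) hc
  rw [map_mul, ev_self, zero_mul, map_sub, map_mul, map_pow, map_pow, sub_eq_zero] at h1
  exact h1

variable [Fact (Irreducible (psi μ))]

theorem t_sq (D : Dat δ μ g h M m e) {t : KG μ} (ht : t * ev μ g = ev μ h) :
    t ^ 2 * ev μ δ = 1 := by
  have h1 : t ^ 2 * ev μ δ * (ev μ h * ev μ h) = 1 * (ev μ h * ev μ h) := by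
    have h2 := ev_rel D
    calc t ^ 2 * ev μ δ * (ev μ h * ev μ h) = t ^ 2 * (ev μ δ * ev μ h ^ 2) := by ring
      _ = t ^ 2 * ev μ g ^ 2 := by rw [h2]
      _ = 1 * ((t * ev μ g) * (t * ev μ g)) := by ring
      _ = 1 * (ev μ h * ev μ h) := by rw [ht]
  exact mul_right_cancel₀ (mul_ne_zero D.ev_h D.ev_h) h1

theorem t_h (D : Dat δ μ g h M m e) {t : KG μ} (ht : t * ev μ g = ev μ h) :
    ev μ δ * (ev μ h * t) = ev μ g := by
  rw [← ht]
  linear_combination (ev μ g) * t_sq D ht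

theorem gam_apply (t : KG μ) (k : Fin 3) (v : W4 (KG μ)) :
    gam μ M t k v = t • qm (MG μ M) (0, fun i => MG μ M i k) v := rfl

theorem gam_comp (D : Dat δ μ g h M m e) {t : KG μ} (ht : t * ev μ g = ev μ h)
    (k l : Fin 3) (v : W4 (KG μ)) :
    gam μ M t k (gam μ M t l v) =
      qm (MG μ M) (-(ev μ (M k l)), crossProduct (Pi.single k 1) (Pi.single l 1)) v := by
  rw [gam_apply, gam_apply, qm_smul_right, ← qm_assoc _ (MG_symm D), qm_col _ (MG_symm D),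
    MG_det D, smul_smul, ← qm_smul_left]
  congr 1
  refine Prod.ext ?_ ?_
  · change t * t * -(ev μ δ * ev μ (M k l)) = _
    linear_combination (-(ev μ (M k l))) * t_sq D ht
  · change (t * t) • (ev μ δ • (crossProduct (Pi.single k 1) (Pi.single l 1))) = _
    rw [smul_smul]
    have h1 : t * t * ev μ δ = 1 := by rw [← t_sq D ht]; ring
    rw [h1, one_smul]

theorem qm_fst_zero (D : Dat δ μ g h M m e) (a : KG μ) (v : W4 (KG μ)) :
    qm (MG μ M) (a, 0) v = a • v := by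
  have h1 : ((a, 0) : W4 (KG μ)) = a • (1, 0) := by
    refine Prod.ext ?_ ?_
    · simp
    · simp
  rw [h1, qm_smul_left, qm_one]

theorem TF_TK {ν : Fin 3 → KG μ} {j : ℤ} {v : W4 (KG μ)} (hv : v ∈ TF μ δ M m ν j) :
    v ∈ TK μ M ν := hv.1

theorem TF_VF {ν : Fin 3 → KG μ} {j : ℤ} {v : W4 (KG μ)} (hv : v ∈ TF μ δ M m ν j) :
    v ∈ VF μ δ M.adjugate m j := hv.2

theorem TF_mk {ν : Fin 3 → KG μ} {j : ℤ} {v : W4 (KG μ)} (h1 : v ∈ TK μ M ν)
    (h2 : v ∈ VF μ δ M.adjugate m j) : v ∈ TF μ δ M m ν j := ⟨h1, h2⟩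

/-- `TK` is a left ideal -/
theorem TK_qm (D : Dat δ μ g h M m e) {ν : Fin 3 → KG μ} (p : W4 (KG μ)) {v : W4 (KG μ)}
    (hv : v ∈ TK μ M ν) : qm (MG μ M) p v ∈ TK μ M ν := by
  have h1 : qm (MG μ M) v (0, ν) = 0 := hv
  change qm (MG μ M) (qm (MG μ M) p v) (0, ν) = 0
  rw [qm_assoc _ (MG_symm D), h1]
  exact (lmul (MG μ M) p).map_zero

theorem TK_gam (D : Dat δ μ g h M m e) {ν : Fin 3 → KG μ} (t : KG μ) (k : Fin 3)
    {v : W4 (KG μ)} (hv : v ∈ TK μ M ν) : gam μ M t k v ∈ TK μ M ν :=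
  Submodule.smul_mem _ _ (TK_qm D _ hv)

theorem TF_smul (D : Dat δ μ g h M m e) {ν : Fin 3 → KG μ} {i j : ℤ} {b : KG μ}
    (hb : b ∈ LF μ i) {v : W4 (KG μ)} (hv : v ∈ TF μ δ M m ν j) :
    b • v ∈ TF μ δ M m ν (i + j) :=
  TF_mk (Submodule.smul_mem _ _ (TF_TK hv)) (VF_smul D hb (TF_VF hv))

theorem TF_mono (D : Dat δ μ g h M m e) (ν : Fin 3 → KG μ) : Monotone (TF μ δ M m ν) :=
  fun _ _ hij _ hv => TF_mk (TF_TK hv) (VF_mono D hij (TF_VF hv))

theorem TF_c (D : Dat δ μ g h M m e) {ν : Fin 3 → KG μ} {j : ℤ} {v : W4 (KG μ)}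
    (hv : v ∈ TF μ δ M m ν j) (i : Fin 3) :
    qm (MG μ M) (0, Pi.single i 1) v ∈ TF μ δ M m ν (j + 2) :=
  TF_mk (TK_qm D _ (TF_TK hv)) (VF_c D (TF_VF hv) i)

theorem cst_mem (c : ℂ) : algebraMap ℂ (KG μ) c ∈ LF μ 0 := by
  have h1 := ev_mem μ (isHomogeneous_C (Fin 3) c)
  have h2 : ev μ (C c) = algebraMap ℂ (KG μ) c := (ev μ).commutes c
  rw [h2] at h1
  exact h1

/-- the vector `(0, u)` with constant `u` -/
theorem TF_cst (D : Dat δ μ g h M m e) {ν : Fin 3 → KG μ} {j : ℤ} {v : W4 (KG μ)}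
    (hv : v ∈ TF μ δ M m ν j) (u : Fin 3 → ℂ) :
    qm (MG μ M) (0, fun i => algebraMap ℂ (KG μ) (u i)) v ∈ TF μ δ M m ν (j + 2) := by
  have h1 : ((0, fun i => algebraMap ℂ (KG μ) (u i)) : W4 (KG μ)) =
      algebraMap ℂ (KG μ) (u 0) • (0, Pi.single 0 1) +
      (algebraMap ℂ (KG μ) (u 1) • (0, Pi.single 1 1) +
      algebraMap ℂ (KG μ) (u 2) • (0, Pi.single 2 1)) := by
    refine Prod.ext ?_ ?_
    · simp
    · funext i
      fin_cases i <;> simp [Algebra.algebraMap_eq_smul_one]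
  rw [h1, qm_add_left, qm_add_left, qm_smul_left, qm_smul_left, qm_smul_left]
  have h2 : ∀ i : Fin 3, algebraMap ℂ (KG μ) (u i) • qm (MG μ M) (0, Pi.single i 1) v ∈
      TF μ δ M m ν (j + 2) := by
    intro i
    have h3 := TF_smul D (cst_mem (μ := μ) (u i)) (TF_c D hv i)
    rw [zero_add] at h3
    exact h3
  exact Submodule.add_mem _ (h2 0) (Submodule.add_mem _ (h2 1) (h2 2))

theorem TF_gam_gam (D : Dat δ μ g h M m e) {ν : Fin 3 → KG μ} {t : KG μ}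
    (ht : t * ev μ g = ev μ h) {j : ℤ} {v : W4 (KG μ)}
    (hv : v ∈ TF μ δ M m ν j) (k l : Fin 3) :
    gam μ M t k (gam μ M t l v) ∈ TF μ δ M m ν (j + 2) := by
  rw [gam_comp D ht]
  have h1 : ((-(ev μ (M k l)), crossProduct (Pi.single k 1) (Pi.single l 1)) : W4 (KG μ)) =
      (-(ev μ (M k l)), 0) + (0, fun i => algebraMap ℂ (KG μ)
        ((crossProduct (Pi.single k 1) (Pi.single l 1) : Fin 3 → ℂ) i)) := by
    refine Prod.ext ?_ ?_
    · simp
    · funext i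
      fin_cases k <;> fin_cases l <;> fin_cases i <;>
        simp [X8.cross0, X8.cross1, X8.cross2]
  rw [h1, qm_add_left, qm_fst_zero D]
  refine Submodule.add_mem _ ?_ (TF_cst D hv _)
  have h3 := TF_smul D (Submodule.neg_mem _ (ev_mem μ (D.hM k l))) hv
  rw [show ((2 : ℕ) : ℤ) + j = j + 2 by push_cast; ring] at h3
  exact h3


theorem TS_map {ν : Fin 3 → KG μ} {t : KG μ} {j : ℤ} (φ : W4 (KG μ) →ₗ[ℂ] W4 (KG μ))
    (N : Submodule ℂ (W4 (KG μ))) (h0 : ∀ v ∈ TF μ δ M m ν j, φ v ∈ N)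
    (h1 : ∀ k, ∀ v ∈ TF μ δ M m ν (j - 1), φ (gam μ M t k v) ∈ N) {v : W4 (KG μ)}
    (hv : v ∈ TS μ δ M m ν t j) : φ v ∈ N := by
  have h2 : TS μ δ M m ν t j ≤ N.comap φ := by
    refine sup_le (fun v hv => h0 v hv) (iSup_le fun k => ?_)
    rintro _ ⟨v, hv, rfl⟩
    exact h1 k v hv
  exact h2 hv

theorem TF_le_TS (ν : Fin 3 → KG μ) (t : KG μ) (j : ℤ) :
    TF μ δ M m ν j ≤ TS μ δ M m ν t j := le_sup_left

theorem gam_mem_TS (ν : Fin 3 → KG μ) (t : KG μ) (j : ℤ) (k : Fin 3) {v : W4 (KG μ)}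
    (hv : v ∈ TF μ δ M m ν (j - 1)) : gam μ M t k v ∈ TS μ δ M m ν t j :=
  le_sup_right (a := TF μ δ M m ν j)
    (Submodule.mem_iSup_of_mem k (Submodule.mem_map_of_mem hv))

theorem TF_fin (ν : Fin 3 → KG μ) (j : ℤ) : FiniteDimensional ℂ (TF μ δ M m ν j) := by
  have := VF_fin μ δ M.adjugate m j
  exact Submodule.finiteDimensional_of_le (S₂ := VF μ δ M.adjugate m j) inf_le_right

end X10b

open X10b

theorem gam_gam (D : Dat δ μ g h M m e) [Fact (Irreducible (psi μ))] {t : KG μ}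
    (ht : t * ev μ g = ev μ h) (k l : Fin 3) (v : W4 (KG μ)) :
    gam μ M t k (gam μ M t l v) + gam μ M t l (gam μ M t k v) =
      (-(2 * ev μ (M k l))) • v := by
  rw [gam_comp D ht, gam_comp D ht, ← qm_add_left, ← qm_fst_zero D]
  congr 1
  refine Prod.ext ?_ ?_
  · simp only [Prod.fst_add]
    rw [D.hMs.apply k l]
    ring
  · simp only [Prod.snd_add]
    rw [← cross_anticomm, neg_add_cancel]

theorem TS_fin (D : Dat δ μ g h M m e) [Fact (Irreducible (psi μ))] (ν : Fin 3 → KG μ)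
    (t : KG μ) (j : ℤ) : FiniteDimensional ℂ (TS μ δ M m ν t j) := by
  have h1 := TF_fin (δ := δ) (M := M) (m := m) ν j
  have h2 := TF_fin (δ := δ) (M := M) (m := m) ν (j - 1)
  unfold TS
  infer_instance

theorem TS_le_TK (D : Dat δ μ g h M m e) [Fact (Irreducible (psi μ))] (ν : Fin 3 → KG μ)
    (t : KG μ) (j : ℤ) {v : W4 (KG μ)} (hv : v ∈ TS μ δ M m ν t j) : v ∈ TK μ M ν :=
  TS_map LinearMap.id ((TK μ M ν).restrictScalars ℂ) (fun _ hv => TF_TK hv)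
    (fun k _ hv => TK_gam D t k (TF_TK hv)) hv

theorem TS_mono (D : Dat δ μ g h M m e) [Fact (Irreducible (psi μ))] (ν : Fin 3 → KG μ)
    (t : KG μ) : Monotone (TS μ δ M m ν t) := by
  intro i j hij v hv
  refine TS_map LinearMap.id (TS μ δ M m ν t j) (fun v hv => ?_) (fun k v hv => ?_) hv
  · exact TF_le_TS ν t j (TF_mono D ν hij hv)
  · exact gam_mem_TS ν t j k (TF_mono D ν (by omega) hv)

theorem TS_smul (D : Dat δ μ g h M m e) [Fact (Irreducible (psi μ))] (ν : Fin 3 → KG μ)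
    (t : KG μ) {i j : ℤ} {b : KG μ} (hb : b ∈ LF μ i) {v : W4 (KG μ)}
    (hv : v ∈ TS μ δ M m ν t j) : b • v ∈ TS μ δ M m ν t (i + j) := by
  refine TS_map (Algebra.lsmul ℂ ℂ (W4 (KG μ)) b) (TS μ δ M m ν t (i + j))
    (fun v hv => ?_) (fun k v hv => ?_) hv
  · exact TF_le_TS ν t _ (TF_smul D hb hv)
  · change b • gam μ M t k v ∈ _
    rw [← map_smul]
    refine gam_mem_TS ν t _ k ?_
    have h1 := TF_smul D hb hv
    rw [← add_sub_assoc] at h1
    exact h1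

theorem TS_gam (D : Dat δ μ g h M m e) [Fact (Irreducible (psi μ))] (ν : Fin 3 → KG μ)
    {t : KG μ} (ht : t * ev μ g = ev μ h) {j : ℤ} {v : W4 (KG μ)}
    (hv : v ∈ TS μ δ M m ν t j) (k : Fin 3) : gam μ M t k v ∈ TS μ δ M m ν t (j + 1) := by
  refine TS_map ((gam μ M t k).restrictScalars ℂ) (TS μ δ M m ν t (j + 1))
    (fun v hv => ?_) (fun l v hv => ?_) hv
  · refine gam_mem_TS ν t _ k ?_
    rw [add_sub_cancel_right]
    exact hv
  · refine TF_le_TS ν t _ ?_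
    have h1 := TF_gam_gam D ht hv k l
    rw [show j - 1 + 2 = j + 1 by ring] at h1
    exact h1

namespace X10b

variable [Fact (Irreducible (psi μ))]

/-- `h` maps `TS j` to `TF (j + e)` -/
theorem TS_h (D : Dat δ μ g h M m e) (ν : Fin 3 → KG μ)
    {t : KG μ} (ht : t * ev μ g = ev μ h) {j : ℤ} {v : W4 (KG μ)}
    (hv : v ∈ TS μ δ M m ν t j) : ev μ h • v ∈ TF μ δ M m ν (j + e) := by
  refine TS_map (Algebra.lsmul ℂ ℂ (W4 (KG μ)) (ev μ h)) (TF μ δ M m ν (j + e))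
    (fun v hv => ?_) (fun k v hv => ?_) hv
  · have h1 := TF_smul D (ev_mem μ D.hh) hv
    rw [add_comm] at h1
    exact h1
  · change ev μ h • gam μ M t k v ∈ _
    refine TF_mk (Submodule.smul_mem _ _ (TK_gam D t k (TF_TK hv))) ?_
    obtain ⟨w, hw, hwg⟩ := VF_g D (TF_VF hv) k
    have h1 : ev μ h • gam μ M t k v = w := by
      have h2 : ev μ δ • (ev μ h • gam μ M t k v) = ev μ δ • w := by
        rw [hwg, gam_apply, smul_smul, smul_smul, mul_assoc, t_h D ht]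
      have h3 := congrArg (fun x => (ev μ δ)⁻¹ • x) h2
      rw [inv_smul_smul₀ D.ev_δ, inv_smul_smul₀ D.ev_δ] at h3
      exact h3
    rw [h1]
    rw [show j - 1 + (e : ℤ) + 1 = j + e by ring] at hw
    exact hw

/-- `TS j` meets the union of the `TF i` in `TF j` -/
theorem TS_inf (D : Dat δ μ g h M m e) (ν : Fin 3 → KG μ)
    {t : KG μ} (ht : t * ev μ g = ev μ h) {i j : ℤ} {v : W4 (KG μ)}
    (hv : v ∈ TS μ δ M m ν t j) (hvi : v ∈ TF μ δ M m ν i) : v ∈ TF μ δ M m ν j :=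
  TF_mk (TF_TK hvi) (VF_reg D D.hh D.gph (TF_VF hvi) (TF_VF (TS_h D ν ht hv)))

/-- `c_i` maps `TS j` to `TS (j + 2)` -/
theorem TS_c (D : Dat δ μ g h M m e) (ν : Fin 3 → KG μ)
    {t : KG μ} (ht : t * ev μ g = ev μ h) {j : ℤ} {v : W4 (KG μ)}
    (hv : v ∈ TS μ δ M m ν t j) (i : Fin 3) :
    qm (MG μ M) (0, Pi.single i 1) v ∈ TS μ δ M m ν t (j + 2) := by
  obtain ⟨a, b, hab⟩ : ∃ a b : Fin 3, crossProduct (Pi.single a 1) (Pi.single b 1) =
      (Pi.single i 1 : Fin 3 → KG μ) := by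
    fin_cases i
    · refine ⟨1, 2, ?_⟩
      funext l
      fin_cases l <;> simp [X8.cross0, X8.cross1, X8.cross2]
    · refine ⟨2, 0, ?_⟩
      funext l
      fin_cases l <;> simp [X8.cross0, X8.cross1, X8.cross2]
    · refine ⟨0, 1, ?_⟩
      funext l
      fin_cases l <;> simp [X8.cross0, X8.cross1, X8.cross2]
  have h1 : qm (MG μ M) (0, Pi.single i 1) v =
      gam μ M t a (gam μ M t b v) + ev μ (M a b) • v := by
    rw [gam_comp D ht, ← qm_fst_zero D, ← qm_add_left, hab]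
    congr 1
    refine Prod.ext ?_ ?_
    · simp
    · simp
  rw [h1]
  refine Submodule.add_mem _ ?_ ?_
  · have h2 := TS_gam D ν ht (TS_gam D ν ht hv b) a
    rw [add_assoc] at h2
    exact h2
  · have h2 := TS_smul D ν t (ev_mem μ (D.hM a b)) hv
    rw [add_comm] at h2
    exact h2

/-- the union of the `TF j` -/
noncomputable def UT (μ δ : P3) (M : Matrix (Fin 3) (Fin 3) P3) (m : ℕ) (ν : Fin 3 → KG μ) :
    Submodule ℂ (W4 (KG μ)) := ⨆ j, TF μ δ M m ν j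

/-- the union of the `TS j` -/
noncomputable def US (μ δ : P3) (M : Matrix (Fin 3) (Fin 3) P3) (m : ℕ) (ν : Fin 3 → KG μ)
    (t : KG μ) : Submodule ℂ (W4 (KG μ)) := ⨆ j, TS μ δ M m ν t j

theorem mem_UT (D : Dat δ μ g h M m e) {ν : Fin 3 → KG μ} {v : W4 (KG μ)} :
    v ∈ UT μ δ M m ν ↔ ∃ j, v ∈ TF μ δ M m ν j :=
  Submodule.mem_iSup_of_directed _ (TF_mono D ν).directed_le

theorem mem_US (D : Dat δ μ g h M m e) {ν : Fin 3 → KG μ} {t : KG μ} {v : W4 (KG μ)} :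
    v ∈ US μ δ M m ν t ↔ ∃ j, v ∈ TS μ δ M m ν t j :=
  Submodule.mem_iSup_of_directed _ (TS_mono D ν t).directed_le

/-- the quotient -/
abbrev HH (μ δ : P3) (M : Matrix (Fin 3) (Fin 3) P3) (m : ℕ) (ν : Fin 3 → KG μ)
    (t : KG μ) : Type := QQ (US μ δ M m ν t) (UT μ δ M m ν)

theorem ev_smul_mem (D : Dat δ μ g h M m e) (ν : Fin 3 → KG μ) (t : KG μ) (p : P3) :
    Algebra.lsmul ℂ ℂ (W4 (KG μ)) (ev μ p) ∈ Stab (US μ δ M m ν t) (UT μ δ M m ν) := by
  have h1 : p ∈ Submodule.comap (((Algebra.lsmul ℂ ℂ (W4 (KG μ))).toLinearMap).comp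
      (ev μ).toLinearMap) (Subalgebra.toSubmodule (Stab (US μ δ M m ν t) (UT μ δ M m ν))) := by
    rw [← sum_homogeneousComponent p]
    refine Submodule.sum_mem _ fun i _ => ?_
    have h2 := ev_mem μ (homogeneousComponent_isHomogeneous i p)
    refine ⟨fun v hv => ?_, fun v hv => ?_⟩
    · obtain ⟨j, hj⟩ := (mem_US D).mp hv
      exact (mem_US D).mpr ⟨_, TS_smul D ν t h2 hj⟩
    · obtain ⟨j, hj⟩ := (mem_UT D).mp hv
      exact (mem_UT D).mpr ⟨_, TF_smul D h2 hj⟩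
  exact h1

/-- the action of a polynomial on the quotient -/
noncomputable def opP (D : Dat δ μ g h M m e) (ν : Fin 3 → KG μ) (t : KG μ) :
    P3 →ₐ[ℂ] Module.End ℂ (HH μ δ M m ν t) :=
  (op (US μ δ M m ν t) (UT μ δ M m ν)).comp
    (((Algebra.lsmul ℂ ℂ (W4 (KG μ))).comp (ev μ)).codRestrict _ (ev_smul_mem D ν t))

theorem opP_eq (D : Dat δ μ g h M m e) (ν : Fin 3 → KG μ) (t : KG μ) (p : P3) :
    opP D ν t p = op (US μ δ M m ν t) (UT μ δ M m ν) ⟨_, ev_smul_mem D ν t p⟩ := rfl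

theorem opP_μ (D : Dat δ μ g h M m e) (ν : Fin 3 → KG μ) (t : KG μ) : opP D ν t μ = 0 := by
  rw [opP_eq]
  refine op_zero _ _ fun v hv => ?_
  change ev μ μ • v ∈ UT μ δ M m ν
  rw [ev_self, zero_smul]
  exact Submodule.zero_mem _

theorem opP_h (D : Dat δ μ g h M m e) (ν : Fin 3 → KG μ) {t : KG μ}
    (ht : t * ev μ g = ev μ h) : opP D ν t h = 0 := by
  rw [opP_eq]
  refine op_zero _ _ fun v hv => ?_
  change ev μ h • v ∈ UT μ δ M m ν
  obtain ⟨j, hj⟩ := (mem_US D).mp hv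
  exact (mem_UT D).mpr ⟨_, TS_h D ν ht hj⟩

theorem opP_X (D : Dat δ μ g h M m e) (ν : Fin 3 → KG μ) (t : KG μ) : opP D ν t (X 0) = 1 := by
  rw [opP_eq]
  refine op_one _ _ fun v => ?_
  change ev μ (X 0) • v = v
  rw [ev_X0, one_smul]

/-- Nullstellensatz -/
theorem exists_rel (D : Dat δ μ g h M m e) :
    ∃ (n : ℕ) (a b c : P3), (X 0 : P3) ^ n = a * μ + b * δ + c * h := by
  have h1 : (X 0 : P3) ∈ (Ideal.span {μ, δ, h} : Ideal P3).radical := by
    rw [← MvPolynomial.vanishingIdeal_zeroLocus_eq_radical (K := ℂ)]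
    rw [MvPolynomial.mem_vanishingIdeal_iff]
    intro z hz
    rw [MvPolynomial.mem_zeroLocus_iff] at hz
    have hz' : ∀ p ∈ ({μ, δ, h} : Set P3), eval z p = 0 := by
      intro p hp
      rw [← coe_aeval_eq_eval]
      exact hz p (Ideal.subset_span hp)
    rw [aeval_X]
    by_contra h0
    exact D.hh0 z (fun h => h0 (by rw [h]; rfl)) (hz' μ (by simp)) (hz' δ (by simp))
      (hz' h (by simp))
  obtain ⟨n, hn⟩ := h1
  rw [Ideal.mem_span_insert] at hn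
  obtain ⟨a, z, hz, hn⟩ := hn
  rw [Ideal.mem_span_pair] at hz
  obtain ⟨b, c, rfl⟩ := hz
  exact ⟨n, a, b, c, by rw [hn]; ring⟩

theorem unit_of_rel {E : Type*} [Ring E] [Algebra ℂ E] (f : P3 →ₐ[ℂ] E) {n : ℕ} {a b c : P3}
    (hn : (X 0 : P3) ^ n = a * μ + b * δ + c * h) (h0 : f μ = 0) (h1 : f h = 0)
    (h2 : f (X 0) = 1) : IsUnit (f δ) := by
  have h3 := congrArg f hn
  rw [map_pow, h2, one_pow, map_add, map_add, map_mul, map_mul, map_mul, h0, h1,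
    mul_zero, mul_zero, zero_add, add_zero] at h3
  have h4 : f δ * f b = 1 := by
    rw [← map_mul, mul_comm, map_mul]
    exact h3.symm
  exact ⟨⟨_, _, h4, h3.symm⟩, rfl⟩

theorem opP_δ (D : Dat δ μ g h M m e) (ν : Fin 3 → KG μ) {t : KG μ}
    (ht : t * ev μ g = ev μ h) : IsUnit (opP D ν t δ) := by
  obtain ⟨n, a, b, c, hn⟩ := exists_rel D
  exact unit_of_rel (opP D ν t) hn (opP_μ D ν t) (opP_h D ν ht) (opP_X D ν t)

theorem c_mem (D : Dat δ μ g h M m e) (ν : Fin 3 → KG μ) {t : KG μ}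
    (ht : t * ev μ g = ev μ h) (i : Fin 3) :
    (lmul (MG μ M) (0, Pi.single i 1)).restrictScalars ℂ ∈ Stab (US μ δ M m ν t) (UT μ δ M m ν) := by
  refine ⟨fun v hv => ?_, fun v hv => ?_⟩
  · obtain ⟨j, hj⟩ := (mem_US D).mp hv
    exact (mem_US D).mpr ⟨_, TS_c D ν ht hj i⟩
  · obtain ⟨j, hj⟩ := (mem_UT D).mp hv
    exact (mem_UT D).mpr ⟨_, TF_c D hj i⟩

/-- the action of the generators -/
noncomputable def opc (D : Dat δ μ g h M m e) (ν : Fin 3 → KG μ) {t : KG μ}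
    (ht : t * ev μ g = ev μ h) (i : Fin 3) : Module.End ℂ (HH μ δ M m ν t) :=
  op (US μ δ M m ν t) (UT μ δ M m ν) ⟨_, c_mem D ν ht i⟩

theorem opP_opc (D : Dat δ μ g h M m e) (ν : Fin 3 → KG μ) {t : KG μ}
    (ht : t * ev μ g = ev μ h) (p : P3) (k : Fin 3) :
    Commute (opP D ν t p) (opc D ν ht k) := by
  rw [opP_eq, opc]
  refine op_comm _ _ fun v => ?_
  change ev μ p • qm (MG μ M) (0, Pi.single k 1) v = qm (MG μ M) (0, Pi.single k 1) (ev μ p • v)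
  rw [qm_smul_right]

theorem opc_opc (D : Dat δ μ g h M m e) (ν : Fin 3 → KG μ) {t : KG μ}
    (ht : t * ev μ g = ev μ h) (i j : Fin 3) :
    opc D ν ht i * opc D ν ht j + opc D ν ht j * opc D ν ht i =
      -((2 : ℂ) • opP D ν t (M.adjugate i j)) := by
  rw [opP_eq, opc, opc]
  refine op_cc _ _ fun v => ?_
  change qm (MG μ M) (0, Pi.single i 1) (qm (MG μ M) (0, Pi.single j 1) v) +
    qm (MG μ M) (0, Pi.single j 1) (qm (MG μ M) (0, Pi.single i 1) v) =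
    -((2 : ℂ) • (ev μ (M.adjugate i j) • v))
  rw [← qm_assoc _ (MG_symm D), ← qm_assoc _ (MG_symm D), ← qm_add_left,
    qm_c _ (MG_symm D), qm_fst_zero D, MG_adj, neg_smul, mul_smul]
  congr 1
  rw [two_smul, two_smul]
  rfl

theorem unit_det {E : Type*} [Ring E] [Algebra ℂ E] (f : P3 →ₐ[ℂ] E)
    (A : Matrix (Fin 3) (Fin 3) P3) (hA : A.IsSymm) (hd : A.det = δ ^ 2) (hu : IsUnit (f δ)) :
    IsUnit (f (A 0 0) * (f (A 1 1) * f (A 2 2) - f (A 1 2) * f (A 1 2)) -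
      f (A 0 1) * (f (A 0 1) * f (A 2 2) - f (A 1 2) * f (A 0 2)) +
      f (A 0 2) * (f (A 0 1) * f (A 1 2) - f (A 1 1) * f (A 0 2))) := by
  have h1 : f (A 0 0) * (f (A 1 1) * f (A 2 2) - f (A 1 2) * f (A 1 2)) -
      f (A 0 1) * (f (A 0 1) * f (A 2 2) - f (A 1 2) * f (A 0 2)) +
      f (A 0 2) * (f (A 0 1) * f (A 1 2) - f (A 1 1) * f (A 0 2)) = f (δ ^ 2) := by
    have h2 : δ ^ 2 = A 0 0 * (A 1 1 * A 2 2 - A 1 2 * A 1 2) -
        A 0 1 * (A 0 1 * A 2 2 - A 1 2 * A 0 2) +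
        A 0 2 * (A 0 1 * A 1 2 - A 1 1 * A 0 2) := by
      rw [← hd, Matrix.det_fin_three, hA.apply 0 1, hA.apply 0 2, hA.apply 1 2]
      ring
    rw [h2]
    simp only [map_add, map_sub, map_mul]
  rw [h1, map_pow]
  exact hu.pow 2

theorem even_abs {H : Type*} [AddCommGroup H] [Module ℂ H] [FiniteDimensional ℂ H]
    (f : P3 →ₐ[ℂ] Module.End ℂ H) (c : Fin 3 → Module.End ℂ H)
    (A : Matrix (Fin 3) (Fin 3) P3) (hA : A.IsSymm) (hd : A.det = δ ^ 2) (hu : IsUnit (f δ))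
    (h1 : ∀ p k, Commute (f p) (c k))
    (h2 : ∀ i j, c i * c j + c j * c i = -((2 : ℂ) • f (A i j))) : Even (finrank ℂ H) :=
  even_of_clifford c (fun i j => f (A i j)) (fun i j => congrArg f (hA.apply j i))
    (fun i j k l => (Commute.all (A i j) (A k l)).map f) (fun i j k => h1 _ k) h2
    (unit_det f A hA hd hu)

/-- the quotient has even dimension -/
theorem even_HH (D : Dat δ μ g h M m e) (ν : Fin 3 → KG μ) {t : KG μ}
    (ht : t * ev μ g = ev μ h) (hfin : FiniteDimensional ℂ (HH μ δ M m ν t)) :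
    Even (finrank ℂ (HH μ δ M m ν t)) := by
  have hA : M.adjugate.IsSymm := by
    rw [Matrix.IsSymm, Matrix.adjugate_transpose, D.hMs.eq]
  have hd : M.adjugate.det = δ ^ 2 := by
    rw [Matrix.det_adjugate, D.hMd, Fintype.card_fin]
  exact even_abs (opP D ν t) (opc D ν ht) M.adjugate hA hd
    (opP_δ D ν ht) (opP_opc D ν ht) (opc_opc D ν ht)

/-! ### dimensions -/

/-- the map from `TS j` to the quotient -/
noncomputable def rj (μ δ : P3) (M : Matrix (Fin 3) (Fin 3) P3) (m : ℕ) (ν : Fin 3 → KG μ)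
    (t : KG μ) (j : ℤ) : TS μ δ M m ν t j →ₗ[ℂ] HH μ δ M m ν t :=
  (Submodule.mkQ _).comp (Submodule.inclusion (le_iSup (TS μ δ M m ν t) j))

theorem rj_apply (ν : Fin 3 → KG μ) (t : KG μ) (j : ℤ) (v : TS μ δ M m ν t j) :
    rj μ δ M m ν t j v =
      Submodule.Quotient.mk ⟨v.1, (le_iSup (TS μ δ M m ν t) j) v.2⟩ := rfl

theorem ker_rj (D : Dat δ μ g h M m e) (ν : Fin 3 → KG μ) {t : KG μ}
    (ht : t * ev μ g = ev μ h) (j : ℤ) :
    LinearMap.ker (rj μ δ M m ν t j) = (TF μ δ M m ν j).submoduleOf (TS μ δ M m ν t j) := by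
  ext v
  rw [LinearMap.mem_ker, rj_apply, Submodule.Quotient.mk_eq_zero]
  change v.1 ∈ UT μ δ M m ν ↔ v.1 ∈ TF μ δ M m ν j
  rw [mem_UT D]
  constructor
  · rintro ⟨i, hi⟩
    exact TS_inf D ν ht v.2 hi
  · intro hv
    exact ⟨j, hv⟩

theorem range_mono (D : Dat δ μ g h M m e) (ν : Fin 3 → KG μ) (t : KG μ) {i j : ℤ} (hij : i ≤ j) :
    LinearMap.range (rj μ δ M m ν t i) ≤ LinearMap.range (rj μ δ M m ν t j) := by
  rintro _ ⟨v, rfl⟩
  exact ⟨⟨v.1, TS_mono D ν t hij v.2⟩, rfl⟩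

theorem range_top (D : Dat δ μ g h M m e) (ν : Fin 3 → KG μ) (t : KG μ) (j₀ : ℤ)
    (hj : ∀ j, j₀ ≤ j → LinearMap.range (rj μ δ M m ν t j) = LinearMap.range (rj μ δ M m ν t j₀)) :
    LinearMap.range (rj μ δ M m ν t j₀) = ⊤ := by
  rw [eq_top_iff]
  intro x _
  obtain ⟨v, rfl⟩ := Submodule.Quotient.mk_surjective _ x
  obtain ⟨i, hi⟩ := (mem_US D).mp v.2
  rw [← hj (max i j₀) (le_max_right _ _)]
  exact ⟨⟨v.1, TS_mono D ν t (le_max_left i j₀) hi⟩, rfl⟩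

theorem finrank_TS (D : Dat δ μ g h M m e) (ν : Fin 3 → KG μ) {t : KG μ}
    (ht : t * ev μ g = ev μ h) (j : ℤ) :
    finrank ℂ (LinearMap.range (rj μ δ M m ν t j)) + finrank ℂ (TF μ δ M m ν j) =
      finrank ℂ (TS μ δ M m ν t j) := by
  have := TS_fin D ν t j
  rw [← LinearMap.finrank_range_add_finrank_ker (rj μ δ M m ν t j), ker_rj D ν ht]
  congr 1
  exact (LinearEquiv.finrank_eq (Submodule.submoduleOfEquivOfLe (TF_le_TS ν t j))).symm

theorem finrank_TS_le (D : Dat δ μ g h M m e) (ν : Fin 3 → KG μ) {t : KG μ}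
    (ht : t * ev μ g = ev μ h) (j : ℤ) :
    finrank ℂ (TS μ δ M m ν t j) ≤ finrank ℂ (TF μ δ M m ν (j + e)) := by
  have := TF_fin (δ := δ) (M := M) (m := m) ν (j + e)
  let φ : TS μ δ M m ν t j →ₗ[ℂ] TF μ δ M m ν (j + e) :=
    ((Algebra.lsmul ℂ ℂ (W4 (KG μ)) (ev μ h)).restrict
      (p := TS μ δ M m ν t j) (q := TF μ δ M m ν (j + e)) (fun v hv => TS_h D ν ht hv))
  refine LinearMap.finrank_le_finrank_of_injective (f := φ) ?_
  intro v w hvw
  apply Subtype.ext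
  have h1 : ev μ h • v.1 = ev μ h • w.1 := congrArg Subtype.val hvw
  have h2 := congrArg (fun x => (ev μ h)⁻¹ • x) h1
  rw [inv_smul_smul₀ D.ev_h, inv_smul_smul₀ D.ev_h] at h2
  exact h2

end X10b

open X10b

theorem TS_parity (D : Dat δ μ g h M m e) [Fact (Irreducible (psi μ))] (ν : Fin 3 → KG μ)
    (hν0 : ν ≠ 0) (hν : ν ⬝ᵥ (MG μ M).adjugate.mulVec ν = 0) {t : KG μ}
    (ht : t * ev μ g = ev μ h) :
    ∃ τ j₁ : ℤ, (∀ j, j₁ ≤ j →
      (finrank ℂ (TS μ δ M m ν t j) : ℤ) = 2 * (2 * m + 1) * j + τ) ∧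
      τ % 2 = (finrank ℂ (VF μ δ M.adjugate m 0) : ℤ) % 2 := by
  obtain ⟨τ, j₁, hτ⟩ := TF_growth D ν hν0 hν
  have hpar := TF_parity D ν hν0 hν τ j₁ hτ
  -- the dimensions of the images are bounded
  have hbd : ∀ j, j₁ ≤ j →
      finrank ℂ (LinearMap.range (rj μ δ M m ν t j)) ≤ 2 * (2 * m + 1) * e := by
    intro j hj
    have h1 := finrank_TS D ν ht j
    have h2 := finrank_TS_le D ν ht j
    have h3 := hτ j hj
    have h4 := hτ (j + e) (by omega)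
    have h5 : (finrank ℂ (LinearMap.range (rj μ δ M m ν t j)) : ℤ) +
        finrank ℂ (TF μ δ M m ν j) ≤ finrank ℂ (TF μ δ M m ν (j + e)) := by
      rw [← h1] at h2
      exact_mod_cast h2
    have h6 : (finrank ℂ (LinearMap.range (rj μ δ M m ν t j)) : ℤ) ≤ 2 * (2 * m + 1) * e := by
      linarith
    exact_mod_cast h6
  -- a maximal image
  obtain ⟨j₀, hj₀, hmax⟩ : ∃ j₀, j₁ ≤ j₀ ∧ ∀ j, j₁ ≤ j →
      finrank ℂ (LinearMap.range (rj μ δ M m ν t j)) ≤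
        finrank ℂ (LinearMap.range (rj μ δ M m ν t j₀)) := by
    let s : Set ℕ := {n | ∃ j, j₁ ≤ j ∧ finrank ℂ (LinearMap.range (rj μ δ M m ν t j)) = n}
    have hs0 : s.Nonempty := ⟨_, j₁, le_rfl, rfl⟩
    have hsb : BddAbove s := ⟨2 * (2 * m + 1) * e, by
      rintro _ ⟨j, hj, rfl⟩
      exact hbd j hj⟩
    obtain ⟨j₀, hj₀, h0⟩ := Nat.sSup_mem hs0 hsb
    exact ⟨j₀, hj₀, fun j hj => h0 ▸ le_csSup hsb ⟨j, hj, rfl⟩⟩
  have hst : ∀ j, j₀ ≤ j →
      LinearMap.range (rj μ δ M m ν t j) = LinearMap.range (rj μ δ M m ν t j₀) := by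
    intro j hj
    have := TS_fin D ν t j
    exact (Submodule.eq_of_le_of_finrank_le (range_mono D ν t hj) (hmax j (hj₀.trans hj))).symm
  have htop := range_top D ν t j₀ hst
  have := TS_fin D ν t j₀
  have hfin : FiniteDimensional ℂ (HH μ δ M m ν t) :=
    Module.Finite.of_surjective (rj μ δ M m ν t j₀) (LinearMap.range_eq_top.mp htop)
  obtain ⟨r, hr⟩ := even_HH D ν ht hfin
  refine ⟨τ + finrank ℂ (HH μ δ M m ν t), j₀, fun j hj => ?_, ?_⟩
  · have h1 := finrank_TS D ν ht j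
    rw [hst j hj, htop, finrank_top] at h1
    rw [← h1]
    push_cast
    rw [hτ j (hj₀.trans hj)]
    ring
  · rw [hpar, hr]
    push_cast
    omega

end Pool.Agent.Helper89.OS
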