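import Mathlib
import Pool.Agent.Helper89.OS.St.X10b
import Pool.Agent.Helper5.OS.Sec2

set_option autoImplicit false

/-!
Piece X13.  The section over `F = ℂ(u₀,u₁,u₂)` in general position.

`K = KG μ`, `E = K(u₀,u₁,u₂)`.  `ν` exists by `tern_residue`; `t = h/g`; `TS j` as in X10b.  On `E^4`
(components of `W4`; it may help to identify `W4 K` with `Fin 4 → K` in order to use X17) let
`W = ∑ u_k γ_k`, `X1`, `X2` multiplication by `x = ev (X 1)`, `y = ev (X 2)`: `W² = - ∑ u_k u_l M_kl` =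
`- ∑ Q_ij x_i x_j` with `x = (1, x, y)`, `Q_ij = ∑_kl a_ijkl u_k u_l ∈ F` (`M_kl = ∑ a_ijkl x_i x_j`).
`Yf j` = `F`-span of `TS j`.  Choose `y₀ ∈ TS c`, `y₀ ≠ 0`; `Zf j = F`-span of `LF (j-c) y₀` plus `W`
(`F`-span of `LF (j-c-1) y₀`).  `y₀` and `W y₀` are `E`-linearly independent: otherwise the linear form
`u ↦ det(y₀, W y₀)` in the 2-dimensional space `TK` vanishes, so `γ_k y₀ = λ_k y₀` with `λ_k ∈ K` and
`- 2 M_kl = 2 λ_k λ_l` has rank one, against `det M ≠ 0`.  So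
`dim Zf j = dim LF (j-c) + dim LF (j-c-1)` and
`dim Yf j - dim Zf j = [2 (2m+1) j + τ] - (2m+1)(2j - 2c - 1 - 2m + 2) = τ + (2m+1)(2c + 2m - 1)`, odd when `τ`
is even.  `hsat`: by independence and X17 (`bc_inf`) from `LF_sat`.  Now `odd_point`.
-/

namespace Pool.Agent.Helper89.OS

open MvPolynomial Pool.Agent.Helper29.HP Module

variable {δ μ g h : P3} {M : Matrix (Fin 3) (Fin 3) P3} {m e : ℕ}

theorem Cur.ev_X1 (hc : Cur μ m) : ev μ (X 1) ≠ 0 := by
  intro h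
  rw [ev_eq_zero hc (isHomogeneous_X ℂ 1)] at h
  obtain ⟨q, hq⟩ := h
  have hX : (X 1 : P3) ≠ 0 := X_ne_zero 1
  have hμ0 : μ ≠ 0 := hc.irr.ne_zero
  have hq0 : q ≠ 0 := by
    rintro rfl
    exact hX (by rw [hq, mul_zero])
  have h1 : (X 1 : P3).totalDegree = μ.totalDegree + q.totalDegree := by
    conv_lhs => rw [hq]
    exact totalDegree_mul_of_isDomain hμ0 hq0
  rw [totalDegree_X, hc.hom.totalDegree hμ0] at h1
  have h2 : q.totalDegree = 0 := by omega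
  rw [totalDegree_eq_zero_iff_eq_C] at h2
  have h3 := congrArg (eval ![0, 0, 1]) hq
  rw [map_mul, eval_X, h2, eval_C] at h3
  have h4 : (![0, 0, 1] : Fin 3 → ℂ) 1 = 0 := rfl
  rw [h4] at h3
  rcases mul_eq_zero.1 h3.symm with h5 | h5
  · exact hc.gp h5
  · apply hq0
    rw [h2, h5, C_0]

theorem sq_div_mul {K : Type*} [Field K] {a b c : K} (hb : b ≠ 0) (h : b ^ 2 = c * a ^ 2) :
    (a / b) ^ 2 * c = 1 := by
  rw [div_pow, div_mul_eq_mul_div, mul_comm, ← h, div_self (pow_ne_zero 2 hb)]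

theorem ev_aeval (μ : P3) (f : P3) : ev μ f = aeval ![1, ev μ (X 1), ev μ (X 2)] f := by
  have h : ev μ = aeval ![1, ev μ (X 1), ev μ (X 2)] := by
    apply algHom_ext
    intro i
    rw [aeval_X]
    fin_cases i
    · exact ev_X0 μ
    · rfl
    · rfl
  exact congrArg (fun φ => φ f) h

theorem exists_section_gp (D : Dat δ μ g h M m e)
    (hpar : Even (finrank ℂ (VF μ δ M.adjugate m 0))) :
    ∃ (x : Fin 3 → FU) (w : FU), ¬ (x = 0 ∧ w = 0) ∧
      w ^ 2 + ∑ k, ∑ l, algebraMap P3 FU (X k) * algebraMap P3 FU (X l) * aeval x (M k l) = 0 := by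
  have hF : Fact (Irreducible (psi μ)) := ⟨irr_psi D.cur⟩
  have hNs : (MG μ M).IsSymm := D.hMs.map _
  have hdet : (MG μ M).det = ev μ δ := by
    rw [← D.hMd]
    exact (AlgHom.map_det (ev μ) M).symm
  have hg0 : ev μ g ≠ 0 := D.ev_g
  have ht : ev μ h / ev μ g * ev μ g = ev μ h := div_mul_cancel₀ _ hg0
  have hμ0 : ev μ μ = 0 := (ev_eq_zero D.cur D.cur.hom).2 dvd_rfl
  have hsq : ev μ g ^ 2 = ev μ δ * ev μ h ^ 2 := by
    obtain ⟨q, hq⟩ := D.hgh
    have := congrArg (ev μ) hq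
    rw [map_sub, map_mul, map_mul, map_pow, map_pow, hμ0, zero_mul, sub_eq_zero] at this
    exact this
  have ht2 : (ev μ h / ev μ g) ^ 2 * (MG μ M).det = 1 := by
    rw [hdet]
    exact sq_div_mul hg0 hsq
  have hadj : (MG μ M).adjugate.IsSymm :=
    (Matrix.adjugate_transpose _).trans (congrArg _ hNs)
  obtain ⟨ν, hν0, hν⟩ := tern_residue (psi μ) (MG μ M).adjugate hadj
  obtain ⟨τ, j₁, hτ, hτ2⟩ := TS_parity D ν hν0 hν ht
  have hτe : Even τ := by
    rw [Int.even_iff, hτ2]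
    obtain ⟨r, hr⟩ := hpar
    omega
  refine Pool.Agent.Helper5.OS.core (MG μ M) hNs (ev μ h / ev μ g) ht2 (ev μ (X 1)) (ev μ (X 2)) M
    D.hM (fun k l => ev_aeval μ (M k l)) (LF μ) (LF_mono μ) (LF_fin μ)
    (fun i j a b ha hb => LF_mul ha hb) (ev_mem μ (isHomogeneous_X ℂ 1))
    (ev_mem μ (isHomogeneous_X ℂ 2)) ?_ D.cur.ev_X1 (fun i n b hb h => LF_sat D.cur hb h)
    (TS μ δ M m ν (ev μ h / ev μ g)) (TS_mono D ν _) (TS_fin D ν _)
    (fun i j b v hb hv => TS_smul D ν _ hb hv) (fun j v hv k => TS_gam D ν ht hv k)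
    (2 * m + 1) ((2 * m + 1) * (1 - m)) τ (max j₁ (2 * m - 1)) ⟨m, rfl⟩ (by omega) hτe ?_ ?_
  · have := ev_mem μ (isHomogeneous_one (Fin 3) ℂ)
    rw [map_one] at this
    exact this
  · intro n hn
    rw [finrank_LF D.cur (le_trans (le_max_right _ _) hn)]
    ring
  · intro j hj
    rw [hτ j (le_trans (le_max_left _ _) hj)]

end Pool.Agent.Helper89.OS
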