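import Mathlib
import Pool.Agent.Helper89.OS.St.X13
import Pool.Agent.Helper5.HP.Norm

namespace Pool.Agent.Helper29.HP.Six
end Pool.Agent.Helper29.HP.Six

set_option autoImplicit false

/-!
Piece X15.  Removal of the general position assumptions.

Choose a line `ℓ` avoiding the common zeros of `μ` and `δ h` (`TR.exists_lin_avoid`) and a point on
`ℓ` outside `μ = 0`, and linear coordinates with `ℓ = {x₀ = 0}`, the point `(0,0,1)`; apply
`exists_section_gp` to `lsub`-transforms (`lsub` of piece Six).  `IZ`, `IA`, smoothness, `det`,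
`adjugate`, irreducibility are compatible with `lsub`; `x ↦` linear substitution in the conclusion.
`VF_zero` turns the hypothesis into the one on `IZ`, `IA`.
-/

namespace Pool.Agent.Helper89.OS

open MvPolynomial Pool.Agent.Helper29.HP Pool.Agent.Helper29.HP.Six Module

/-- an automorphism preserving the plane `z 0 = 0` with prescribed image of the last basis vector -/
theorem x15_aut {P : Fin 3 → ℂ} (hP : P ≠ 0) (hP0 : P 0 = 0) :
    ∃ A : (Fin 3 → ℂ) ≃ₗ[ℂ] (Fin 3 → ℂ), A ![0, 0, 1] = P ∧ ∀ z, A z 0 = z 0 := by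
  by_cases h2 : P 2 = 0
  · have h1 : P 1 ≠ 0 := by
      intro h1
      apply hP
      funext i
      fin_cases i
      exacts [hP0, h1, h2]
    let f : (Fin 3 → ℂ) →ₗ[ℂ] (Fin 3 → ℂ) := LinearMap.pi
      ![LinearMap.proj 0, P 1 • LinearMap.proj 2, LinearMap.proj 1]
    have f0 : ∀ z, f z 0 = z 0 := fun z => rfl
    have f1 : ∀ z, f z 1 = P 1 * z 2 := fun z => rfl
    have f2 : ∀ z, f z 2 = z 1 := fun z => rfl
    have hinj : Function.Injective f := by
      rw [injective_iff_map_eq_zero]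
      intro z hz
      have e0 := f0 z
      have e1 := f1 z
      have e2 := f2 z
      rw [hz] at e0 e1 e2
      funext i
      fin_cases i
      · exact e0.symm
      · exact e2.symm
      · exact (mul_eq_zero.mp e1.symm).resolve_left h1
    refine ⟨LinearEquiv.ofInjectiveEndo f hinj, ?_, fun z => f0 z⟩
    change f ![0, 0, 1] = P
    funext i
    fin_cases i
    · change (0 : ℂ) = P 0
      exact hP0.symm
    · change P 1 * 1 = P 1
      rw [mul_one]
    · change (0 : ℂ) = P 2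
      exact h2.symm
  · let f : (Fin 3 → ℂ) →ₗ[ℂ] (Fin 3 → ℂ) := LinearMap.pi
      ![LinearMap.proj 0, LinearMap.proj 1 + P 1 • LinearMap.proj 2, P 2 • LinearMap.proj 2]
    have f0 : ∀ z, f z 0 = z 0 := fun z => rfl
    have f1 : ∀ z, f z 1 = z 1 + P 1 * z 2 := fun z => rfl
    have f2 : ∀ z, f z 2 = P 2 * z 2 := fun z => rfl
    have hinj : Function.Injective f := by
      rw [injective_iff_map_eq_zero]
      intro z hz
      have e0 := f0 z
      have e1 := f1 z
      have e2 := f2 z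
      rw [hz] at e0 e1 e2
      have e3 : z 2 = 0 := (mul_eq_zero.mp e2.symm).resolve_left h2
      rw [e3, mul_zero, add_zero] at e1
      funext i
      fin_cases i
      · exact e0.symm
      · exact e1.symm
      · exact e3
    refine ⟨LinearEquiv.ofInjectiveEndo f hinj, ?_, fun z => f0 z⟩
    change f ![0, 0, 1] = P
    funext i
    fin_cases i
    · change (0 : ℂ) = P 0
      exact hP0.symm
    · change (0 : ℂ) + P 1 * 1 = P 1
      rw [mul_one, zero_add]
    · change P 2 * 1 = P 2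
      rw [mul_one]

/-- good coordinates -/
theorem x15_coord {μ G : P3} {d n : ℕ} (hμ : μ.IsHomogeneous d) (hd : 1 ≤ d) (hμi : Irreducible μ)
    (hG : G.IsHomogeneous n) (hn : 1 ≤ n) (hμG : ¬ μ ∣ G) :
    ∃ φ : (Fin 3 → ℂ) ≃ₗ[ℂ] (Fin 3 → ℂ), eval (φ ![0, 0, 1]) μ ≠ 0 ∧
      ∀ z : Fin 3 → ℂ, z ≠ 0 → z 0 = 0 → eval (φ z) μ = 0 → eval (φ z) G ≠ 0 := by
  have hrel : IsRelPrime μ G := hμi.isRelPrime_iff_not_dvd.mpr hμG
  have hG0 : G ≠ 0 := by
    rintro rfl
    exact hμG (dvd_zero _)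
  obtain ⟨l, hl, hav⟩ := Pool.Agent.Helper29.TR.exists_lin_avoid hμ hG hrel hG0
  obtain ⟨P, hlP, hP⟩ : ∃ P, l P = 0 ∧ eval P μ ≠ 0 := by
    by_contra hcon
    push Not at hcon
    obtain ⟨x, hx, hxz⟩ := Pool.Agent.Helper16.exists_common_zero (σ := Fin 3)
      ![Pool.Agent.Helper16.linp l, G]
      (by
        intro i
        fin_cases i
        · change eval 0 (Pool.Agent.Helper16.linp l) = 0
          rw [Pool.Agent.Helper16.eval_linp, map_zero]
        · exact hom_eval_zero hG hn) (by simp)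
    have h1 : eval x (Pool.Agent.Helper16.linp l) = 0 := hxz 0
    rw [Pool.Agent.Helper16.eval_linp] at h1
    exact hx (hav x h1 (hcon x h1) (hxz 1))
  obtain ⟨φ, hφ⟩ := exists_lequiv hl
  have hP0 : P ≠ 0 := by
    rintro rfl
    exact hP (hom_eval_zero hμ hd)
  obtain ⟨A, hA1, hA2⟩ := x15_aut (P := φ P) (by
    intro h
    apply hP0
    exact φ.injective (by rw [h, map_zero])) (by rw [hφ, hlP])
  refine ⟨A.trans φ.symm, ?_, ?_⟩
  · rw [LinearEquiv.trans_apply, hA1, φ.symm_apply_apply]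
    exact hP
  · intro z hz hz0 hzμ hzG
    have h1 : l ((A.trans φ.symm) z) = 0 := by
      rw [← hφ, LinearEquiv.trans_apply, φ.apply_symm_apply, hA2, hz0]
    have h2 := hav _ h1 hzμ hzG
    exact hz ((A.trans φ.symm).injective (by rw [h2, map_zero]))

section transfer

variable {φ : (Fin 3 → ℂ) ≃ₗ[ℂ] (Fin 3 → ℂ)}

/-- linear substitution as an equivalence -/
noncomputable def x15E (φ : (Fin 3 → ℂ) ≃ₗ[ℂ] (Fin 3 → ℂ)) : P3 ≃ₐ[ℂ] P3 :=
  AlgEquiv.ofAlgHom (lsub φ.toLinearMap) (lsub φ.symm.toLinearMap)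
    (AlgHom.ext fun p => lsub_lsub (fun z => φ.symm_apply_apply z) p)
    (AlgHom.ext fun p => lsub_lsub (fun z => φ.apply_symm_apply z) p)

theorem x15E_apply (p : P3) : x15E φ p = lsub φ.toLinearMap p := rfl

theorem x15E_hom {p : P3} {n : ℕ} : (x15E φ p).IsHomogeneous n ↔ p.IsHomogeneous n := by
  constructor
  · intro h
    have h1 := lsub_hom φ.symm.toLinearMap h
    rw [x15E_apply, lsub_lsub (fun z => φ.apply_symm_apply z)] at h1
    exact h1
  · exact lsub_hom _

theorem x15E_Imd {μ δ p : P3} : x15E φ p ∈ Imd (x15E φ μ) (x15E φ δ) ↔ p ∈ Imd μ δ := by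
  unfold Imd
  constructor
  · intro h
    obtain ⟨a, b, hab⟩ := Ideal.mem_span_pair.mp h
    refine Ideal.mem_span_pair.mpr ⟨(x15E φ).symm a, (x15E φ).symm b, ?_⟩
    apply (x15E φ).injective
    rw [map_add, map_mul, map_mul, AlgEquiv.apply_symm_apply, AlgEquiv.apply_symm_apply, hab]
  · intro h
    obtain ⟨a, b, hab⟩ := Ideal.mem_span_pair.mp h
    exact Ideal.mem_span_pair.mpr ⟨x15E φ a, x15E φ b, by rw [← map_mul, ← map_mul, ← map_add, hab]⟩

theorem x15_IZ (μ δ : P3) (n : ℕ) :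
    finrank ℂ (IZ (x15E φ μ) (x15E φ δ) n) = finrank ℂ (IZ μ δ n) := by
  have h : IZ (x15E φ μ) (x15E φ δ) n =
      (IZ μ δ n).map ((x15E φ).toLinearEquiv : P3 →ₗ[ℂ] P3) := by
    unfold IZ
    rw [Submodule.map_span]
    congr 1
    ext f
    constructor
    · rintro ⟨h1, h2⟩
      refine ⟨(x15E φ).symm f, ⟨?_, ?_⟩, (x15E φ).apply_symm_apply f⟩
      · rw [← x15E_hom (φ := φ), AlgEquiv.apply_symm_apply]; exact h1
      · rw [← x15E_Imd (φ := φ), map_pow, AlgEquiv.apply_symm_apply]; exact h2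
    · rintro ⟨f, ⟨h1, h2⟩, rfl⟩
      refine ⟨x15E_hom.mpr h1, ?_⟩
      have h3 := (x15E_Imd (φ := φ)).mpr h2
      rw [map_pow] at h3
      exact h3
  rw [h]
  exact LinearEquiv.finrank_map_eq _ _

theorem x15_IA (μ δ : P3) (A : Matrix (Fin 3) (Fin 3) P3) (n : ℕ) :
    finrank ℂ (IA (x15E φ μ) (x15E φ δ) (A.map (x15E φ)) n) = finrank ℂ (IA μ δ A n) := by
  let e : (Fin 3 → P3) ≃ₗ[ℂ] (Fin 3 → P3) :=
    LinearEquiv.piCongrRight fun _ => (x15E φ).toLinearEquiv
  have he : ∀ a i, e a i = x15E φ (a i) := fun a i => rfl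
  have hes : ∀ a i, e.symm a i = (x15E φ).symm (a i) := fun a i => rfl
  have hdot : ∀ a : Fin 3 → P3, e a ⬝ᵥ (A.map (x15E φ)).mulVec (e a) =
      x15E φ (a ⬝ᵥ A.mulVec a) := by
    intro a
    simp only [dotProduct, Matrix.mulVec, Matrix.map_apply, he, map_sum, map_mul]
  have h : IA (x15E φ μ) (x15E φ δ) (A.map (x15E φ)) n =
      (IA μ δ A n).map (e : (Fin 3 → P3) →ₗ[ℂ] (Fin 3 → P3)) := by
    unfold IA
    rw [Submodule.map_span]
    congr 1
    ext f
    constructor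
    · rintro ⟨h1, h2⟩
      refine ⟨e.symm f, ⟨fun i => ?_, ?_⟩, e.apply_symm_apply f⟩
      · rw [hes, ← x15E_hom (φ := φ), AlgEquiv.apply_symm_apply]; exact h1 i
      · rw [← x15E_Imd (φ := φ), ← hdot, e.apply_symm_apply]; exact h2
    · rintro ⟨f, ⟨h1, h2⟩, rfl⟩
      refine ⟨fun i => x15E_hom.mpr (h1 i), ?_⟩
      have h3 := (x15E_Imd (φ := φ)).mpr h2
      rw [← hdot] at h3
      exact h3
  rw [h]
  exact LinearEquiv.finrank_map_eq _ _

end transfer

theorem exists_section {δ μ g h : P3} {M : Matrix (Fin 3) (Fin 3) P3} {m e : ℕ}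
    (hμ : μ.IsHomogeneous (2 * m + 1)) (hμi : Irreducible μ) (hδ : δ.IsHomogeneous 6)
    (hsm : ∀ z : Fin 3 → ℂ, z ≠ 0 → eval z δ = 0 → ∃ i, eval z (pderiv i δ) ≠ 0)
    (hg : g.IsHomogeneous (e + 3)) (hh : h.IsHomogeneous e) (hgh : μ ∣ g ^ 2 - δ * h ^ 2)
    (hh0 : ∀ z : Fin 3 → ℂ, z ≠ 0 → eval z μ = 0 → eval z δ = 0 → eval z h ≠ 0)
    (hMs : M.IsSymm) (hM : ∀ i j, (M i j).IsHomogeneous 2) (hMd : M.det = δ)
    (hpar : Even (finrank ℂ (IZ μ δ (m + 2)) + finrank ℂ (IA μ δ M.adjugate m) +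
      (3 - m).choose 2)) :
    ∃ (x : Fin 3 → FU) (w : FU), ¬ (x = 0 ∧ w = 0) ∧
      w ^ 2 + ∑ k, ∑ l, algebraMap P3 FU (X k) * algebraMap P3 FU (X l) * aeval x (M k l) = 0 := by
  have hirr : Irreducible δ := irreducible_of_smooth (by norm_num) hδ hsm
  have hμG : ¬ μ ∣ δ * h := by
    intro hd
    rcases hμi.prime.dvd_or_dvd hd with h1 | h1
    · obtain ⟨u, hu⟩ := hμi.associated_of_dvd hirr h1
      obtain ⟨a, b, ha, hb, hab⟩ := Pool.Agent.Helper16.hom_factor (p := μ) (q := (u : P3))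
        (by rw [hu]; exact hδ) (by rw [hu]; exact hirr.ne_zero)
      have h3 := ha.inj_right hμ hμi.ne_zero
      have h4 : b = 0 := by
        by_contra hb0
        exact (u.isUnit.map (eval (0 : Fin 3 → ℂ))).ne_zero (hom_eval_zero hb (by omega))
      omega
    · obtain ⟨x, hx, hxz⟩ := Pool.Agent.Helper16.exists_common_zero (σ := Fin 3) ![μ, δ]
        (by
          intro i
          fin_cases i
          · exact hom_eval_zero hμ (by omega)
          · exact hom_eval_zero hδ (by norm_num)) (by simp)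
      have h2 : eval x μ = 0 := hxz 0
      apply hh0 x hx h2 (hxz 1)
      obtain ⟨q, hq⟩ := h1
      rw [hq, map_mul, h2, zero_mul]
  obtain ⟨φ, hφ1, hφ2⟩ := x15_coord hμ (by omega) hμi (hδ.mul hh) (by omega) hμG
  have hφ0 : ∀ z, φ z = 0 → z = 0 := fun z hz => φ.injective (by rw [hz, map_zero])
  have hev : ∀ p z, eval z (x15E φ p) = eval (φ z) p := fun p z => eval_lsub _ _ _
  have D : Dat (x15E φ δ) (x15E φ μ) (x15E φ g) (x15E φ h) (M.map (x15E φ)) m e := by
    refine ⟨⟨x15E_hom.mpr hμ, ?_, ?_⟩, x15E_hom.mpr hδ, ?_, x15E_hom.mpr hg, x15E_hom.mpr hh, ?_,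
      ?_, ?_, fun i j => x15E_hom.mpr (hM i j), ?_, ?_, ?_⟩
    · exact (MulEquiv.irreducible_iff (x15E φ)).mpr hμi
    · rw [hev]; exact hφ1
    · exact Pool.Agent.Helper5.HP.smooth_lsub hsm (a := φ.toLinearMap) (b := φ.symm.toLinearMap)
        (fun z => φ.apply_symm_apply z) hφ0
    · have h1 := map_dvd (x15E φ) hgh
      rw [map_sub, map_mul, map_pow, map_pow] at h1
      exact h1
    · intro z hz h1 h2
      rw [hev] at h1 h2 ⊢
      exact hh0 _ (fun h3 => hz (hφ0 z h3)) h1 h2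
    · rw [Matrix.IsSymm, ← Matrix.transpose_map, hMs.eq]
    · have h1 := AlgEquiv.map_det (x15E φ) M
      rw [hMd] at h1
      exact h1.symm
    · intro z hz h1 h2 h3
      rw [hev] at h2 h3
      apply hφ2 z hz h1 h2
      rw [map_mul, h3, zero_mul]
    · intro z hz h1 h2 h3
      rw [hev] at h2 h3
      apply hφ2 z hz h1 h2
      rw [map_mul, h3, mul_zero]
  have hadj : (M.map (x15E φ)).adjugate = M.adjugate.map (x15E φ) :=
    (RingHom.map_adjugate ((x15E φ : P3 →ₐ[ℂ] P3) : P3 →+* P3) M).symm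
  have hz := VF_zero D
  rw [hadj, x15_IZ, x15_IA] at hz
  have hpar' : Even (finrank ℂ (VF (x15E φ μ) (x15E φ δ) (M.map (x15E φ)).adjugate m 0)) := by
    rw [hadj]
    rw [← hz] at hpar
    rw [Nat.even_iff] at hpar ⊢
    omega
  obtain ⟨x', w, hne, hxw⟩ := exists_section_gp D hpar'
  let x : Fin 3 → FU := fun j =>
    aeval x' (Pool.Agent.Helper16.linp (LinearMap.proj j ∘ₗ φ.toLinearMap))
  have hx : ∀ p : P3, aeval x' (x15E φ p) = aeval x p := by
    intro p
    have h1 : (aeval x' : P3 →ₐ[ℂ] FU).comp (lsub φ.toLinearMap) = aeval x := by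
      apply MvPolynomial.algHom_ext
      intro j
      rw [AlgHom.comp_apply, aeval_X, lsub, aeval_X]
    exact AlgHom.congr_fun h1 p
  refine ⟨x, w, ?_, ?_⟩
  · rintro ⟨hx0, hw⟩
    apply hne
    refine ⟨?_, hw⟩
    funext i
    have h1 : aeval x' (x15E φ ((x15E φ).symm (X i))) = aeval x ((x15E φ).symm (X i)) := hx _
    rw [AlgEquiv.apply_symm_apply, aeval_X, hx0] at h1
    rw [h1]
    have h2 : (x15E φ).symm (X i) =
        Pool.Agent.Helper16.linp (LinearMap.proj i ∘ₗ φ.symm.toLinearMap) := by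
      change lsub φ.symm.toLinearMap (X i) = _
      rw [lsub, aeval_X]
    rw [h2, Pool.Agent.Helper16.linp]
    simp
  · rw [← hxw]
    refine congrArg (fun t => w ^ 2 + t)
      (Finset.sum_congr rfl fun k _ => Finset.sum_congr rfl fun l _ => ?_)
    rw [Matrix.map_apply, hx]

end Pool.Agent.Helper89.OS
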