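import Mathlib
import Pool.Agent.Helper89.OS.St.X4
import Pool.Agent.Helper5.HP.TwoEx

set_option autoImplicit false

/-!
Piece X19.  Comparison of `IZ μ δ (k+3)` (a space of forms) with `Sig δ μ k` (the same modulo `δ`):
the kernel of `IZ → Sig` is `δ` times the forms of degree `k - 3`, of dimension `(k-1 choose 2)`
(natural subtraction: `0` for `k ≤ 2`).  `f² ∈ (μ, δ)` gives `f² = μ G + δ r` with `G` homogeneous of
degree `2 (k+3) - (2k+3) = 3` or zero (`hom_Imd`).
-/

namespace Pool.Agent.Helper89.OS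

open MvPolynomial Pool.Agent.Helper29.HP Module

namespace X19

theorem map_ker {E F : Type*} [AddCommGroup E] [Module ℂ E] [AddCommGroup F] [Module ℂ F]
    (φ : E →ₗ[ℂ] F) (A : Submodule ℂ E) [FiniteDimensional ℂ A] :
    finrank ℂ (A.map φ) + finrank ℂ ↥(A ⊓ LinearMap.ker φ) = finrank ℂ A := by
  have h1 := LinearMap.finrank_range_add_finrank_ker (φ.domRestrict A)
  have h2 : LinearMap.range (φ.domRestrict A) = A.map φ := by
    rw [LinearMap.domRestrict, LinearMap.range_comp, Submodule.range_subtype]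
  have h3 : (LinearMap.ker (φ.domRestrict A)).map A.subtype = A ⊓ LinearMap.ker φ := by
    rw [LinearMap.ker_domRestrict, Submodule.map_comap_subtype]
  rw [h2] at h1
  rw [← h3, ← (Submodule.equivMapOfInjective A.subtype A.injective_subtype
    (LinearMap.ker (φ.domRestrict A))).finrank_eq]
  exact h1

theorem cast {f : P3} {a b : ℕ} (h : f.IsHomogeneous a) (hab : a = b) : f.IsHomogeneous b :=
  hab ▸ h

end X19

theorem finrank_IZ_Sig {δ μ : P3} {k : ℕ} (hδ : δ.IsHomogeneous 6)
    (hsm : ∀ z : Fin 3 → ℂ, z ≠ 0 → eval z δ = 0 → ∃ i, eval z (pderiv i δ) ≠ 0)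
    (hμ : μ.IsHomogeneous (2 * k + 3)) (hμδ : ¬ δ ∣ μ) :
    finrank ℂ (IZ μ δ (k + 3)) = finrank ℂ (Sig δ μ k) + (k - 1).choose 2 := by
  have hirr : Irreducible δ := irreducible_of_smooth (by norm_num) hδ hsm
  have hδ0 := hirr.ne_zero
  have hle : IZ μ δ (k + 3) ≤ homogeneousSubmodule (Fin 3) ℂ (k + 3) := by
    refine Submodule.span_le.mpr ?_
    rintro f ⟨hf, -⟩
    exact hf
  have hfin : FiniteDimensional ℂ (IZ μ δ (k + 3)) :=
    Submodule.finiteDimensional_of_le hle
  let φ : P3 →ₗ[ℂ] (P3 ⧸ Ideal.span {δ}) := (Ideal.Quotient.mkₐ ℂ (Ideal.span {δ})).toLinearMap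
  have hφ0 : ∀ f, φ f = 0 ↔ δ ∣ f := by
    intro f
    change Ideal.Quotient.mk (Ideal.span {δ}) f = 0 ↔ _
    rw [Ideal.Quotient.eq_zero_iff_mem, Ideal.mem_span_singleton]
  have hmap : (IZ μ δ (k + 3)).map φ = Sig δ μ k := by
    unfold IZ Sig
    rw [Submodule.map_span]
    congr 1
    ext f
    constructor
    · rintro ⟨s, ⟨hs, hs2⟩, rfl⟩
      obtain ⟨t, r, hpr, ht, -⟩ := hom_Imd hδ hμ (hs.pow 2) hs2
      refine ⟨s, t, hs, ?_, ⟨r, by rw [hpr]; ring⟩, rfl⟩
      rcases ht with rfl | ⟨-, ht⟩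
      · exact isHomogeneous_zero _ _ _
      · exact X19.cast ht (by omega)
    · rintro ⟨s, G, hs, hG, ⟨r, hr⟩, rfl⟩
      refine ⟨s, ⟨hs, ?_⟩, rfl⟩
      have h1 : s ^ 2 = μ * G + δ * r := by linear_combination hr
      rw [h1]
      exact add_mem (Ideal.mul_mem_right _ _ (Ideal.subset_span (by simp)))
        (Ideal.mul_mem_right _ _ (Ideal.subset_span (by simp)))
  have hker : finrank ℂ ↥(IZ μ δ (k + 3) ⊓ LinearMap.ker φ) = (k - 1).choose 2 := by
    rcases Nat.lt_or_ge k 3 with hk | hk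
    · have h0 : IZ μ δ (k + 3) ⊓ LinearMap.ker φ = ⊥ := by
        rw [eq_bot_iff]
        rintro f ⟨h1, h2⟩
        have h3 : f.IsHomogeneous (k + 3) := hle h1
        have h4 : δ ∣ f := (hφ0 f).mp h2
        rw [Submodule.mem_bot]
        by_contra hf
        obtain ⟨q, hq⟩ := h4
        obtain ⟨a, b, ha, hb, hab⟩ := Helper16.hom_factor (p := δ) (q := q) (by rw [← hq]; exact h3)
          (by rw [← hq]; exact hf)
        have ha1 : a = 6 := ha.inj_right hδ hδ0
        omega
      rw [h0, finrank_bot]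
      exact (Nat.choose_eq_zero_of_lt (by omega)).symm
    · let ψ : homogeneousSubmodule (Fin 3) ℂ (k - 3) →ₗ[ℂ] P3 :=
        (LinearMap.mulLeft ℂ δ) ∘ₗ (homogeneousSubmodule (Fin 3) ℂ (k - 3)).subtype
      have hψ : Function.Injective ψ := by
        intro x y hxy
        exact Subtype.ext (mul_left_cancel₀ hδ0 hxy)
      have hr : LinearMap.range ψ = IZ μ δ (k + 3) ⊓ LinearMap.ker φ := by
        ext f
        constructor
        · rintro ⟨x, rfl⟩
          have hx : (x : P3).IsHomogeneous (k - 3) := x.2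
          have h1 : (δ * (x : P3)).IsHomogeneous (k + 3) := X19.cast (hδ.mul hx) (by omega)
          refine ⟨Submodule.subset_span ⟨h1, ?_⟩, (hφ0 _).mpr (dvd_mul_right _ _)⟩
          have : (δ * (x : P3)) ^ 2 = δ * (δ * (x : P3) ^ 2) := by ring
          change (δ * (x : P3)) ^ 2 ∈ Imd μ δ
          rw [this]
          exact Ideal.mul_mem_right _ _ (Ideal.subset_span (by simp))
        · rintro ⟨h1, h2⟩
          have h3 : f.IsHomogeneous (k + 3) := hle h1
          obtain ⟨q, hq⟩ := (hφ0 f).mp h2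
          by_cases hf : f = 0
          · exact ⟨0, by rw [hf, map_zero]⟩
          obtain ⟨a, b, ha, hb, hab⟩ := Helper16.hom_factor (p := δ) (q := q)
            (by rw [← hq]; exact h3) (by rw [← hq]; exact hf)
          have ha1 : a = 6 := ha.inj_right hδ hδ0
          have hb1 : b = k - 3 := by omega
          exact ⟨⟨q, by rw [← hb1]; exact hb⟩, hq.symm⟩
      rw [← hr, LinearMap.finrank_range_of_inj hψ, Helper16.finrank_hom3]
      congr 1
      omega
  have h := X19.map_ker φ (IZ μ δ (k + 3))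
  rw [hmap, hker] at h
  exact h.symm

end Pool.Agent.Helper89.OS
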