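import Mathlib
import Pool.Agent.Helper89.OS.St.X4
import Pool.Agent.Helper29.OS.Theta

set_option autoImplicit false

/-!
Piece X7.  The dimension of `IA_m`, which uses that the theta characteristic of the cubic fourfold
has exactly one section.

`finrank_IA`: put `H = μ c₃`, `A = adj M`.  For `a ∈ IA_m`: `a ⬝ A a = μ t + δ r`, `t` of degree 3.
`δ ∣ (∑ a_i s_i)^2 - H (a ⬝ A a)`, so on `δ = 0` `(∑ a_i s_i / μ)^2 = c₃ t`: integral, so
`∑ a_i s_i = μ τ + δ (..)` with `τ` of degree 3 (argument of `sq_mem`) and `δ ∣ τ^2 - c₃ t`; by `hθ`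
`τ = λ c₃`.  The map `a ↦ λ` is linear with kernel `M (forms of degree m-2)^3`: if
`δ ∣ ∑ a_i s_i` then `δ ∣ s_k ∑ a_i s_i ≡ H (A a)_k`, so `A a = δ b`, `δ a = M A a = δ M b`, `a = M b`
(`m ≥ 2` or `b = 0`); `b ↦ M b` is injective.  It is onto: `M s ≡ 0` modulo `δ`
(`s_k (M s)_i ≡ H (M A)_ik = H δ ≡ 0`, some `s_k ≢ 0`), put `a' = M s / δ` of degree `m`: `A a' = s`
exactly, `s_k ∑ a'_i s_i ≡ H (A a')_k = H s_k`, so `∑ a'_i s_i ≡ H` and `a' ∈ IA_m` with `λ = 1`
(`a' ⬝ A a' = a' ⬝ s ≡ H`).

`theta_unique`: `N = c.Nm X`, `n = 4-th column of adj N` (degrees 4,4,4,3; `c₃ = n_4`),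
`δ ∣ c₃ (adj N)_jk - n_j n_k`.  `(τ n_j)^2 ≡ c₃ t c₃ (adj N)_jj`, so `τ n_j ≡ c₃ G_j` modulo `δ`
(normality), `G_4 = τ`, `deg G_j = deg n_j`.  `N G ≡ 0` modulo `δ`, the first three entries of `N G`
have degree 5, so vanish; the last has degree 6: `N G = δ b e_4`, `b` constant; so
`G = b n` and `τ = b c₃`.
-/

namespace Pool.Agent.Helper89.OS

open MvPolynomial Pool.Agent.Helper29.HP Module

theorem x7_quot {δ q : P3} {n k : ℕ} (hδ : δ.IsHomogeneous n) (hδ0 : δ ≠ 0)
    (h : (δ * q).IsHomogeneous (n + k)) : q.IsHomogeneous k := by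
  by_cases hq : q = 0
  · rw [hq]; exact isHomogeneous_zero _ _ _
  · obtain ⟨a, b, ha, hb, hab⟩ := Pool.Agent.Helper16.hom_factor h (mul_ne_zero hδ0 hq)
    have h1 : a = n := ha.inj_right hδ hδ0
    have h2 : b = k := by omega
    exact h2 ▸ hb

/-- vectors of forms of degree `m - 2` -/
noncomputable def x7S (m : ℕ) : Submodule ℂ P3 :=
  if 2 ≤ m then homogeneousSubmodule (Fin 3) ℂ (m - 2) else ⊥

theorem x7S_fin (m : ℕ) : FiniteDimensional ℂ (x7S m) ∧ finrank ℂ (x7S m) = m.choose 2 := by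
  by_cases h : 2 ≤ m
  · have e : x7S m = homogeneousSubmodule (Fin 3) ℂ (m - 2) := if_pos h
    rw [e]
    refine ⟨inferInstance, ?_⟩
    rw [Pool.Agent.Helper16.finrank_hom3]
    congr 1
    omega
  · have e : x7S m = ⊥ := if_neg h
    rw [e]
    refine ⟨inferInstance, ?_⟩
    rw [finrank_bot]
    have : m < 2 := by omega
    interval_cases m <;> rfl

theorem x7S_mem {m : ℕ} {δ p q : P3} (hδ : δ.IsHomogeneous 6) (hδ0 : δ ≠ 0)
    (hp : p.IsHomogeneous (4 + m)) (h : p = δ * q) : q ∈ x7S m := by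
  unfold x7S
  by_cases hq : q = 0
  · rw [hq]; exact Submodule.zero_mem _
  · rw [h] at hp
    obtain ⟨a, b, ha, hb, hab⟩ := Pool.Agent.Helper16.hom_factor hp (mul_ne_zero hδ0 hq)
    have h1 : a = 6 := ha.inj_right hδ hδ0
    have h2 : 2 ≤ m := by omega
    rw [if_pos h2]
    have h3 : b = m - 2 := by omega
    exact h3 ▸ hb

theorem finrank_IA {δ μ c₃ : P3} {M : Matrix (Fin 3) (Fin 3) P3} {m : ℕ}
    (hδ : δ.IsHomogeneous 6)
    (hsm : ∀ z : Fin 3 → ℂ, z ≠ 0 → eval z δ = 0 → ∃ i, eval z (pderiv i δ) ≠ 0)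
    (hμ : μ.IsHomogeneous (2 * m + 1)) (hμδ : ¬ δ ∣ μ) (hMs : M.IsSymm)
    (hM : ∀ i j, (M i j).IsHomogeneous 2) (hMd : M.det = δ) (hc : c₃.IsHomogeneous 3)
    (hc0 : c₃ ≠ 0) (s : Fin 3 → P3) (hs : ∀ i, (s i).IsHomogeneous (m + 4))
    (hss : ∀ i j, δ ∣ s i * s j - μ * c₃ * M.adjugate i j)
    (hθ : ∀ τ t : P3, τ.IsHomogeneous 3 → t.IsHomogeneous 3 → δ ∣ τ ^ 2 - c₃ * t →
      ∃ a : ℂ, τ = C a * c₃) :
    finrank ℂ (IA μ δ M.adjugate m) = 3 * m.choose 2 + 1 := by
  have hirr : Irreducible δ := irreducible_of_smooth (by norm_num) hδ hsm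
  have hpr := hirr.prime
  have hδ0 : δ ≠ 0 := hirr.ne_zero
  have hc3 : ¬ δ ∣ c₃ := fun h => hc0 (eq_zero_of_dvd_lt hδ hδ0 hc (by norm_num) h)
  obtain ⟨A, hA⟩ : ∃ A, A = M.adjugate := ⟨_, rfl⟩
  have hAs : ∀ i j, A i j = A j i := by
    intro i j; rw [hA]; exact hMs.adjugate.apply j i
  have hAh : ∀ i j, (A i j).IsHomogeneous 4 := by
    intro i j
    have h2 : ∀ p q r s : Fin 3, (M p q * M r s).IsHomogeneous 4 :=
      fun p q r s => (hM p q).mul (hM r s)
    rw [hA, Matrix.adjugate_fin_three]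
    fin_cases i <;> fin_cases j
    exacts [(h2 1 1 2 2).sub (h2 1 2 2 1), (h2 0 1 2 2).neg.add (h2 0 2 2 1),
      (h2 0 1 1 2).sub (h2 0 2 1 1), (h2 1 0 2 2).neg.add (h2 1 2 2 0),
      (h2 0 0 2 2).sub (h2 0 2 2 0), (h2 0 0 1 2).neg.add (h2 0 2 1 0),
      (h2 1 0 2 1).sub (h2 1 1 2 0), (h2 0 0 2 1).neg.add (h2 0 1 2 0),
      (h2 0 0 1 1).sub (h2 0 1 1 0)]
  have hMA : M * A = δ • (1 : Matrix (Fin 3) (Fin 3) P3) := by
    rw [hA, Matrix.mul_adjugate, hMd]
  have hAM : A * M = δ • (1 : Matrix (Fin 3) (Fin 3) P3) := by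
    rw [hA, Matrix.adjugate_mul, hMd]
  rw [← hA] at hss ⊢
  have hH : ¬ δ ∣ μ * c₃ := fun h => (hpr.dvd_or_dvd h).elim hμδ hc3
  have hHh : (μ * c₃).IsHomogeneous (2 * m + 4) := hμ.mul hc
  obtain ⟨k, hk⟩ : ∃ k, ¬ δ ∣ s k := by
    by_contra hcon
    push Not at hcon
    have h0 : ∀ i j, A i j = 0 := by
      intro i j
      have h1 : δ ∣ μ * c₃ * A i j := by
        have h2 := dvd_sub ((hcon i).mul_right (s j)) (hss i j)
        rw [sub_sub_cancel] at h2
        exact h2
      exact eq_zero_of_dvd_lt hδ hδ0 (hAh i j) (by norm_num)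
        ((hpr.dvd_or_dvd h1).resolve_left hH)
    have h1 := congrFun (congrFun hMA 0) 0
    rw [Matrix.mul_apply] at h1
    simp only [h0, mul_zero, Finset.sum_const_zero, Matrix.smul_apply, Matrix.one_apply_eq,
      smul_eq_mul, mul_one] at h1
    exact hδ0 h1.symm
  -- products with `s k`
  have hsv : ∀ (v : Fin 3 → P3) (j : Fin 3), δ ∣ s j * (∑ i, s i * v i) -
      μ * c₃ * (∑ i, A j i * v i) := by
    intro v j
    have h1 : s j * (∑ i, s i * v i) - μ * c₃ * (∑ i, A j i * v i) =
        ∑ i, (s j * s i - μ * c₃ * A j i) * v i := by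
      rw [Finset.mul_sum, Finset.mul_sum, ← Finset.sum_sub_distrib]
      exact Finset.sum_congr rfl fun i _ => by ring
    rw [h1]
    exact Finset.dvd_sum fun i _ => (hss j i).mul_right _
  have hker : ∀ v : Fin 3 → P3, δ ∣ ∑ i, s i * v i → ∀ j, δ ∣ ∑ i, A j i * v i := by
    intro v hv j
    have h1 := dvd_sub (hv.mul_left (s j)) (hsv v j)
    rw [sub_sub_cancel] at h1
    exact (hpr.dvd_or_dvd h1).resolve_left hH
  -- the vector `q`
  have hMs0 : ∀ i, δ ∣ ∑ j, M i j * s j := by
    intro i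
    have h1 : δ ∣ s k * ∑ j, M i j * s j := by
      have h2 : s k * ∑ j, M i j * s j =
          ∑ j, M i j * (s j * s k - μ * c₃ * A j k) + μ * c₃ * ∑ j, M i j * A j k := by
        rw [Finset.mul_sum, Finset.mul_sum, ← Finset.sum_add_distrib]
        exact Finset.sum_congr rfl fun j _ => by ring
      rw [h2]
      refine dvd_add (Finset.dvd_sum fun j _ => (hss j k).mul_left _) ?_
      have h3 := congrFun (congrFun hMA i) k
      rw [Matrix.mul_apply] at h3
      rw [h3]
      exact (dvd_mul_right δ _).mul_left _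
    exact (hpr.dvd_or_dvd h1).resolve_left hk
  choose q hq using hMs0
  have hqh : ∀ i, (q i).IsHomogeneous m := by
    intro i
    apply x7_quot hδ hδ0
    rw [← hq]
    apply IsHomogeneous.sum
    intro j _
    have h1 := (hM i j).mul (hs j)
    have e : 2 + (m + 4) = 6 + m := by ring
    rw [e] at h1
    exact h1
  have hAq : ∀ i, ∑ j, A i j * q j = s i := by
    intro i
    apply mul_left_cancel₀ hδ0
    have h1 : δ * ∑ j, A i j * q j = ∑ j, A i j * ∑ l, M j l * s l := by
      rw [Finset.mul_sum]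
      exact Finset.sum_congr rfl fun j _ => by rw [hq]; ring
    rw [h1]
    have h2 := congrFun (congrArg (fun B => Matrix.mulVec B s) hAM) i
    simp only [← Matrix.mulVec_mulVec, Matrix.smul_mulVec, Matrix.one_mulVec] at h2
    exact h2
  have hsq : δ ∣ (∑ i, s i * q i) - μ * c₃ := by
    have h1 := hsv q k
    rw [hAq] at h1
    have h2 : s k * (∑ i, s i * q i) - μ * c₃ * s k = s k * ((∑ i, s i * q i) - μ * c₃) := by ring
    rw [h2] at h1
    exact (hpr.dvd_or_dvd h1).resolve_left hk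
  have hdot : ∀ v : Fin 3 → P3, v ⬝ᵥ A.mulVec v = ∑ i, v i * ∑ j, A i j * v j := fun v => rfl
  have hqIA : q ⬝ᵥ A.mulVec q ∈ Imd μ δ := by
    rw [hdot]
    simp only [hAq]
    obtain ⟨r, hr⟩ := hsq
    refine Ideal.mem_span_pair.mpr ⟨c₃, r, ?_⟩
    have h1 : ∑ i, q i * s i = ∑ i, s i * q i := Finset.sum_congr rfl fun i _ => mul_comm _ _
    rw [h1]
    linear_combination -hr
  -- the linear map
  obtain ⟨hfin, hdim⟩ := x7S_fin m
  let L : ((Fin 3 → x7S m) × ℂ) →ₗ[ℂ] (Fin 3 → P3) :=
    { toFun := fun p => fun i => (∑ j, M i j * (p.1 j : P3)) + C p.2 * q i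
      map_add' := by
        intro p p'
        funext i
        simp only [Prod.fst_add, Prod.snd_add, Pi.add_apply, Submodule.coe_add, map_add, mul_add,
          Finset.sum_add_distrib]
        ring
      map_smul' := by
        intro t p
        funext i
        simp only [Prod.smul_fst, Prod.smul_snd, Pi.smul_apply, Submodule.coe_smul, smul_eq_mul,
          map_mul, RingHom.id_apply, smul_eq_C_mul, mul_add, Finset.mul_sum]
        congr 1
        · exact Finset.sum_congr rfl fun j _ => by ring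
        · ring }
  have hLapp : ∀ p i, L p i = (∑ j, M i j * (p.1 j : P3)) + C p.2 * q i := fun p i => rfl
  have hAL : ∀ p i, ∑ j, A i j * L p j = δ * (p.1 i : P3) + C p.2 * s i := by
    intro p i
    simp only [hLapp, mul_add, Finset.sum_add_distrib]
    congr 1
    · have h2 := congrFun (congrArg (fun B => Matrix.mulVec B (fun j => (p.1 j : P3))) hAM) i
      simp only [← Matrix.mulVec_mulVec, Matrix.smul_mulVec, Matrix.one_mulVec] at h2
      exact h2
    · rw [← hAq, Finset.mul_sum]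
      exact Finset.sum_congr rfl fun j _ => by ring
  have hinj : Function.Injective L := by
    rw [injective_iff_map_eq_zero]
    intro p hp
    have h1 : ∀ i, δ * (p.1 i : P3) + C p.2 * s i = 0 := by
      intro i
      rw [← hAL, hp]
      simp
    have h2 : p.2 = 0 := by
      by_contra h
      apply hk
      have h3 : δ ∣ C p.2 * s k := ⟨-(p.1 k : P3), by linear_combination h1 k⟩
      refine (hpr.dvd_or_dvd h3).resolve_left fun h4 => ?_
      exact hpr.not_isUnit (isUnit_of_dvd_unit h4 ((isUnit_iff_ne_zero.mpr h).map C))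
    refine Prod.ext ?_ h2
    funext i
    have h3 := h1 i
    rw [h2, C_0, zero_mul, add_zero] at h3
    exact Subtype.ext ((mul_eq_zero.mp h3).resolve_left hδ0)
  have hrange : LinearMap.range L = IA μ δ A m := by
    apply le_antisymm
    · rintro _ ⟨p, rfl⟩
      rw [hA, mem_IA hδ hsm hμ hμδ hMs hM hMd, ← hA]
      refine ⟨?_, ?_⟩
      · intro i
        rw [hLapp]
        refine IsHomogeneous.add ?_ ((hqh i).C_mul _)
        apply IsHomogeneous.sum
        intro j _
        have h1 : (p.1 j : P3) ∈ x7S m := (p.1 j).2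
        unfold x7S at h1
        split_ifs at h1 with h
        · have h2 := (hM i j).mul (show (p.1 j : P3).IsHomogeneous (m - 2) from h1)
          have e : 2 + (m - 2) = m := by omega
          rw [e] at h2
          exact h2
        · rw [(Submodule.mem_bot ℂ).mp h1, mul_zero]
          exact isHomogeneous_zero _ _ _
      · rw [hdot]
        simp only [hAL]
        have h1 : ∑ i, L p i * (δ * (p.1 i : P3) + C p.2 * s i) =
            δ * (∑ i, L p i * (p.1 i : P3)) + C p.2 * ∑ i, s i * L p i := by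
          rw [Finset.mul_sum, Finset.mul_sum, ← Finset.sum_add_distrib]
          exact Finset.sum_congr rfl fun i _ => by ring
        have h2 : ∑ i, s i * L p i = (∑ i, (p.1 i : P3) * ∑ j, M i j * s j) +
            C p.2 * ∑ i, s i * q i := by
          simp only [hLapp, mul_add, Finset.sum_add_distrib, Finset.mul_sum]
          congr 1
          · rw [Finset.sum_comm]
            refine Finset.sum_congr rfl fun i _ => Finset.sum_congr rfl fun j _ => ?_
            rw [hMs.apply i j]; ring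
          · exact Finset.sum_congr rfl fun i _ => by ring
        obtain ⟨r, hr⟩ := hsq
        rw [h1, h2]
        simp only [hq]
        have h3 : ∑ i, (p.1 i : P3) * (δ * q i) = δ * ∑ i, (p.1 i : P3) * q i := by
          rw [Finset.mul_sum]
          exact Finset.sum_congr rfl fun i _ => by ring
        rw [h3]
        refine Ideal.mem_span_pair.mpr ⟨C p.2 * (C p.2 * c₃),
          (∑ i, L p i * (p.1 i : P3)) + C p.2 * (∑ i, (p.1 i : P3) * q i) +
            C p.2 * (C p.2 * r), ?_⟩
        linear_combination -(C p.2 * C p.2) * hr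
    · intro a ha
      rw [hA, mem_IA hδ hsm hμ hμδ hMs hM hMd, ← hA] at ha
      obtain ⟨hah, haI⟩ := ha
      have hpol : (a ⬝ᵥ A.mulVec a).IsHomogeneous (2 * m + 4) := by
        rw [hdot]
        apply IsHomogeneous.sum
        intro i _
        have h1 : (∑ j, A i j * a j).IsHomogeneous (4 + m) := by
          apply IsHomogeneous.sum
          intro j _
          exact (hAh i j).mul (hah j)
        have h2 := (hah i).mul h1
        have e : m + (4 + m) = 2 * m + 4 := by ring
        rw [e] at h2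
        exact h2
      obtain ⟨t, r, htr, ht, -⟩ := hom_Imd hδ hμ hpol haI
      have ht3 : t.IsHomogeneous 3 := by
        rcases ht with h | ⟨_, h⟩
        · rw [h]; exact isHomogeneous_zero _ _ _
        · have e : 2 * m + 4 - (2 * m + 1) = 3 := by omega
          rw [e] at h
          exact h
      have hT : (∑ i, s i * a i).IsHomogeneous (2 * m + 4) := by
        apply IsHomogeneous.sum
        intro i _
        have h2 := (hs i).mul (hah i)
        have e : m + 4 + m = 2 * m + 4 := by ring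
        rw [e] at h2
        exact h2
      have hT2 : δ ∣ (∑ i, s i * a i) ^ 2 - μ * c₃ * (a ⬝ᵥ A.mulVec a) := by
        have h1 : (∑ i, s i * a i) ^ 2 - μ * c₃ * (a ⬝ᵥ A.mulVec a) =
            ∑ j, a j * (s j * (∑ i, s i * a i) - μ * c₃ * (∑ i, A j i * a i)) := by
          rw [hdot, Finset.mul_sum, pow_two]
          conv_lhs => rw [Finset.sum_mul]
          rw [← Finset.sum_sub_distrib]
          exact Finset.sum_congr rfl fun j _ => by ring
        rw [h1]
        exact Finset.dvd_sum fun j _ => (hsv a j).mul_left _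
      obtain ⟨τ, hτ, hτd⟩ := Pool.Agent.Helper5.HP.norm_dvd δ hδ hsm (w := c₃ * t) hT hμ (by omega)
        hμδ (by
          obtain ⟨u, hu⟩ := hT2
          refine ⟨u + μ * c₃ * r, ?_⟩
          rw [htr] at hu
          linear_combination hu)
      have e3 : 2 * m + 4 - (2 * m + 1) = 3 := by omega
      rw [e3] at hτ
      have hτt : δ ∣ τ ^ 2 - c₃ * t := by
        have h1 : δ ∣ μ ^ 2 * (τ ^ 2 - c₃ * t) := by
          obtain ⟨u, hu⟩ := hT2
          obtain ⟨v, hv⟩ := hτd
          refine ⟨u + μ * c₃ * r - v * (∑ i, s i * a i + μ * τ), ?_⟩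
          rw [htr] at hu
          linear_combination hu - (∑ i, s i * a i + μ * τ) * hv
        exact (hpr.dvd_or_dvd h1).resolve_left fun h => hμδ (hpr.dvd_of_dvd_pow h)
      obtain ⟨l, hl⟩ := hθ τ t hτ ht3 hτt
      have h0 : δ ∣ ∑ i, s i * (a i - C l * q i) := by
        have h1 : ∑ i, s i * (a i - C l * q i) = (∑ i, s i * a i) - C l * ∑ i, s i * q i := by
          rw [Finset.mul_sum, ← Finset.sum_sub_distrib]
          exact Finset.sum_congr rfl fun i _ => by ring
        rw [h1]
        obtain ⟨u, hu⟩ := hτd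
        obtain ⟨v, hv⟩ := hsq
        refine ⟨u - C l * v, ?_⟩
        rw [hl] at hu
        linear_combination hu - (C l) * hv
      have hb := hker _ h0
      choose b hb using hb
      have hbS : ∀ i, b i ∈ x7S m := by
        intro i
        refine x7S_mem hδ hδ0 ?_ (hb i)
        apply IsHomogeneous.sum
        intro j _
        exact (hAh i j).mul ((hah j).sub ((hqh j).C_mul l))
      refine ⟨(fun i => ⟨b i, hbS i⟩, l), ?_⟩
      funext i
      rw [hLapp]
      have h1 : δ * (∑ j, M i j * b j) = δ * (a i - C l * q i) := by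
        have h2 := congrFun (congrArg (fun B => Matrix.mulVec B (fun j => a j - C l * q j)) hMA) i
        simp only [← Matrix.mulVec_mulVec, Matrix.smul_mulVec, Matrix.one_mulVec] at h2
        change _ = δ * (a i - C l * q i) at h2
        rw [← h2, Finset.mul_sum]
        change _ = ∑ j, M i j * (∑ l', A j l' * (a l' - C l * q l'))
        exact Finset.sum_congr rfl fun j _ => by rw [hb]; ring
      have h3 := mul_left_cancel₀ hδ0 h1
      change (∑ j, M i j * b j) + C l * q i = a i
      rw [h3]; ring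
  rw [← hrange, LinearMap.finrank_range_of_inj hinj, finrank_prod, finrank_pi_fintype,
    finrank_self]
  simp only [hdim, Finset.sum_const, Finset.card_univ, Fintype.card_fin, smul_eq_mul]

open Pool.Agent.Helper16 in
theorem theta_unique {c : Cub (I6 → ℂ)}
    (hsm : ∀ z : Fin 3 → ℂ, z ≠ 0 → eval z c.disc = 0 → ∃ i, eval z (pderiv i c.disc) ≠ 0)
    {τ t : P3} (hτ : τ.IsHomogeneous 3) (ht : t.IsHomogeneous 3)
    (h : c.disc ∣ τ ^ 2 - (c.Nm (X : Fin 3 → P3)).adjugate 3 3 * t) :
    ∃ a : ℂ, τ = C a * (c.Nm (X : Fin 3 → P3)).adjugate 3 3 :=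
  Pool.Agent.Helper29.OS.theta_unique hsm hτ ht h

end Pool.Agent.Helper89.OS
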