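import Mathlib

set_option autoImplicit false

/-!
Piece X1.  Parity of the intersections of three Lagrangian subspaces.

Proof.  Let `n = dim U₀`, `dim E = 2 n`.  Each `U_i` equals its orthogonal.  For `x ∈ U₀ ⊓ (U₁ ⊔ U₂)`
write `x = x₁ + x₂`; the form `a(x, x') = b(x₁, x')` on `U₀ ⊓ (U₁ ⊔ U₂)` is well defined (if
`x₁ + x₂ = 0` then `x₁ ∈ U₁ ⊓ U₂` is orthogonal to `U₁ ⊔ U₂`), bilinear and alternating
(`a(x,x) = b(x₁, x₁ + x₂) = b(x₁,x₂)` and `0 = b(x,x) = 2 b(x₁,x₂)`), with radical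
`(U₀ ⊓ U₁) ⊔ (U₀ ⊓ U₂)`; hence `dim (U₀ ⊓ (U₁ ⊔ U₂)) - dim ((U₀ ⊓ U₁) ⊔ (U₀ ⊓ U₂))` is even.  Moreover
`U₁ ⊔ U₂ = (U₁ ⊓ U₂)^⊥`, so `dim (U₀ ⊓ (U₁ ⊔ U₂)) = n - dim (U₁ ⊓ U₂) + dim (U₀ ⊓ U₁ ⊓ U₂)`, and
`dim ((U₀ ⊓ U₁) ⊔ (U₀ ⊓ U₂)) = d₀₁ + d₀₂ - dim (U₀ ⊓ U₁ ⊓ U₂)`.
-/

namespace Pool.Agent.Helper89.OS

open Module

/-- a nondegenerate alternating form lives in even dimension -/
theorem alt_even {L : Type*} [AddCommGroup L] [Module ℂ L] [FiniteDimensional ℂ L]
    (τ : L →ₗ[ℂ] L →ₗ[ℂ] ℂ) (ha : ∀ x, τ x x = 0) (hnd : ∀ x, (∀ y, τ x y = 0) → x = 0) :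
    finrank ℂ L % 2 = 0 := by
  classical
  by_contra hodd
  have hodd' : Odd (finrank ℂ L) := by
    rw [Nat.odd_iff]; omega
  let v := finBasis ℂ L
  let A : Matrix (Fin (finrank ℂ L)) (Fin (finrank ℂ L)) ℂ := Matrix.of fun i j => τ (v i) (v j)
  have hskew : ∀ x y, τ x y = - τ y x := by
    intro x y
    have h := ha (x + y)
    rw [map_add, map_add, LinearMap.add_apply, LinearMap.add_apply, ha, ha] at h
    linear_combination h
  have hA : A.transpose = -A := by
    ext i j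
    simp [A, hskew (v j) (v i)]
  have hdet : A.det = 0 := by
    have h1 : A.det = -A.det := by
      calc A.det = A.transpose.det := (Matrix.det_transpose A).symm
        _ = (-A).det := by rw [hA]
        _ = (-1) ^ (finrank ℂ L) * A.det := by rw [Matrix.det_neg, Fintype.card_fin]
        _ = -A.det := by rw [hodd'.neg_one_pow]; ring
    have : (2 : ℂ) * A.det = 0 := by linear_combination h1
    simpa using this
  obtain ⟨w, hw0, hw⟩ := Matrix.exists_vecMul_eq_zero_iff.mpr hdet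
  apply hw0
  have hx : ∑ i, w i • v i = 0 := by
    apply hnd
    intro y
    have hy : y = ∑ j, v.repr y j • v j := (v.sum_repr y).symm
    rw [hy, map_sum]
    apply Finset.sum_eq_zero
    intro j _
    rw [map_smul, map_sum, LinearMap.sum_apply]
    have := congrFun hw j
    simp only [Matrix.vecMul, dotProduct, A, Matrix.of_apply, Pi.zero_apply] at this
    simp only [map_smul, LinearMap.smul_apply, smul_eq_mul, this, mul_zero]
  have := v.linearIndependent
  rw [Fintype.linearIndependent_iff] at this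
  funext i
  exact this w hx i

/-- the rank of an alternating form is even -/
theorem alt_rank_even {L : Type*} [AddCommGroup L] [Module ℂ L] [FiniteDimensional ℂ L]
    (τ : L →ₗ[ℂ] L →ₗ[ℂ] ℂ) (ha : ∀ x, τ x x = 0) :
    (finrank ℂ L + finrank ℂ (LinearMap.ker τ)) % 2 = 0 := by
  have hskew : ∀ x y, τ x y = - τ y x := by
    intro x y
    have h := ha (x + y)
    rw [map_add, map_add, LinearMap.add_apply, LinearMap.add_apply, ha, ha] at h
    linear_combination h
  obtain ⟨C, hC⟩ := Submodule.exists_isCompl (LinearMap.ker τ)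
  have h1 : finrank ℂ C % 2 = 0 := by
    apply alt_even (τ.domRestrict₁₂ C C)
    · intro x
      exact ha x
    · intro x hx
      have hk : (x : L) ∈ LinearMap.ker τ := by
        rw [LinearMap.mem_ker]
        ext y
        have hy : y ∈ LinearMap.ker τ ⊔ C := by rw [hC.sup_eq_top]; trivial
        obtain ⟨k, hk, c, hc, rfl⟩ := Submodule.mem_sup.mp hy
        rw [map_add, hskew _ k, LinearMap.mem_ker.mp hk]
        have := hx ⟨c, hc⟩
        simp only [LinearMap.domRestrict₁₂_apply] at this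
        simp [this]
      have hb : (x : L) ∈ LinearMap.ker τ ⊓ C := ⟨hk, x.2⟩
      rw [hC.inf_eq_bot, Submodule.mem_bot] at hb
      exact Subtype.ext hb
  have h2 := Submodule.finrank_add_eq_of_isCompl hC
  omega

theorem orth_sup {E : Type*} [AddCommGroup E] [Module ℂ E] (B : LinearMap.BilinForm ℂ E)
    (P Q : Submodule ℂ E) : B.orthogonal (P ⊔ Q) = B.orthogonal P ⊓ B.orthogonal Q := by
  apply le_antisymm
  · exact le_inf (B.orthogonal_le le_sup_left) (B.orthogonal_le le_sup_right)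
  · rintro x ⟨h1, h2⟩ y hy
    obtain ⟨p, hp, q, hq, rfl⟩ := Submodule.mem_sup.mp hy
    have h3 : B p x = 0 := h1 p hp
    have h4 : B q x = 0 := h2 q hq
    change B (p + q) x = 0
    rw [map_add, LinearMap.add_apply, h3, h4, add_zero]

theorem lag3 {E : Type*} [AddCommGroup E] [Module ℂ E] [FiniteDimensional ℂ E]
    (b : E →ₗ[ℂ] E →ₗ[ℂ] ℂ) (hsym : ∀ x y, b x y = b y x)
    (hnd : ∀ x, (∀ y, b x y = 0) → x = 0) (U : Fin 3 → Submodule ℂ E)
    (hU : ∀ i, ∀ x ∈ U i, ∀ y ∈ U i, b x y = 0)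
    (hd : ∀ i, 2 * finrank ℂ (U i) = finrank ℂ E) :
    (finrank ℂ ↥(U 0 ⊓ U 1) + finrank ℂ ↥(U 1 ⊓ U 2) + finrank ℂ ↥(U 0 ⊓ U 2) +
      finrank ℂ (U 0)) % 2 = 0 := by
  classical
  let B : LinearMap.BilinForm ℂ E := b
  have hrefl : B.IsRefl := fun x y h => by
    change b y x = 0
    rw [hsym]; exact h
  have hBnd : B.Nondegenerate := by
    refine ⟨fun x hx => hnd x hx, fun x hx => hnd x fun y => ?_⟩
    rw [hsym]; exact hx y
  have hself : ∀ i, B.orthogonal (U i) = U i := by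
    intro i
    symm
    apply Submodule.eq_of_le_of_finrank_le
    · intro x hx y hy
      exact hU i y hy x hx
    · rw [LinearMap.BilinForm.finrank_orthogonal hBnd]
      have := hd i
      omega
  have hoo := LinearMap.BilinForm.orthogonal_orthogonal hBnd hrefl
  have h12 : B.orthogonal (U 1 ⊔ U 2) = U 1 ⊓ U 2 := by rw [orth_sup, hself, hself]
  have h12' : B.orthogonal (U 1 ⊓ U 2) = U 1 ⊔ U 2 := by rw [← h12, hoo]
  set W : Submodule ℂ E := U 0 ⊓ (U 1 ⊔ U 2) with hW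
  have hWo : B.orthogonal W = U 0 ⊔ (U 1 ⊓ U 2) := by
    have : B.orthogonal (U 0 ⊔ (U 1 ⊓ U 2)) = W := by rw [orth_sup, hself, h12']
    rw [← this, hoo]
  -- the section
  let f : (U 1 × U 2) →ₗ[ℂ] ↥(U 1 ⊔ U 2) :=
    LinearMap.coprod (Submodule.inclusion le_sup_left) (Submodule.inclusion le_sup_right)
  have hf : Function.Surjective f := by
    rintro ⟨x, hx⟩
    obtain ⟨p, hp, q, hq, rfl⟩ := Submodule.mem_sup.mp hx
    exact ⟨(⟨p, hp⟩, ⟨q, hq⟩), Subtype.ext (by simp [f])⟩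
  obtain ⟨s, hs⟩ := f.exists_rightInverse_of_surjective (LinearMap.range_eq_top.mpr hf)
  let p : W →ₗ[ℂ] E :=
    (U 1).subtype.comp ((LinearMap.fst ℂ (U 1) (U 2)).comp
      (s.comp (Submodule.inclusion (inf_le_right : W ≤ U 1 ⊔ U 2))))
  have hp1 : ∀ x : W, p x ∈ U 1 := fun x => Subtype.mem _
  have hp2 : ∀ x : W, (x : E) - p x ∈ U 2 := by
    intro x
    have h1 := LinearMap.congr_fun hs (Submodule.inclusion (inf_le_right : W ≤ U 1 ⊔ U 2) x)
    have h2 := congrArg (fun z : ↥(U 1 ⊔ U 2) => (z : E)) h1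
    simp only [LinearMap.comp_apply, LinearMap.id_apply, f, LinearMap.coprod_apply,
      Submodule.coe_add, Submodule.coe_inclusion] at h2
    have h3 : (x : E) - p x =
        ((s (Submodule.inclusion (inf_le_right : W ≤ U 1 ⊔ U 2) x)).2 : E) := by
      rw [← h2]
      simp [p]
    rw [h3]
    exact Subtype.mem _
  let τ : W →ₗ[ℂ] W →ₗ[ℂ] ℂ := (b.comp p).compl₂ W.subtype
  have hτ : ∀ x y : W, τ x y = b (p x) y := fun x y => rfl
  have halt : ∀ x, τ x x = 0 := by
    intro x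
    rw [hτ]
    have h1 : b (x : E) x = 0 := hU 0 x x.2.1 x x.2.1
    have h2 : b (p x) (p x) = 0 := hU 1 _ (hp1 x) _ (hp1 x)
    have h3 : b ((x : E) - p x) ((x : E) - p x) = 0 := hU 2 _ (hp2 x) _ (hp2 x)
    rw [map_sub, map_sub, LinearMap.sub_apply, LinearMap.sub_apply, h1, h2,
      hsym (x : E) (p x)] at h3
    have h4 : (2 : ℂ) * b (p x) x = 0 := by linear_combination -h3
    simpa using h4
  have hev := alt_rank_even τ halt
  have hker : (LinearMap.ker τ).map W.subtype = (U 0 ⊓ U 1) ⊔ (U 0 ⊓ U 2) := by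
    apply le_antisymm
    · rintro x ⟨y, hy, rfl⟩
      have hy' : p y ∈ B.orthogonal W := by
        intro z hz
        change b z (p y) = 0
        rw [hsym]
        have := LinearMap.congr_fun (LinearMap.mem_ker.mp hy) ⟨z, hz⟩
        simpa [hτ] using this
      rw [hWo] at hy'
      obtain ⟨u, hu, w, hw, huw⟩ := Submodule.mem_sup.mp hy'
      have e1 : (W.subtype y : E) = u + ((y : E) - p y + w) := by
        rw [← huw, Submodule.subtype_apply]; abel
      rw [e1]
      have hu1 : u ∈ U 1 := by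
        have : u = p y - w := by rw [← huw]; abel
        rw [this]
        exact (U 1).sub_mem (hp1 y) hw.1
      have h2 : (y : E) - p y + w ∈ U 2 := (U 2).add_mem (hp2 y) hw.2
      have h0 : (y : E) - p y + w ∈ U 0 := by
        have : (y : E) - p y + w = y - u := by rw [← huw]; abel
        rw [this]
        exact (U 0).sub_mem y.2.1 hu
      exact Submodule.add_mem_sup ⟨hu, hu1⟩ ⟨h0, h2⟩
    · rw [sup_le_iff]
      have hz : ∀ w ∈ U 1 ⊓ U 2, ∀ z : W, b w z = 0 := by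
        intro w hw z
        rw [← h12] at hw
        rw [hsym]
        exact hw z z.2.2
      constructor
      · rintro x ⟨hx0, hx1⟩
        refine ⟨⟨x, hx0, Submodule.mem_sup_left hx1⟩, ?_, rfl⟩
        rw [SetLike.mem_coe, LinearMap.mem_ker]
        ext z
        rw [hτ, LinearMap.zero_apply]
        set xx : W := ⟨x, hx0, Submodule.mem_sup_left hx1⟩ with hxx
        have h1 : x - p xx ∈ U 1 ⊓ U 2 := ⟨(U 1).sub_mem hx1 (hp1 xx), hp2 xx⟩
        have h2 := hz _ h1 z
        rw [map_sub, LinearMap.sub_apply, hU 0 x hx0 z z.2.1, zero_sub, neg_eq_zero] at h2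
        exact h2
      · rintro x ⟨hx0, hx2⟩
        refine ⟨⟨x, hx0, Submodule.mem_sup_right hx2⟩, ?_, rfl⟩
        rw [SetLike.mem_coe, LinearMap.mem_ker]
        ext z
        rw [hτ, LinearMap.zero_apply]
        set xx : W := ⟨x, hx0, Submodule.mem_sup_right hx2⟩ with hxx
        have h1 : p xx ∈ U 1 ⊓ U 2 := by
          refine ⟨hp1 xx, ?_⟩
          have : p xx = x - (x - p xx) := by abel
          rw [this]
          exact (U 2).sub_mem hx2 (hp2 xx)
        exact hz _ h1 z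
  have hkd : finrank ℂ (LinearMap.ker τ) = finrank ℂ ↥((U 0 ⊓ U 1) ⊔ (U 0 ⊓ U 2)) := by
    rw [← hker]
    exact (LinearEquiv.finrank_eq
      (Submodule.equivMapOfInjective W.subtype W.injective_subtype (LinearMap.ker τ)))
  have e1 := Submodule.finrank_sup_add_finrank_inf_eq (U 1) (U 2)
  have e2 := Submodule.finrank_sup_add_finrank_inf_eq (U 0) (U 1 ⊔ U 2)
  have e3 := Submodule.finrank_sup_add_finrank_inf_eq (U 0 ⊓ U 1) (U 0 ⊓ U 2)
  have e4 : B.orthogonal (U 0 ⊔ (U 1 ⊔ U 2)) = (U 0 ⊓ U 1) ⊓ (U 0 ⊓ U 2) := by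
    rw [orth_sup, orth_sup, hself, hself, hself]
    ext x
    simp only [Submodule.mem_inf]
    tauto
  have e5 := LinearMap.BilinForm.finrank_orthogonal hBnd (U 0 ⊔ (U 1 ⊔ U 2))
  rw [e4] at e5
  have e6 : finrank ℂ ↥(U 0 ⊔ (U 1 ⊔ U 2)) ≤ finrank ℂ E := Submodule.finrank_le _
  have d0 := hd 0
  have d1 := hd 1
  have d2 := hd 2
  rw [← hW] at e2
  omega

end Pool.Agent.Helper89.OS
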