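import Pool.Agent.Helper29.OS.DetNU

set_option autoImplicit false

/-!
Piece X16.  If `δ = det MX a` is smooth then `det NU a ≠ 0` (see `Helper29/OS/DetNU.lean`).
-/

namespace Pool.Agent.Helper89.OS

open MvPolynomial Pool.Agent.Helper29.HP Pool.Agent.Helper89.VE

theorem NU_det_ne_zero {a : Cof} (ha : a.Symm)
    (hsm : ∀ z : Fin 3 → ℂ, z ≠ 0 → eval z (MX a).det = 0 →
      ∃ i, eval z (pderiv i (MX a).det) ≠ 0) : (NU a).det ≠ 0 :=
  Pool.Agent.Helper29.OS.det_NU_ne_zero ha hsm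

end Pool.Agent.Helper89.OS
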