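import Pool.Agent.Helper89.OS.St.X6
import Pool.Agent.Helper29.OS.VFmem

set_option autoImplicit false

/-!
Piece X6b.  Stability of `VF` under the quaternion algebra.

`VF_c`: `c_i (f, a) = (-(A a)_i, f e_i + M (e_i × a))`.  `(A a)_i^2 ∈ (μ, δ)` since
`A_ii (a ⬝ A a) - (A a)_i^2` is divisible by `δ` (`adj A = δ M`); `f e_i ∈ IA` because
`f^2 A_ii ∈ (μ, δ)`; `M b ∈ IA` because `b ⬝ M A M b = δ (b ⬝ M b)`.

`VF_g`: with `c_k' = (0, M e_k)`: `c_k' (f, a) = (-δ a_k, f M e_k + δ-free part)`; explicitly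
`M (M e_k × a) = e_k × (δ M⁻¹..)`, i.e. `M ((M e_k) × a) = e_k × (A a)` (identity for symmetric `M`).
So `c_k' (f, a) = (-δ a_k, f M e_k + e_k × A a)`.  `g^2 ∈ (μ, δ)` (from `hgh`), so by `mul_mem`
`g f = μ t₀ + δ r₀`, and `g (A a)_l = μ t_l + δ r_l` (as `(A a)_l^2 ∈ (μ, δ)`).  In `KG μ`:
`(g/δ) c_k' (f, a) = (-g a_k, r₀ M e_k + e_k × r)`.  First component: `(g a_k)^2 ∈ (μ, δ)`.  Second:
`r₀ M e_k ∈ IA`; for `b = e_k × r` use `(x × y) ⬝ A (x × y) = (x ⬝ M x)(y ⬝ M y) - (x ⬝ M y)^2`: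
`b ⬝ A b = M_kk (r ⬝ M r) - ((M r)_k)^2`.  From `δ r = g A a - μ t`: `δ M r = g δ a - μ M t`, so
`M t = δ c` and `M r = g a - μ c` (`δ`, `μ` coprime); `((M r)_k)^2 ∈ (μ, δ)`.  And
`δ (r ⬝ M r) = δ (g a ⬝ r - μ c ⬝ r)`, `δ (a ⬝ r) = g (a ⬝ A a) - μ (a ⬝ t)`,
`a ⬝ A a = μ t' + δ r'`, so `a ⬝ r = g r' + μ q`, and `r ⬝ M r ≡ g^2 r' ≡ 0` modulo `(μ, δ)`.
Degrees: `r₀` has degree `e + 3 + (j+m+2) - 6`, `r` has degree `e + 3 + (j+m+4) - 6`.
(If a form is zero its degree is irrelevant; use `hom_Imd`.)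
-/

namespace Pool.Agent.Helper89.OS

open MvPolynomial Pool.Agent.Helper29.HP Module Pool.Agent.Helper29.OS Pool.Agent.Helper16

variable {δ μ g h : P3} {M : Matrix (Fin 3) (Fin 3) P3} {m e : ℕ}

/-- values of the norm form on `f x + M b` -/
theorem x6b_norm {R : Type*} [CommRing R] {M : Matrix (Fin 3) (Fin 3) R} (hM : M.IsSymm) (f : R)
    (x b : Fin 3 → R) :
    (f • x + M.mulVec b) ⬝ᵥ M.adjugate.mulVec (f • x + M.mulVec b) =
      f ^ 2 * (x ⬝ᵥ M.adjugate.mulVec x) +
        M.det * (2 * f * (x ⬝ᵥ b) + b ⬝ᵥ M.mulVec b) := by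
  have h1 : M.adjugate.mulVec (M.mulVec b) = M.det • b := by
    rw [Matrix.mulVec_mulVec, Matrix.adjugate_mul, Matrix.smul_mulVec, Matrix.one_mulVec]
  have h2 : (M.mulVec b) ⬝ᵥ M.adjugate.mulVec x = M.det * (x ⬝ᵥ b) := by
    rw [Matrix.dotProduct_mulVec, ← Matrix.mulVec_transpose, Matrix.adjugate_transpose, hM.eq, h1,
      smul_dotProduct, smul_eq_mul, dotProduct_comm]
  rw [Matrix.mulVec_add, Matrix.mulVec_smul, h1, add_dotProduct, dotProduct_add, dotProduct_add,
    smul_dotProduct, smul_dotProduct, dotProduct_smul, dotProduct_smul, dotProduct_smul, h2]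
  simp only [smul_eq_mul, dotProduct_smul, dotProduct_comm (M.mulVec b) b]
  ring

theorem VF_c (D : Dat δ μ g h M m e) {j : ℤ} {v : W4 (KG μ)}
    (hv : v ∈ VF μ δ M.adjugate m j) (i : Fin 3) :
    qm (MG μ M) (0, Pi.single i 1) v ∈ VF μ δ M.adjugate m (j + 2) := by
  obtain ⟨f, a, rfl, hf, hf2, ha, ha2⟩ := (mem_VF D).mp hv
  rw [mem_VF D]
  have hA : (MG μ M).adjugate = M.adjugate.map (ev μ) :=
    (RingHom.map_adjugate ((ev μ : P3 →ₐ[ℂ] KG μ) : P3 →+* KG μ) M).symm
  refine ⟨-(M.adjugate.mulVec a i), fun l => (f • (Pi.single i 1 : Fin 3 → P3) +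
    M.mulVec (crossProduct (Pi.single i 1) a)) l, ?_, ?_, ?_, ?_, ?_⟩
  · refine Prod.ext ?_ ?_
    · simp only [qm, hA]
      rw [single_dotProduct]
      simp [Matrix.mulVec, dotProduct]
    · funext l
      simp only [qm, MG, zero_smul, zero_add, Pi.add_apply, Pi.smul_apply, map_add, smul_eq_mul,
        map_mul]
      congr 1
      · congr 1
        by_cases hl : l = i
        · subst hl; simp
        · simp [hl]
      · simp only [Matrix.mulVec, dotProduct, Matrix.map_apply, map_sum, map_mul]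
        refine Finset.sum_congr rfl fun n _ => ?_
        congr 1
        fin_cases n <;> simp [crossProduct, Pi.single_apply] <;> split_ifs <;> simp
  · refine HZ.neg ?_
    have h1 : HZ (M.adjugate.mulVec a i) (4 + (j + m)) := by
      simp only [Matrix.mulVec, dotProduct]
      exact HZ.sum _ _ fun l _ => (A_hz D i l).mul (ha l)
    exact h1.congr (by ring)
  · rw [neg_sq]
    exact Aa_sq D ha2 i
  · intro l
    change HZ (f * (Pi.single i 1 : Fin 3 → P3) l +
      M.mulVec (crossProduct (Pi.single i 1) a) l) (j + 2 + m)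
    refine HZ.add ?_ ?_
    · rw [Pi.single_apply]
      split_ifs
      · rw [mul_one]
        exact hf.congr (by ring)
      · rw [mul_zero]
        exact HZ.zero _
    · simp only [Matrix.mulVec, dotProduct]
      have h1 : ∀ n, HZ ((crossProduct (Pi.single i 1) a) n) (j + m) := by
        intro n
        have h2 : ∀ p q : Fin 3, HZ ((Pi.single i 1 : Fin 3 → P3) p * a q) (j + m) := by
          intro p q
          rw [Pi.single_apply]
          split_ifs
          · rw [one_mul]; exact ha q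
          · rw [zero_mul]; exact HZ.zero _
        fin_cases n
        · exact (h2 1 2).sub (h2 2 1)
        · exact (h2 2 0).sub (h2 0 2)
        · exact (h2 0 1).sub (h2 1 0)
      refine HZ.sum _ _ fun n _ => ?_
      exact ((M_hz D l n).mul (h1 n)).congr (by ring)
  · change (f • (Pi.single i 1 : Fin 3 → P3) + M.mulVec (crossProduct (Pi.single i 1) a)) ⬝ᵥ
      M.adjugate.mulVec (f • (Pi.single i 1 : Fin 3 → P3) +
        M.mulVec (crossProduct (Pi.single i 1) a)) ∈ Imd μ δ
    rw [x6b_norm D.hMs, D.hMd]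
    exact Ideal.add_mem _ (Ideal.mul_mem_right _ _ hf2) (δ_mem _ _ _)

/-- the cross product identity -/
theorem x6b_cross {R : Type*} [CommRing R] {M : Matrix (Fin 3) (Fin 3) R} (hM : M.IsSymm)
    (a : Fin 3 → R) (k : Fin 3) :
    M.mulVec (crossProduct (fun i => M i k) a) =
      crossProduct (Pi.single k 1) (M.adjugate.mulVec a) := by
  have h10 : M 1 0 = M 0 1 := hM.apply 0 1
  have h20 : M 2 0 = M 0 2 := hM.apply 0 2
  have h21 : M 2 1 = M 1 2 := hM.apply 1 2
  funext l
  rw [Matrix.adjugate_fin_three]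
  fin_cases k <;> fin_cases l <;>
    simp [Matrix.mulVec, dotProduct, Fin.sum_univ_three, crossProduct, h10, h20, h21] <;> ring

/-- the norm of a cross product with a basis vector -/
theorem x6b_cross_norm {R : Type*} [CommRing R] {M : Matrix (Fin 3) (Fin 3) R} (hM : M.IsSymm)
    (r : Fin 3 → R) (k : Fin 3) :
    (crossProduct (Pi.single k 1) r) ⬝ᵥ M.adjugate.mulVec (crossProduct (Pi.single k 1) r) =
      M k k * (r ⬝ᵥ M.mulVec r) - (M.mulVec r k) ^ 2 := by
  have h10 : M 1 0 = M 0 1 := hM.apply 0 1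
  have h20 : M 2 0 = M 0 2 := hM.apply 0 2
  have h21 : M 2 1 = M 1 2 := hM.apply 1 2
  rw [Matrix.adjugate_fin_three]
  fin_cases k <;>
    simp [Matrix.mulVec, dotProduct, Fin.sum_univ_three, crossProduct, h10, h20, h21] <;> ring

theorem x6b_ev {R : Type*} [CommRing R] [Algebra ℂ R] (ψ : P3 →ₐ[ℂ] R) (k l : Fin 3)
    (w : Fin 3 → P3) : ψ ((crossProduct (Pi.single k 1) w) l) =
      (crossProduct (Pi.single k 1) (fun i => ψ (w i))) l := by
  fin_cases k <;> fin_cases l <;> simp [crossProduct]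

theorem VF_g (D : Dat δ μ g h M m e) {j : ℤ} {v : W4 (KG μ)}
    (hv : v ∈ VF μ δ M.adjugate m j) (k : Fin 3) :
    ∃ w ∈ VF μ δ M.adjugate m (j + e + 1),
      ev μ δ • w = ev μ g • qm (MG μ M) (0, fun i => MG μ M i k) v := by
  obtain ⟨f, a, rfl, hf, hf2, ha, ha2⟩ := (mem_VF D).mp hv
  have hA : (MG μ M).adjugate = M.adjugate.map (ev μ) :=
    (RingHom.map_adjugate ((ev μ : P3 →ₐ[ℂ] KG μ) : P3 →+* KG μ) M).symm
  have hδi := irreducible_of_smooth (by norm_num) D.hδ D.hsm
  have hδ0 := hδi.ne_zero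
  have hnd := notdvd D
  have hMAδ : ∀ x : Fin 3 → P3, M.mulVec (M.adjugate.mulVec x) = δ • x := by
    intro x
    rw [Matrix.mulVec_mulVec, Matrix.mul_adjugate, Matrix.smul_mulVec, Matrix.one_mulVec, D.hMd]
  have hg2 : g ^ 2 ∈ Imd μ δ := by
    obtain ⟨q, hq⟩ := D.hgh
    have e1 : g ^ 2 = μ * q + δ * h ^ 2 := by linear_combination hq
    rw [e1]
    exact Ideal.add_mem _ (μ_mem _ _ _) (δ_mem _ _ _)
  have hgz : HZ g (e + 3) := HZ.of_nat (by push_cast; rfl) D.hg
  -- division by `δ`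
  obtain ⟨t₀, r₀, h0, -, hr0⟩ := hz_Imd D (hgz.mul hf) (hz_mul_mem D hgz hf hg2 hf2)
  have hAa : ∀ l, HZ (M.adjugate.mulVec a l) (4 + (j + m)) := by
    intro l
    simp only [Matrix.mulVec, dotProduct]
    exact HZ.sum _ _ fun n _ => (A_hz D l n).mul (ha n)
  have hAr : ∀ l, ∃ t r : P3, g * M.adjugate.mulVec a l = μ * t + δ * r ∧
      HZ t (e + 3 + (4 + (j + m)) - (2 * m + 1)) ∧ HZ r (e + 3 + (4 + (j + m)) - 6) := fun l =>
    hz_Imd D (hgz.mul (hAa l)) (hz_mul_mem D hgz (hAa l) hg2 (Aa_sq D ha2 l))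
  choose t r htr ht hr using hAr
  -- the norm of `r`
  have hMt : ∀ l, δ ∣ M.mulVec t l := by
    intro l
    have h1 : δ * M.mulVec r l = g * (δ * a l) - μ * M.mulVec t l := by
      have h2 := congrFun (hMAδ a) l
      rw [Pi.smul_apply, smul_eq_mul] at h2
      rw [← h2]
      simp only [Matrix.mulVec, dotProduct, Finset.mul_sum]
      rw [← Finset.sum_sub_distrib]
      refine Finset.sum_congr rfl fun n _ => ?_
      have h3 := htr n
      simp only [Matrix.mulVec, dotProduct, Finset.mul_sum] at h3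
      have h4 : M l n * ∑ i, g * (M.adjugate n i * a i) = M l n * (μ * t n + δ * r n) := by rw [h3]
      have h5 : ∑ i, g * (M l n * (M.adjugate n i * a i)) =
          M l n * ∑ i, g * (M.adjugate n i * a i) := by
        rw [Finset.mul_sum]
        exact Finset.sum_congr rfl fun i _ => by ring
      rw [h5, h4]
      ring
    have h2 : δ ∣ μ * M.mulVec t l := ⟨g * a l - M.mulVec r l, by linear_combination h1⟩
    exact (hδi.prime.dvd_or_dvd h2).resolve_left hnd
  choose c hc using hMt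
  have hMr : ∀ l, M.mulVec r l = g * a l - μ * c l := by
    intro l
    apply mul_left_cancel₀ hδ0
    have h1 : δ * M.mulVec r l = g * (δ * a l) - μ * M.mulVec t l := by
      have h2 := congrFun (hMAδ a) l
      rw [Pi.smul_apply, smul_eq_mul] at h2
      rw [← h2]
      simp only [Matrix.mulVec, dotProduct, Finset.mul_sum]
      rw [← Finset.sum_sub_distrib]
      refine Finset.sum_congr rfl fun n _ => ?_
      have h3 := htr n
      simp only [Matrix.mulVec, dotProduct, Finset.mul_sum] at h3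
      have h4 : M l n * ∑ i, g * (M.adjugate n i * a i) = M l n * (μ * t n + δ * r n) := by rw [h3]
      have h5 : ∑ i, g * (M l n * (M.adjugate n i * a i)) =
          M l n * ∑ i, g * (M.adjugate n i * a i) := by
        rw [Finset.mul_sum]
        exact Finset.sum_congr rfl fun i _ => by ring
      rw [h5, h4]
      ring
    rw [h1, hc]
    ring
  obtain ⟨t', r', htr'⟩ : ∃ t' r', a ⬝ᵥ M.adjugate.mulVec a = μ * t' + δ * r' := by
    obtain ⟨t', r', h1⟩ := Ideal.mem_span_pair.mp ha2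
    exact ⟨t', r', by rw [← h1]; ring⟩
  have hga : g * (a ⬝ᵥ r) ∈ Imd μ δ := by
    have h1 : δ * (a ⬝ᵥ r) = g * (μ * t' + δ * r') - μ * (a ⬝ᵥ t) := by
      rw [← htr']
      simp only [dotProduct, Finset.mul_sum]
      rw [← Finset.sum_sub_distrib]
      refine Finset.sum_congr rfl fun n _ => ?_
      linear_combination -(a n) * htr n
    have h2 : δ ∣ μ * (g * t' - a ⬝ᵥ t) := ⟨a ⬝ᵥ r - g * r', by linear_combination -h1⟩
    obtain ⟨q, hq⟩ := (hδi.prime.dvd_or_dvd h2).resolve_left hnd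
    have h3 : a ⬝ᵥ r = g * r' + μ * q := by
      apply mul_left_cancel₀ hδ0
      linear_combination h1 + μ * hq
    rw [h3]
    have e1 : g * (g * r' + μ * q) = g ^ 2 * r' + μ * (g * q) := by ring
    rw [e1]
    exact Ideal.add_mem _ (Ideal.mul_mem_right _ _ hg2) (μ_mem _ _ _)
  have hrMr : r ⬝ᵥ M.mulVec r ∈ Imd μ δ := by
    have h1 : r ⬝ᵥ M.mulVec r = g * (a ⬝ᵥ r) - μ * (r ⬝ᵥ c) := by
      simp only [dotProduct, Finset.mul_sum]
      rw [← Finset.sum_sub_distrib]
      refine Finset.sum_congr rfl fun n _ => ?_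
      rw [hMr]
      ring
    rw [h1]
    exact Ideal.sub_mem _ hga (μ_mem _ _ _)
  have hMrk : (M.mulVec r k) ^ 2 ∈ Imd μ δ := by
    rw [hMr]
    have e1 : (g * a k - μ * c k) ^ 2 = g ^ 2 * (a k) ^ 2 +
        μ * (c k * (μ * c k - 2 * g * a k)) := by ring
    rw [e1]
    exact Ideal.add_mem _ (Ideal.mul_mem_right _ _ hg2) (μ_mem _ _ _)
  -- the vector
  have hcr : ∀ n, HZ ((crossProduct (Pi.single k 1) r) n) (e + 3 + (4 + (j + m)) - 6) := by
    intro n
    have h2 : ∀ p q : Fin 3, HZ ((Pi.single k 1 : Fin 3 → P3) p * r q)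
        (e + 3 + (4 + (j + m)) - 6) := by
      intro p q
      rw [Pi.single_apply]
      split_ifs
      · rw [one_mul]; exact hr q
      · rw [zero_mul]; exact HZ.zero _
    fin_cases n
    · exact (h2 1 2).sub (h2 2 1)
    · exact (h2 2 0).sub (h2 0 2)
    · exact (h2 0 1).sub (h2 1 0)
  have hcol : M.mulVec (Pi.single k 1) = fun i => M i k := by
    funext i
    rw [Matrix.mulVec_single_one]
    rfl
  refine ⟨(ev μ (-(g * a k)), fun l => ev μ (r₀ * M l k + (crossProduct (Pi.single k 1) r) l)),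
    (mem_VF D).mpr ⟨_, _, rfl, ?_, ?_, ?_, ?_⟩, ?_⟩
  · exact (hgz.mul (ha k)).neg.congr (by ring)
  · rw [neg_sq, mul_pow]
    exact Ideal.mul_mem_right _ _ hg2
  · intro l
    refine HZ.add ?_ ((hcr l).congr (by ring))
    exact (hr0.mul (M_hz D l k)).congr (by ring)
  · have e1 : (fun l => r₀ * M l k + (crossProduct (Pi.single k 1) r) l) =
        (1 : P3) • (crossProduct (Pi.single k 1) r) + M.mulVec (r₀ • Pi.single k 1) := by
      rw [Matrix.mulVec_smul, hcol, one_smul]
      funext l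
      simp only [Pi.add_apply, Pi.smul_apply, smul_eq_mul]
      ring
    rw [e1, x6b_norm D.hMs, D.hMd, x6b_cross_norm D.hMs, one_pow, one_mul]
    exact Ideal.add_mem _ (Ideal.sub_mem _ (Ideal.mul_mem_left _ _ hrMr) hMrk) (δ_mem _ _ _)
  · have hcross := x6b_cross (M := MG μ M) (by
      rw [MG, Matrix.IsSymm, ← Matrix.transpose_map, D.hMs.eq]) (fun i => ev μ (a i)) k
    refine Prod.ext ?_ ?_
    · simp only [qm, Prod.smul_fst, smul_eq_mul, zero_mul, zero_sub, map_neg, map_mul]
      have h1 : (fun i => MG μ M i k) ⬝ᵥ (MG μ M).adjugate.mulVec (fun i => ev μ (a i)) =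
          ev μ δ * ev μ (a k) := by
        have h2 := congrArg (ev μ) (congrFun (hMAδ a) k)
        rw [Pi.smul_apply, smul_eq_mul, map_mul] at h2
        rw [← h2, hA]
        simp only [MG, Matrix.mulVec, dotProduct, Matrix.map_apply, map_sum, map_mul]
        exact Finset.sum_congr rfl fun n _ => by rw [D.hMs.apply]
      rw [h1]
      ring
    · funext l
      simp only [qm, Prod.smul_snd, Pi.smul_apply, Pi.add_apply, zero_smul, zero_add, smul_eq_mul,
        map_add, map_mul]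
      rw [hcross, hA]
      have h3 : (crossProduct (Pi.single k 1)
          ((M.adjugate.map (ev μ)).mulVec fun i => ev μ (a i))) l =
          ev μ ((crossProduct (Pi.single k 1) (M.adjugate.mulVec a)) l) := by
        have h4 : ((M.adjugate.map (ev μ)).mulVec fun i => ev μ (a i)) =
            fun i => ev μ (M.adjugate.mulVec a i) := by
          funext i
          simp only [Matrix.mulVec, dotProduct, Matrix.map_apply, map_sum, map_mul]
        rw [h4, x6b_ev]
      rw [h3]
      have hμ0 : ev μ μ = 0 := by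
        have h5 : ev μ μ = AdjoinRoot.mk (psi μ) (psi μ) := rfl
        rw [h5, AdjoinRoot.mk_self]
      have h6 : ev μ g * ev μ ((crossProduct (Pi.single k 1) (M.adjugate.mulVec a)) l) =
          ev μ δ * ev μ ((crossProduct (Pi.single k 1) r) l) := by
        have h7 : ∀ n, ev μ g * ev μ (M.adjugate.mulVec a n) = ev μ δ * ev μ (r n) := by
          intro n
          rw [← map_mul, htr, map_add, map_mul, map_mul, hμ0, zero_mul, zero_add]
        rw [x6b_ev, x6b_ev]
        have h10 : ev μ g • (fun i => ev μ (M.adjugate.mulVec a i)) =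
            ev μ δ • (fun i => ev μ (r i)) := funext h7
        have h11 := congrArg (crossProduct (Pi.single k 1)) h10
        rw [map_smul, map_smul] at h11
        exact congrFun h11 l
      have h8 : ev μ g * ev μ f = ev μ δ * ev μ r₀ := by
        rw [← map_mul, h0, map_add, map_mul, map_mul, hμ0, zero_mul, zero_add]
      have h9 : MG μ M l k = ev μ (M l k) := rfl
      rw [h9]
      linear_combination -(ev μ (M l k)) * h8 - h6

end Pool.Agent.Helper89.OS
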